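import Pool.Agent.Helper26.DMC.SubStub
import Pool.Agent.Helper21.V2.BA
import Pool.Agent.Helper21.V2.BB

/-! Block DMC-SU1: S-unit theorem along an ultrafilter, from `subspace_stub`. -/

set_option autoImplicit false

namespace Pool.Agent.Helper26.DMC

open NumberField
open Pool.Agent.V2
open Pool.Agent.Helper64.Vojta (Pl nv)

variable {K : Type*} [Field K] [NumberField K]

/-- a.e. values which are units outside `S` -/
def SUnit (U : Ultrafilter ℕ) (S : Finset (FinitePlace K)) (y : ℕ → K) : Prop :=
  ∀ᶠ n in (U : Filter ℕ), y n ≠ 0 ∧ ∀ v : FinitePlace K, v ∉ S → v (y n) = 1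

namespace SU1

open Filter Topology
open Pool.Agent.Helper64.Vojta (nv_nonneg nv_mul nv_one nv_zero nv_pos nv_inv)

theorem ult_finite {α : Type*} (U : Ultrafilter ℕ) (s : Set α) (hs : s.Finite) (g : ℕ → α)
    (hg : ∀ᶠ j in (U : Filter ℕ), g j ∈ s) : ∃ a, ∀ᶠ j in (U : Filter ℕ), g j = a := by
  have h1 : s ∈ U.map g := hg
  obtain ⟨a, -, ha⟩ := Ultrafilter.eq_pure_of_finite_mem hs h1
  refine ⟨a, ?_⟩
  have h2 : ({a} : Set α) ∈ U.map g := by
    rw [ha]
    exact Ultrafilter.mem_pure.mpr rfl
  exact h2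

theorem lim_bdd (U : Ultrafilter ℕ) (f : ℕ → ℝ) (C : ℝ)
    (h : ∀ᶠ j in (U : Filter ℕ), |f j| ≤ C) : ∃ e, Tendsto f U (𝓝 e) := by
  have h1 : Set.Icc (-C) C ∈ U.map f := by
    change ∀ᶠ j in (U : Filter ℕ), f j ∈ Set.Icc (-C) C
    filter_upwards [h] with j hj
    exact abs_le.mp hj
  obtain ⟨e, -, he⟩ := isCompact_Icc.ultrafilter_le_nhds' _ h1
  exact ⟨e, he⟩

theorem gsum_eq_of_S (S : Finset (FinitePlace K)) (f : Pl K → ℝ)
    (hf : ∀ v : FinitePlace K, v ∉ S → f (.inr v) = 0) :
    gsum f = ∑ v : InfinitePlace K, f (.inl v) + ∑ v ∈ S, f (.inr v) := by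
  unfold gsum
  congr 1
  refine finsum_eq_sum_of_support_subset _ ?_
  intro v hv
  by_contra h
  exact hv (hf v h)

theorem finS_of_S (S : Finset (FinitePlace K)) (f : Pl K → ℝ)
    (hf : ∀ v : FinitePlace K, v ∉ S → f (.inr v) = 0) : FinS f := by
  refine Set.Finite.subset S.finite_toSet ?_
  intro v hv
  by_contra h
  exact hv (hf v h)

theorem tendsto_gsum {U : Filter ℕ} (S : Finset (FinitePlace K)) (f : ℕ → Pl K → ℝ)
    (e : Pl K → ℝ) (hf : ∀ᶠ j in U, ∀ v : FinitePlace K, v ∉ S → f j (.inr v) = 0)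
    (he : ∀ v : FinitePlace K, v ∉ S → e (.inr v) = 0)
    (h : ∀ v, Tendsto (fun j => f j v) U (𝓝 (e v))) :
    Tendsto (fun j => gsum (f j)) U (𝓝 (gsum e)) := by
  rw [gsum_eq_of_S S e he]
  have h1 : (fun j => gsum (f j)) =ᶠ[U]
      fun j => ∑ v : InfinitePlace K, f j (.inl v) + ∑ v ∈ S, f j (.inr v) := by
    filter_upwards [hf] with j hj
    exact gsum_eq_of_S S _ hj
  rw [tendsto_congr' h1]
  exact (tendsto_finsetSum _ fun v _ => h _).add (tendsto_finsetSum _ fun v _ => h _)

theorem exps (U : Ultrafilter ℕ) (S : Finset (FinitePlace K)) (a : ℕ → K) (ha : SUnit U S a)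
    (t : ℕ → ℝ) (ht : Tendsto t U atTop) (C : Pl K → ℝ)
    (hb : ∀ v, ∀ᶠ j in (U : Filter ℕ), |Real.log (nv v (a j))| ≤ C v + t j) :
    ∃ e : Pl K → ℝ, (∀ v : FinitePlace K, v ∉ S → e (.inr v) = 0) ∧
      (∀ v, Tendsto (fun j => Real.log (nv v (a j)) / t j) U (𝓝 (e v))) ∧ gsum e = 0 := by
  have h1 : ∀ v, ∃ e, Tendsto (fun j => Real.log (nv v (a j)) / t j) U (𝓝 e) := by
    intro v
    refine lim_bdd U _ (|C v| + 1) ?_
    filter_upwards [hb v, ht.eventually_ge_atTop 1] with j hj htj
    have h0 : 0 < t j := by linarith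
    rw [abs_div, abs_of_pos h0, div_le_iff₀ h0]
    have : |C v| ≤ |C v| * t j := le_mul_of_one_le_right (abs_nonneg _) htj
    have := le_abs_self (C v)
    linarith
  choose e he using h1
  have h2 : ∀ v : FinitePlace K, v ∉ S → e (.inr v) = 0 := by
    intro v hv
    have h3 : (fun j => Real.log (nv (.inr v) (a j)) / t j) =ᶠ[(U : Filter ℕ)] fun _ => 0 := by
      filter_upwards [ha] with j hj
      have : nv (.inr v) (a j) = 1 := hj.2 v hv
      rw [this]
      simp
    have h4 := (tendsto_congr' h3).mp (he (.inr v))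
    exact (tendsto_nhds_unique h4 tendsto_const_nhds)
  refine ⟨e, h2, he, ?_⟩
  have h5 : Tendsto (fun j => gsum fun v => Real.log (nv v (a j)) / t j) U (𝓝 (gsum e)) := by
    refine tendsto_gsum S _ e ?_ h2 he
    filter_upwards [ha] with j hj v hv
    have : nv (.inr v) (a j) = 1 := hj.2 v hv
    rw [this]
    simp
  have h6 : (fun j => gsum fun v => Real.log (nv v (a j)) / t j) =ᶠ[(U : Filter ℕ)]
      fun _ => 0 := by
    filter_upwards [ha] with j hj
    have : (fun v : Pl K => Real.log (nv v (a j)) / t j) =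
        fun v => (t j)⁻¹ * Real.log (nv v (a j)) := by
      funext v
      ring
    rw [this, gsum_const_mul, gsum_nv hj.1, mul_zero]
  exact tendsto_nhds_unique ((tendsto_congr' h6).mp h5) tendsto_const_nhds

/-- the archimedean constant -/
noncomputable def kap (r : ℕ) : Pl K → ℝ
  | .inl v => v.mult * Real.log r
  | .inr _ => 0

theorem nv_lin_le {r : ℕ} (hr : 0 < r) (v : Pl K) (b y : Fin r → K) (hb : b ≠ 0) (hy : y ≠ 0)
    (hz : ∑ i, b i * y i ≠ 0) :
    Real.log (nv v (∑ i, b i * y i)) ≤
      Real.log (vn v b) + kap r v + Real.log (vn v y) := by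
  have hr' : (0 : ℝ) < r := by exact_mod_cast hr
  have hB : ∀ i ∈ (Finset.univ : Finset (Fin r)), nv v (b i * y i) ≤ vn v b * vn v y := by
    intro i _
    rw [nv_mul]
    exact mul_le_mul (le_vn v b i) (le_vn v y i) (nv_nonneg _ _) (vn_pos v hb).le
  have hB0 : 0 ≤ vn v b * vn v y := mul_nonneg (vn_pos v hb).le (vn_pos v hy).le
  rcases v with v | v
  · have h1 := nv_sum_inl v Finset.univ (fun i => b i * y i) hB0 hB
    rw [Finset.card_univ, Fintype.card_fin] at h1
    have h2 := Real.log_le_log (nv_pos _ hz) h1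
    rw [Real.log_mul (by positivity)
      (mul_pos (vn_pos _ hb) (vn_pos _ hy)).ne', Real.log_pow,
      Real.log_mul (vn_pos _ hb).ne' (vn_pos _ hy).ne'] at h2
    simp only [kap]
    linarith
  · have h1 := nv_sum_inr v Finset.univ (fun i => b i * y i) hB0 hB
    have h2 := Real.log_le_log (nv_pos _ hz) h1
    rw [Real.log_mul (vn_pos _ hb).ne' (vn_pos _ hy).ne'] at h2
    simp only [kap]
    linarith

theorem finS_kap (r : ℕ) : FinS (K := K) (kap r) := by
  unfold FinS
  simp [kap]

theorem max_index {r : ℕ} (hr : 0 < r) (U : Ultrafilter ℕ) (y : ℕ → Fin r → K) (v : Pl K) :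
    ∃ i, ∀ᶠ j in (U : Filter ℕ), ∀ i', nv v (y j i') ≤ nv v (y j i) := by
  have : Nonempty (Fin r) := ⟨⟨0, hr⟩⟩
  have h1 : ∀ j, ∃ i, ∀ i', nv v (y j i') ≤ nv v (y j i) := fun j =>
    Finite.exists_max fun i => nv v (y j i)
  choose m hm using h1
  obtain ⟨i, hi⟩ := ult_finite U Set.univ Set.finite_univ m (Eventually.of_forall fun _ => trivial)
  refine ⟨i, ?_⟩
  filter_upwards [hi] with j hj i'
  rw [← hj]
  exact hm j i'

theorem vn_eq {r : ℕ} (v : Pl K) (y : Fin r → K) (i : Fin r)
    (h : ∀ i', nv v (y i') ≤ nv v (y i)) : vn v y = nv v (y i) :=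
  le_antisymm (vn_le v y (nv_nonneg _ _) h) (le_vn v y i)

open Classical in
/-- the matrices: identity with one row replaced by `b` -/
noncomputable def Lm {r : ℕ} (S : Finset (FinitePlace K)) (b : Fin r → K) (m : Pl K → Fin r) :
    Pl K → Matrix (Fin r) (Fin r) K
  | .inl v => Matrix.updateRow 1 (m (.inl v)) b
  | .inr v => if v ∈ S then Matrix.updateRow 1 (m (.inr v)) b else 1

theorem det_upd {r : ℕ} (b : Fin r → K) (i : Fin r) :
    (Matrix.updateRow (1 : Matrix (Fin r) (Fin r) K) i b).det = b i := by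
  rw [← Matrix.cramer_transpose_apply, Matrix.transpose_one, Matrix.cramer_one]
  rfl

theorem upd_mulVec {r : ℕ} (b y : Fin r → K) (i i' : Fin r) :
    Matrix.mulVec (Matrix.updateRow (1 : Matrix (Fin r) (Fin r) K) i b) y i' =
      if i' = i then ∑ l, b l * y l else y i' := by
  by_cases h : i' = i
  · subst h
    simp [Matrix.mulVec, dotProduct, Matrix.updateRow_self]
  · simp only [Matrix.mulVec, h, if_false]
    rw [Matrix.updateRow_ne h]
    have := congrFun (Matrix.one_mulVec y) i'
    simpa [Matrix.mulVec] using this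

/-- the system of forms -/
noncomputable def Fm {r : ℕ} (S : Finset (FinitePlace K)) (b : Fin r → K) (hb : ∀ i, b i ≠ 0)
    (m : Pl K → Fin r) : Frm K (Fin r) where
  S := S
  L := Lm S b m
  hL := by
    classical
    rintro (v | v)
    · simp only [Lm]
      rw [det_upd]
      exact hb _
    · simp only [Lm]
      split_ifs
      · rw [det_upd]
        exact hb _
      · simp
  hS := by
    intro v hv
    simp only [Lm, hv, if_false]

theorem log_iSup_le {r : ℕ} (hr : 0 < r) (f : Fin r → ℝ) (hf : ∀ i, 0 < f i) (B : ℝ)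
    (h : ∀ i, Real.log (f i) ≤ B) : Real.log (⨆ i, f i) ≤ B := by
  have h1 : (⨆ i, f i) ≤ Real.exp B := by
    refine Real.iSup_le (fun i => ?_) (Real.exp_pos _).le
    rw [← Real.log_le_iff_le_exp (hf i)]
    exact h i
  have h2 : 0 < ⨆ i, f i :=
    (hf ⟨0, hr⟩).trans_le (le_ciSup (Set.finite_range f).bddAbove _)
  rw [Real.log_le_iff_le_exp h2]
  exact h1

theorem core1 (U : Ultrafilter ℕ) (S : Finset (FinitePlace K)) {r : ℕ} (y : ℕ → Fin r → K)
    (i0 : Fin r) (h1 : ∀ j, y j i0 = 1) (hy : ∀ i, SUnit U S (fun j => y j i))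
    (b : Fin r → K) (hb : ∀ i, b i ≠ 0) (hz : SUnit U S (fun j => ∑ i, b i * y j i))
    (ht : Tendsto (fun j => vH (y j)) U atTop) :
    ∃ W : Submodule K (Fin r → K), W ≠ ⊤ ∧ ∀ᶠ j in (U : Filter ℕ), y j ∈ W := by
  classical
  have hr : 0 < r := lt_of_le_of_lt (Nat.zero_le _) i0.2
  have hrR : (0 : ℝ) < r := by exact_mod_cast hr
  have hb0 : b ≠ 0 := by
    intro h
    exact hb i0 (by rw [h]; rfl)
  have hy0 : ∀ j, y j ≠ 0 := by
    intro j h
    have := h1 j
    rw [h] at this
    exact zero_ne_one this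
  set t : ℕ → ℝ := fun j => vH (y j) with htdef
  have hN : ∀ j v, 0 ≤ Real.log (vn v (y j)) := by
    intro j v
    refine Real.log_nonneg ?_
    have := le_vn v (y j) i0
    rwa [h1, nv_one] at this
  have hNt : ∀ j v, Real.log (vn v (y j)) ≤ t j := fun j v =>
    single_le_gsum (finS_vn (hy0 j)) (hN j) v
  -- exponents of the coordinates
  have hE : ∀ i, ∃ e : Pl K → ℝ, (∀ v : FinitePlace K, v ∉ S → e (.inr v) = 0) ∧
      (∀ v, Tendsto (fun j => Real.log (nv v (y j i)) / t j) U (𝓝 (e v))) ∧ gsum e = 0 := by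
    intro i
    refine exps U S (fun j => y j i) (hy i) t ht (fun _ => 0) ?_
    intro v
    filter_upwards [hy i] with j hj
    rw [zero_add, abs_le]
    constructor
    · have h2 := le_nv_of_ne_zero hj.1 (fun w => Real.log (vn w (y j))) (finS_vn (hy0 j))
        (fun w => Real.log_le_log (nv_pos w hj.1) (le_vn w (y j) i)) v
      have h3 := hN j v
      have h4 : gsum (fun w => Real.log (vn w (y j))) = t j := rfl
      rw [h4] at h2
      linarith
    · exact (Real.log_le_log (nv_pos v hj.1) (le_vn v (y j) i)).trans (hNt j v)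
  choose e he0 he heg using hE
  -- exponents of the sum
  obtain ⟨e', he0', he', heg'⟩ : ∃ e : Pl K → ℝ, (∀ v : FinitePlace K, v ∉ S → e (.inr v) = 0) ∧
      (∀ v, Tendsto (fun j => Real.log (nv v (∑ i, b i * y j i)) / t j) U (𝓝 (e v))) ∧
      gsum e = 0 := by
    set β : Pl K → ℝ := fun v => Real.log (vn v b) + kap r v with hβ
    have hβF : FinS β := (finS_vn hb0).add (finS_kap r)
    refine exps U S (fun j => ∑ i, b i * y j i) hz t ht (fun v => |β v| + |gsum β|) ?_
    intro v
    filter_upwards [hz] with j hj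
    have hup : ∀ w, Real.log (nv w (∑ i, b i * y j i)) ≤ β w + Real.log (vn w (y j)) :=
      fun w => nv_lin_le hr w b (y j) hb0 (hy0 j) hj.1
    have h2 := le_nv_of_ne_zero hj.1 (fun w => β w + Real.log (vn w (y j)))
      (hβF.add (finS_vn (hy0 j))) hup v
    rw [gsum_add hβF (finS_vn (hy0 j))] at h2
    have h4 : gsum (fun w => Real.log (vn w (y j))) = t j := rfl
    have h4' : gsum (fun v => β v) = gsum β := rfl
    rw [h4, h4'] at h2
    have h5 := hup v
    have h6 := hNt j v
    have h7 := hN j v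
    have a1 := le_abs_self (β v)
    have a2 := neg_abs_le (β v)
    have a3 := le_abs_self (gsum β)
    have a4 := neg_abs_le (gsum β)
    have a5 := abs_nonneg (gsum β)
    rw [abs_le]
    constructor
    · linarith
    · linarith
  -- the maximal coordinates
  choose m hm using fun v => max_index hr U y v
  have hsum1 : gsum (fun v => e (m v) v) = 1 := by
    have h2 : Tendsto (fun j => gsum fun v => Real.log (vn v (y j)) / t j) U
        (𝓝 (gsum fun v => e (m v) v)) := by
      refine tendsto_gsum S _ _ ?_ (fun v hv => he0 _ v hv) ?_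
      · have h3 : ∀ᶠ j in (U : Filter ℕ), ∀ i, (y j i ≠ 0 ∧ ∀ v : FinitePlace K, v ∉ S →
            v (y j i) = 1) := by
          rw [Filter.eventually_all]
          exact fun i => hy i
        filter_upwards [h3] with j hj v hv
        have h4 : vn (.inr v) (y j) = 1 := by
          have h5 : ∀ i, nv (.inr v) (y j i) = 1 := fun i => (hj i).2 v hv
          rw [vn_eq (.inr v) (y j) i0 (fun i' => by rw [h5, h5]), h5]
        rw [h4]
        simp
      · intro v
        refine (tendsto_congr' ?_).mpr (he (m v) v)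
        filter_upwards [hm v] with j hj
        rw [vn_eq v (y j) (m v) hj]
    have h3 : (fun j => gsum fun v => Real.log (vn v (y j)) / t j) =ᶠ[(U : Filter ℕ)]
        fun _ => 1 := by
      filter_upwards [ht.eventually_ge_atTop 1] with j hj
      have : (fun v : Pl K => Real.log (vn v (y j)) / t j) =
          fun v => (t j)⁻¹ * Real.log (vn v (y j)) := by
        funext v
        ring
      rw [this, gsum_const_mul]
      have h4 : gsum (fun w => Real.log (vn w (y j))) = t j := rfl
      rw [h4]
      have : 0 < t j := by linarith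
      exact inv_mul_cancel₀ this.ne'
    exact tendsto_nhds_unique ((tendsto_congr' h3).mp h2) tendsto_const_nhds |>.symm ▸ rfl
  -- the exponents
  obtain ⟨v₀⟩ : Nonempty (InfinitePlace K) := inferInstance
  set c : Pl K → Fin r → ℝ := fun v i' =>
    (if i' = m v then e' v else e i' v) + (if v = .inl v₀ then 1 / (r : ℝ) else 0) with hc
  have hcS : ExpS S c := by
    intro v hv
    funext i'
    simp only [hc]
    rw [he0' v hv, he0 i' v hv]
    simp
  have hdeg : deg c = 0 := by
    have h2 : (fun v => ∑ i', c v i') = fun v => (∑ i', e i' v) +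
        ((e' v + (-1) * e (m v) v) + (if v = .inl v₀ then 1 else 0)) := by
      funext v
      have h3 : ∀ i', c v i' = (e i' v + if i' = m v then e' v - e (m v) v else 0) +
          (if v = .inl v₀ then 1 / (r : ℝ) else 0) := by
        intro i'
        simp only [hc]
        by_cases h : i' = m v
        · subst h; simp
        · simp [h]
      rw [Finset.sum_congr rfl fun i' _ => h3 i', Finset.sum_add_distrib, Finset.sum_add_distrib,
        Finset.sum_ite_eq' Finset.univ (m v), Finset.sum_const, Finset.card_univ,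
        Fintype.card_fin]
      by_cases h : v = .inl v₀
      · simp only [h, if_true, Finset.mem_univ, nsmul_eq_mul]
        field_simp
        ring
      · simp only [h, if_false, Finset.mem_univ, if_true, smul_zero]
        ring
    have f1 : ∀ i, FinS (e i) := fun i => finS_of_S S _ (he0 i)
    have f2 : FinS e' := finS_of_S S _ he0'
    have f3 : FinS (fun v => e (m v) v) := finS_of_S S _ (fun v hv => he0 _ v hv)
    have f4 : FinS (K := K) (fun v => if v = .inl v₀ then 1 else 0) :=
      finS_of_S S _ (fun v hv => by simp)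
    have g4 : gsum (K := K) (fun v => if v = .inl v₀ then (1 : ℝ) else 0) = 1 := by
      rw [gsum_eq_of_S S _ (fun v hv => by simp)]
      simp
    unfold deg
    rw [h2, gsum_add (FinS.sum _ fun i _ => f1 i) ((f2.add (f3.const_mul (-1))).add f4),
      gsum_sum _ (fun i _ => f1 i), gsum_add (f2.add (f3.const_mul (-1))) f4,
      gsum_add f2 (f3.const_mul (-1)), gsum_const_mul, hsum1, g4]
    have : ∀ i, gsum (fun v => e i v) = 0 := heg
    rw [Finset.sum_congr rfl fun i _ => this i]
    have h5 : gsum (fun v => e' v) = 0 := heg'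
    rw [h5]
    simp
  -- the twisted height
  set M : ℝ := Fintype.card (InfinitePlace K) + S.card with hM
  have hMpos : 0 < M := by
    have h2 : 0 < Fintype.card (InfinitePlace K) := Fintype.card_pos
    have h3 : (0 : ℝ) < Fintype.card (InfinitePlace K) := by exact_mod_cast h2
    positivity
  set ε : ℝ := 1 / (2 * r * M) with hε
  have hεpos : 0 < ε := by positivity
  have hall : ∀ᶠ j in (U : Filter ℕ), (∀ i, (y j i ≠ 0 ∧ ∀ v : FinitePlace K, v ∉ S →
      v (y j i) = 1)) := by
    rw [Filter.eventually_all]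
    exact fun i => hy i
  have hloc : ∀ v : Pl K, ∀ᶠ j in (U : Filter ℕ), ∀ i',
      Real.log (nv v (if i' = m v then ∑ l, b l * y j l else y j i') *
        Real.exp (-(t j * c v i'))) ≤ ε * t j - (if v = .inl v₀ then t j / r else 0) := by
    intro v
    rw [Filter.eventually_all]
    intro i'
    by_cases h : i' = m v
    · have h2 := (he' v).eventually (Iio_mem_nhds (show e' v < e' v + ε by linarith))
      filter_upwards [h2, hz, ht.eventually_gt_atTop 0] with j hj hzj htj
      have h3 : Real.log (nv v (∑ l, b l * y j l)) < (e' v + ε) * t j := by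
        have : Real.log (nv v (∑ i, b i * y j i)) / t j < e' v + ε := hj
        rwa [div_lt_iff₀ htj] at this
      simp only [h, if_true]
      rw [Real.log_mul (nv_pos v hzj.1).ne' (Real.exp_pos _).ne', Real.log_exp]
      simp only [hc, if_true]
      by_cases hv : v = .inl v₀
      · simp only [hv, if_true] at h3 ⊢
        have : t j * (e' (.inl v₀) + 1 / (r : ℝ)) = t j * e' (.inl v₀) + t j / r := by ring
        rw [this]
        nlinarith [h3]
      · simp only [hv, if_false] at h3 ⊢
        nlinarith [h3]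
    · have h2 := (he i' v).eventually (Iio_mem_nhds (show e i' v < e i' v + ε by linarith))
      filter_upwards [h2, hy i', ht.eventually_gt_atTop 0] with j hj hyj htj
      have h3 : Real.log (nv v (y j i')) < (e i' v + ε) * t j := by
        have : Real.log (nv v (y j i')) / t j < e i' v + ε := hj
        rwa [div_lt_iff₀ htj] at this
      simp only [h, if_false]
      rw [Real.log_mul (nv_pos v hyj.1).ne' (Real.exp_pos _).ne', Real.log_exp]
      simp only [hc, h, if_false]
      by_cases hv : v = .inl v₀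
      · simp only [hv, if_true] at h3 ⊢
        have : t j * (e i' (.inl v₀) + 1 / (r : ℝ)) = t j * e i' (.inl v₀) + t j / r := by ring
        rw [this]
        nlinarith [h3]
      · simp only [hv, if_false] at h3 ⊢
        nlinarith [h3]
  have hpos : ∀ᶠ j in (U : Filter ℕ), ∀ (v : Pl K) (i' : Fin r),
      0 < nv v (if i' = m v then ∑ l, b l * y j l else y j i') * Real.exp (-(t j * c v i')) := by
    filter_upwards [hz, hall] with j hzj hyj v i'
    refine mul_pos (nv_pos v ?_) (Real.exp_pos _)
    split_ifs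
    · exact hzj.1
    · exact (hyj i').1
  have hlocI : ∀ᶠ j in (U : Filter ℕ), ∀ v : InfinitePlace K,
      Real.log (tn (Fm S b hb m) (sc (t j) c) (.inl v) (y j)) ≤
        ε * t j - (if v = v₀ then t j / r else 0) := by
    have h2 : ∀ᶠ j in (U : Filter ℕ), ∀ v : InfinitePlace K, ∀ i',
      Real.log (nv (.inl v) (if i' = m (.inl v) then ∑ l, b l * y j l else y j i') *
        Real.exp (-(t j * c (.inl v) i'))) ≤
          ε * t j - (if (Sum.inl v : Pl K) = .inl v₀ then t j / r else 0) := by
      rw [Filter.eventually_all]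
      exact fun v => hloc (.inl v)
    filter_upwards [h2, hpos] with j hj hpj v
    unfold tn
    refine log_iSup_le hr _ ?_ _ ?_
    · intro i'
      simp only [Fm, Lm, upd_mulVec, sc]
      exact hpj (.inl v) i'
    · intro i'
      simp only [Fm, Lm, upd_mulVec, sc]
      have := hj v i'
      simpa using this
  have hlocS : ∀ᶠ j in (U : Filter ℕ), ∀ v ∈ S,
      Real.log (tn (Fm S b hb m) (sc (t j) c) (.inr v) (y j)) ≤ ε * t j := by
    have h2 : ∀ᶠ j in (U : Filter ℕ), ∀ v ∈ S, ∀ i',
      Real.log (nv (.inr v) (if i' = m (.inr v) then ∑ l, b l * y j l else y j i') *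
        Real.exp (-(t j * c (.inr v) i'))) ≤
          ε * t j - (if (Sum.inr v : Pl K) = .inl v₀ then t j / r else 0) := by
      rw [Filter.eventually_all_finset]
      exact fun v _ => hloc (.inr v)
    filter_upwards [h2, hpos] with j hj hpj v hv
    unfold tn
    refine log_iSup_le hr _ ?_ _ ?_
    · intro i'
      simp only [Fm, Lm, hv, if_true, upd_mulVec, sc]
      exact hpj (.inr v) i'
    · intro i'
      simp only [Fm, Lm, hv, if_true, upd_mulVec, sc]
      have := hj v hv i'
      simpa using this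
  have hlocO : ∀ᶠ j in (U : Filter ℕ), ∀ v : FinitePlace K, v ∉ S →
      Real.log (tn (Fm S b hb m) (sc (t j) c) (.inr v) (y j)) = 0 := by
    filter_upwards [hall] with j hj v hv
    have h2 : tn (Fm S b hb m) (sc (t j) c) (.inr v) (y j) = 1 := by
      have h3 : ∀ i', nv (.inr v) (Matrix.mulVec ((Fm S b hb m).L (.inr v)) (y j) i') *
          Real.exp (-(sc (t j) c (.inr v) i')) = 1 := by
        intro i'
        simp only [Fm, Lm, hv, if_false, Matrix.one_mulVec, sc]
        rw [hcS v hv]
        have : nv (.inr v) (y j i') = 1 := (hj i').2 v hv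
        rw [this]
        simp
      unfold tn
      have : Nonempty (Fin r) := ⟨i0⟩
      simp_rw [h3]
      exact ciSup_const
    rw [h2, Real.log_one]
  refine subspace_stub (Fm S b hb m) c hcS hdeg U t ht (1 / (2 * r)) (by positivity) y ?_
  filter_upwards [hlocI, hlocS, hlocO] with j hI hS hO
  refine ⟨hy0 j, ?_⟩
  unfold tH
  rw [gsum_eq_of_S S _ hO]
  have s1 : ∑ v : InfinitePlace K, Real.log (tn (Fm S b hb m) (sc (t j) c) (.inl v) (y j)) ≤
      ∑ v : InfinitePlace K, (ε * t j - (if v = v₀ then t j / r else 0)) :=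
    Finset.sum_le_sum fun v _ => hI v
  have s2 : ∑ v ∈ S, Real.log (tn (Fm S b hb m) (sc (t j) c) (.inr v) (y j)) ≤
      ∑ v ∈ S, ε * t j := Finset.sum_le_sum fun v hv => hS v hv
  rw [Finset.sum_sub_distrib, Finset.sum_const, Finset.sum_ite_eq' Finset.univ v₀,
    Finset.card_univ, nsmul_eq_mul] at s1
  rw [Finset.sum_const, nsmul_eq_mul] at s2
  simp only [Finset.mem_univ, if_true] at s1
  have s3 : ε * M = 1 / (2 * r) := by
    rw [hε]
    field_simp
  have s4 : (Fintype.card (InfinitePlace K) : ℝ) * (ε * t j) + S.card * (ε * t j) =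
      (ε * M) * t j := by
    rw [hM]
    ring
  rw [s3] at s4
  have s5 : t j / (r : ℝ) = 1 / (2 * r) * t j + 1 / (2 * r) * t j := by
    field_simp
    ring
  linarith

open Classical in
theorem sunit_div {U : Ultrafilter ℕ} {S : Finset (FinitePlace K)} {a b : ℕ → K}
    (ha : SUnit U S a) (hb : SUnit U S b) :
    SUnit U S (fun j => if b j = 0 then 1 else a j / b j) := by
  unfold SUnit
  filter_upwards [ha, hb] with j hj hj'
  simp only [hj'.1, if_false]
  refine ⟨div_ne_zero hj.1 hj'.1, fun v hv => ?_⟩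
  rw [map_div₀, hj.2 v hv, hj'.2 v hv, div_one]

theorem core2 (U : Ultrafilter ℕ) (S : Finset (FinitePlace K)) {r : ℕ} (y : Fin r → ℕ → K)
    (i0 i1 : Fin r) (hi : i1 ≠ i0) (hy : ∀ i, SUnit U S (y i))
    (hne : ¬ ∃ a : K, ∀ᶠ j in (U : Filter ℕ), y i1 j = a * y i0 j)
    (b : Fin r → K) (hb : ∀ i, b i ≠ 0) (hz : SUnit U S (fun j => ∑ i, b i * y i j)) :
    ∃ W : Submodule K (Fin r → K), W ≠ ⊤ ∧ ∀ᶠ j in (U : Filter ℕ), (fun i => y i j) ∈ W := by
  classical
  set y' : ℕ → Fin r → K := fun j i => if y i0 j = 0 then 1 else y i j / y i0 j with hy'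
  have h1 : ∀ j, y' j i0 = 1 := by
    intro j
    simp only [hy']
    split_ifs with h
    · rfl
    · exact div_self h
  have h2 : ∀ i, SUnit U S (fun j => y' j i) := fun i => sunit_div (hy i) (hy i0)
  have h3 : SUnit U S (fun j => ∑ i, b i * y' j i) := by
    have h4 := sunit_div hz (hy i0)
    unfold SUnit at h4 ⊢
    filter_upwards [h4, hy i0] with j hj hj0
    simp only [hj0.1, if_false] at hj
    simp only [hy', hj0.1, if_false]
    have : ∑ i, b i * (y i j / y i0 j) = (∑ i, b i * y i j) / y i0 j := by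
      rw [Finset.sum_div]
      exact Finset.sum_congr rfl fun i _ => by ring
    rw [this]
    exact hj
  have hy0 : ∀ j, y' j ≠ 0 := by
    intro j h
    have := h1 j
    rw [h] at this
    exact zero_ne_one this
  have h4 : Tendsto (fun j => vH (y' j)) U atTop := by
    by_contra hcon
    rw [tendsto_atTop, not_forall] at hcon
    obtain ⟨B, hB⟩ := hcon
    have hB' : ∀ᶠ j in (U : Filter ℕ), ¬ (B ≤ vH (y' j)) := by
      rw [Ultrafilter.eventually_not]
      exact hB
    have h5 : ∀ᶠ j in (U : Filter ℕ), y' j i1 ∈ {x : K | Height.logHeight₁ x ≤ B} := by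
      filter_upwards [hB'] with j hj
      push Not at hj
      change Height.logHeight₁ (y' j i1) ≤ B
      rw [Height.logHeight₁_eq_logHeight]
      have hne0 : (![y' j i1, 1] : Fin 2 → K) ≠ 0 := by
        intro h
        have := congrFun h 1
        simp at this
      rw [← vH_eq hne0]
      refine le_trans ?_ hj.le
      refine gsum_mono (finS_vn hne0) (finS_vn (hy0 j)) fun v => ?_
      refine Real.log_le_log (vn_pos v hne0) ?_
      refine vn_le v _ (vn_pos v (hy0 j)).le ?_
      intro i
      fin_cases i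
      · exact le_vn v (y' j) i1
      · have := le_vn v (y' j) i0
        rw [h1] at this
        exact this
    obtain ⟨a, ha⟩ := ult_finite U _ (NumberField.finite_setOfPred_logHeight₁_le K B)
      (fun j => y' j i1) h5
    refine hne ⟨a, ?_⟩
    filter_upwards [ha, hy i0] with j hj hj0
    simp only [hy', hj0.1, if_false] at hj
    rw [← hj, div_mul_cancel₀ _ hj0.1]
  obtain ⟨W, hW, hW'⟩ := core1 U S y' i0 h1 h2 b hb h3 h4
  refine ⟨W, hW, ?_⟩
  filter_upwards [hW', hy i0] with j hj hj0
  have : (fun i => y i j) = y i0 j • y' j := by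
    funext i
    simp only [hy', hj0.1, if_false, Pi.smul_apply, smul_eq_mul]
    rw [mul_div_cancel₀ _ hj0.1]
  rw [this]
  exact W.smul_mem _ hj

theorem main_ind (U : Ultrafilter ℕ) (S : Finset (FinitePlace K)) {n : ℕ} (y : Fin n → ℕ → K)
    (hy : ∀ i, SUnit U S (y i))
    (hne : ∀ i i', i ≠ i' → ¬ ∃ a : K, ∀ᶠ j in (U : Filter ℕ), y i j = a * y i' j) (k : ℕ) :
    ∀ c : Fin n → K, (∃ T : Finset (Fin n), T.card = k ∧ ∀ i, c i ≠ 0 ↔ i ∈ T) →
      (∀ᶠ j in (U : Filter ℕ), ∑ i, c i * y i j = 0) → c = 0 := by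
  classical
  induction k using Nat.strong_induction_on with
  | _ k ih =>
  rintro c ⟨T, hTk, hT⟩ hsum
  by_contra hc0
  obtain ⟨i0, hi0⟩ := Function.ne_iff.mp hc0
  have hi0' : c i0 ≠ 0 := hi0
  have hi0T : i0 ∈ T := (hT i0).mp hi0'
  set T' := T.erase i0 with hT'
  have hcT' : T'.card < k := by
    rw [hT', Finset.card_erase_of_mem hi0T, ← hTk]
    have : 0 < T.card := Finset.card_pos.mpr ⟨i0, hi0T⟩
    omega
  -- the relation in the form y i0 = ∑ ...
  set r := T'.card with hr
  set f : Fin r ≃ T' := (T'.equivFin).symm with hf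
  set b : Fin r → K := fun l => -(c (f l)) / c i0 with hb
  have hrel : ∀ᶠ j in (U : Filter ℕ), ∑ l, b l * y (f l) j = y i0 j := by
    filter_upwards [hsum] with j hj
    have h1 : ∑ i, c i * y i j = c i0 * y i0 j + ∑ i ∈ T', c i * y i j := by
      rw [hT', Finset.add_sum_erase T (fun i => c i * y i j) hi0T]
      refine (Finset.sum_subset (Finset.subset_univ T) ?_).symm
      intro i _ hi
      have : c i = 0 := by
        by_contra h
        exact hi ((hT i).mp h)
      rw [this, zero_mul]
    have h2 : ∑ i ∈ T', c i * y i j = ∑ l, c (f l) * y (f l) j := by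
      rw [← Finset.sum_coe_sort T' (fun i => c i * y i j)]
      exact (Equiv.sum_comp f (fun i : T' => c i * y i j)).symm
    have h3 : ∑ l, b l * y (f l) j = -(∑ l, c (f l) * y (f l) j) / c i0 := by
      rw [neg_div, Finset.sum_div, ← Finset.sum_neg_distrib]
      refine Finset.sum_congr rfl fun l _ => ?_
      simp only [hb]
      ring
    rw [h3]
    rw [h1, h2] at hj
    have h4 : ∑ l, c (f l) * y (f l) j = -(c i0 * y i0 j) := by linear_combination hj
    rw [h4]
    field_simp
  have hfT : ∀ l, (f l : Fin n) ∈ T' := fun l => (f l).2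
  have hfne : ∀ l, (f l : Fin n) ≠ i0 := fun l => Finset.ne_of_mem_erase (hfT l)
  have hbne : ∀ l, b l ≠ 0 := by
    intro l
    simp only [hb]
    refine div_ne_zero (neg_ne_zero.mpr ?_) hi0'
    exact (hT _).mpr (Finset.mem_of_mem_erase (hfT l))
  have hcase : r = 0 ∨ r = 1 ∨ 2 ≤ r := by omega
  rcases hcase with h0 | h1 | h2
  · -- y i0 = 0
    have hE : IsEmpty (Fin r) := by
      rw [h0]
      infer_instance
    have h3 : ∀ᶠ j in (U : Filter ℕ), False := by
      filter_upwards [hrel, hy i0] with j hj hj0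
      rw [Finset.univ_eq_empty, Finset.sum_empty] at hj
      exact hj0.1 hj.symm
    rw [Filter.eventually_false_iff_eq_bot] at h3
    exact U.neBot.ne h3
  · have hl : ∃ l : Fin r, ∀ l', l' = l := by
      refine ⟨⟨0, by omega⟩, fun l' => Fin.ext ?_⟩
      have := l'.2
      have h4 : (l' : ℕ) = 0 := by omega
      rw [h4]
    obtain ⟨l, hl⟩ := hl
    refine hne i0 (f l) (hfne l).symm ⟨b l, ?_⟩
    filter_upwards [hrel] with j hj
    rw [← hj]
    refine Fintype.sum_eq_single l ?_
    intro l' hl'
    exact absurd (hl l') hl'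
  · -- core
    have hz : SUnit U S (fun j => ∑ l, b l * y (f l) j) := by
      unfold SUnit
      filter_upwards [hrel, hy i0] with j hj hj0
      rw [hj]
      exact hj0
    have hl01 : (⟨1, by omega⟩ : Fin r) ≠ ⟨0, by omega⟩ := by
      intro h
      have := congrArg Fin.val h
      simp at this
    obtain ⟨W, hW, hW'⟩ := core2 U S (fun l => y (f l)) ⟨0, by omega⟩ ⟨1, by omega⟩ hl01
      (fun l => hy _) (hne _ _ (by
        intro h
        exact hl01 (f.injective (Subtype.ext h)))) b hbne hz
    obtain ⟨φ, hφ, hWφ⟩ := Submodule.exists_le_ker_of_lt_top W (lt_top_iff_ne_top.mpr hW)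
    -- the new relation
    set c' : Fin n → K := fun i =>
      if h : i ∈ T' then φ (Pi.single (f.symm ⟨i, h⟩) 1) else 0 with hc'
    have hc'sum : ∀ᶠ j in (U : Filter ℕ), ∑ i, c' i * y i j = 0 := by
      filter_upwards [hW'] with j hj
      have h3 : φ (fun l => y (f l) j) = 0 := by
        have := hWφ hj
        rwa [LinearMap.mem_ker] at this
      have h4 : φ (fun l => y (f l) j) = ∑ l, y (f l) j * φ (Pi.single l 1) := by
        conv_lhs => rw [← Finset.univ_sum_single (fun l => y (f l) j)]
        rw [map_sum]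
        refine Finset.sum_congr rfl fun l _ => ?_
        have : (Pi.single l (y (f l) j) : Fin r → K) = y (f l) j • Pi.single l 1 := by
          rw [← Pi.single_smul, smul_eq_mul, mul_one]
        rw [this, map_smul, smul_eq_mul]
      have h5 : ∑ i, c' i * y i j = ∑ i ∈ T', c' i * y i j := by
        refine (Finset.sum_subset (Finset.subset_univ T') ?_).symm
        intro i _ hi
        simp only [hc', hi, dif_neg, not_false_iff, zero_mul]
      have h6 : ∑ i ∈ T', c' i * y i j = ∑ l, c' (f l) * y (f l) j := by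
        rw [← Finset.sum_coe_sort T' (fun i => c' i * y i j)]
        exact (Equiv.sum_comp f (fun i : T' => c' i * y i j)).symm
      rw [h5, h6, ← h3, h4]
      refine Finset.sum_congr rfl fun l _ => ?_
      have h7 : c' (f l) = φ (Pi.single l 1) := by
        simp only [hc', hfT l, dif_pos]
        congr 2
        exact f.symm_apply_apply l
      rw [h7, mul_comm]
    have hc'0 : c' = 0 := by
      refine ih (Finset.univ.filter fun i => c' i ≠ 0).card ?_ c'
        ⟨Finset.univ.filter fun i => c' i ≠ 0, rfl, fun i => by simp⟩ hc'sum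
      refine lt_of_le_of_lt (Finset.card_le_card ?_) hcT'
      intro i hi
      rw [Finset.mem_filter] at hi
      by_contra h
      exact hi.2 (by simp only [hc', h, dif_neg, not_false_iff])
    apply hφ
    refine LinearMap.pi_ext' fun l => ?_
    refine LinearMap.ext_ring ?_
    have h7 : c' (f l) = φ (Pi.single l 1) := by
      simp only [hc', hfT l, dif_pos]
      congr 2
      exact f.symm_apply_apply l
    have h8 : c' (f l) = 0 := by rw [hc'0]; rfl
    rw [h7] at h8
    simpa using h8

end SU1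

theorem sunit_indep (U : Ultrafilter ℕ) (S : Finset (FinitePlace K)) {n : ℕ} (y : Fin n → ℕ → K)
    (hy : ∀ i, SUnit U S (y i))
    (hne : ∀ i i', i ≠ i' → ¬ ∃ a : K, ∀ᶠ j in (U : Filter ℕ), y i j = a * y i' j)
    (c : Fin n → K) (hsum : ∀ᶠ j in (U : Filter ℕ), ∑ i, c i * y i j = 0) : c = 0 := by
  classical
  exact SU1.main_ind U S y hy hne (Finset.univ.filter fun i => c i ≠ 0).card c
    ⟨Finset.univ.filter fun i => c i ≠ 0, rfl, fun i => by simp⟩ hsum

end Pool.Agent.Helper26.DMC
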