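import Pool.Agent.Helper26.DMC.SU1

/-! Block DMC-SU2 (about 100 lines): from `sunit_indep`.
Call `i ~ i'` (`i, i' ∈ s`) if `∃ a, ∀ᶠ n, y i n = a * y i' n`: an equivalence relation on `s` (the `y i n` are a.e. nonzero, so `a ≠ 0`
and symmetry holds).  Choose a representative `ρ(i)` of the class of `i`, and the constant `λ_i` with `y i = λ_i y_{ρ(i)}` a.e.
Then `∑_i c_i y_i = ∑_{r representative} (∑_{i ~ r} c_i λ_i) y_r = 0` a.e., the `y_r` are pairwise non-proportional, so by `sunit_indep`
all `b_r = ∑_{i ~ r} c_i λ_i = 0`.  By `hf` the set `{i ∈ s : f i = t}` is a union of classes, so the sum over it is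
`∑ b_r y_r = 0` (over the representatives with `f r = t`). -/

set_option autoImplicit false

namespace Pool.Agent.Helper26.DMC

open NumberField

variable {K : Type*} [Field K] [NumberField K]

theorem sunit_grade (U : Ultrafilter ℕ) (S : Finset (FinitePlace K)) {κ : Type*} (s : Finset κ)
    (y : κ → ℕ → K) (hy : ∀ i ∈ s, SUnit U S (y i)) (c : κ → K)
    (hsum : ∀ᶠ n in (U : Filter ℕ), ∑ i ∈ s, c i * y i n = 0)
    {τ : Type*} [DecidableEq τ] (f : κ → τ)
    (hf : ∀ i ∈ s, ∀ i' ∈ s, (∃ a : K, ∀ᶠ n in (U : Filter ℕ), y i n = a * y i' n) → f i = f i')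
    (t : τ) :
    ∀ᶠ n in (U : Filter ℕ), ∑ i ∈ s.filter (fun i => f i = t), c i * y i n = 0 := by
  classical
  -- the relation of a.e. proportionality
  let r : Setoid s :=
    { r := fun i i' => ∃ a : K, ∀ᶠ n in (U : Filter ℕ), y i n = a * y i' n
      iseqv :=
        { refl := fun i => ⟨1, Filter.Eventually.of_forall fun n => by simp⟩
          symm := by
            rintro i i' ⟨a, ha⟩
            have hne : a ≠ 0 := by
              rintro rfl
              have h := (hy i i.2).and ha
              obtain ⟨n, h1, h2⟩ := h.exists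
              exact h1.1 (by rw [h2, zero_mul])
            refine ⟨a⁻¹, ?_⟩
            filter_upwards [ha] with n hn
            rw [hn, ← mul_assoc, inv_mul_cancel₀ hne, one_mul]
          trans := by
            rintro i i' i'' ⟨a, ha⟩ ⟨b, hb⟩
            refine ⟨a * b, ?_⟩
            filter_upwards [ha, hb] with n h1 h2
            rw [h1, h2, mul_assoc] } }
  letI : Fintype (Quotient r) := Fintype.ofFinite _
  have hρ : ∀ i : s, ∃ a : K, ∀ᶠ n in (U : Filter ℕ),
      y i n = a * y (Quotient.mk r i).out n := fun i =>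
    r.iseqv.symm (Quotient.mk_out (s := r) i)
  choose lam hlam using hρ
  have hlam' : ∀ᶠ n in (U : Filter ℕ), ∀ i : s, y i n = lam i * y (Quotient.mk r i).out n :=
    Filter.eventually_all.2 hlam
  -- the class sums
  let b : Quotient r → K := fun q =>
    ∑ i ∈ Finset.univ.filter (fun i : {x // x ∈ s} => Quotient.mk r i = q), c i.1 * lam i
  have hb : ∀ᶠ n in (U : Filter ℕ), ∑ q : Quotient r, b q * y q.out n = 0 := by
    filter_upwards [hsum, hlam'] with n h1 h2
    rw [← h1, ← Finset.sum_coe_sort s, ← Finset.sum_fiberwise Finset.univ (Quotient.mk r)]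
    refine Finset.sum_congr rfl fun q _ => ?_
    rw [Finset.sum_mul]
    refine Finset.sum_congr rfl fun i hi => ?_
    have hq : Quotient.mk r i = q := (Finset.mem_filter.1 hi).2
    rw [h2 i, hq, mul_assoc]
  let e := Fintype.equivFin (Quotient r)
  have hzero : (fun j => b (e.symm j)) = 0 := by
    refine sunit_indep U S (fun j n => y (e.symm j).out n) (fun j => hy _ (e.symm j).out.2) ?_ _ ?_
    · intro j j' hjj hex
      apply hjj
      apply e.symm.injective
      have h3 : (Quotient.mk r (e.symm j).out) = Quotient.mk r (e.symm j').out :=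
        Quotient.sound (s := r) hex
      rwa [Quotient.out_eq, Quotient.out_eq] at h3
    · filter_upwards [hb] with n hn
      rw [← hn]
      exact Equiv.sum_comp e.symm (fun q => b q * y q.out n)
  have hb0 : ∀ q, b q = 0 := fun q => by
    have := congrFun hzero (e q)
    simpa using this
  filter_upwards [hlam'] with n h2
  have h4 : ∑ i ∈ s.filter (fun i => f i = t), c i * y i n =
      ∑ i ∈ Finset.univ.filter (fun i : {x // x ∈ s} => f i.1 = t), c i.1 * y i.1 n := by
    rw [Finset.sum_filter, Finset.sum_filter, ← Finset.sum_coe_sort s]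
  rw [h4, ← Finset.sum_fiberwise (Finset.univ.filter fun i : {x // x ∈ s} => f i.1 = t)
    (Quotient.mk r)]
  refine Finset.sum_eq_zero fun q _ => ?_
  by_cases hq : f q.out = t
  · have h5 : ((Finset.univ.filter fun i : s => f i = t).filter fun i => Quotient.mk r i = q) =
        Finset.univ.filter fun i : s => Quotient.mk r i = q := by
      ext i
      simp only [Finset.mem_filter, Finset.mem_univ, true_and, and_iff_right_iff_imp]
      intro hi
      rw [← hq, ← hi]
      exact hf _ i.2 _ (Quotient.mk r i).out.2 (r.iseqv.symm (Quotient.mk_out (s := r) i))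
    rw [h5]
    have h6 : ∑ i ∈ Finset.univ.filter (fun i : {x // x ∈ s} => Quotient.mk r i = q),
        c i.1 * y i.1 n = b q * y q.out n := by
      rw [Finset.sum_mul]
      refine Finset.sum_congr rfl fun i hi => ?_
      have hq' : Quotient.mk r i = q := (Finset.mem_filter.1 hi).2
      rw [h2 i, hq', mul_assoc]
    rw [h6, hb0, zero_mul]
  · refine Finset.sum_eq_zero fun i hi => ?_
    exfalso
    simp only [Finset.mem_filter, Finset.mem_univ, true_and] at hi
    apply hq
    rw [← hi.1, ← hi.2]
    exact (hf _ i.2 _ (Quotient.mk r i).out.2 (r.iseqv.symm (Quotient.mk_out (s := r) i))).symm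

end Pool.Agent.Helper26.DMC
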