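import Pool.Agent.Helper26.DMC.Defs

/-! Block DMC-DY (about 150 lines): formal properties of iteration.
`Contr.dvd`: write `F' = bind₁ (iter Φ k) F`; `bind₁ (iter Φ m) F' ≡ bind₁ (fun i => C (β i)) F' = C (eval β F')` modulo `h` (induction on `F'`, or: both algebra homomorphisms agree
modulo the ideal `(h)`), and `eval β F' = eval (Φ^k β) F`.
`Contr.ne_zero`: if `h(Φ^k β) = 0` then by `Contr` (evaluate at `Φ^k β`) `Φ^m(Φ^k β) = β`, against `hβ (m + k)`.
`Dense.tail`: if `P` vanishes at all `x_n`, `n ≥ n₀`, multiply it by nonzero polynomials vanishing at `x_0, ..., x_{n₀-1}` (`X i - C (x_n i)`); the product vanishes on the whole orbit.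
`Dense.injective`: if `F ∘ Φ = 0` then `F(x_{n+1}) = 0` for all `n`; use `tail` with `n₀ = 1`.
`Dense.window`: the product of the `bind₁ (iter Φ j) P`, `j ≤ B`, is nonzero by `injective` (`bind₁ (iter Φ j) = (bind₁ Φ)^j`). -/

set_option autoImplicit false

namespace Pool.Agent.Helper26.DMC

open MvPolynomial

variable {K : Type*} [Field K] {ι : Type*}

theorem eval_iter (Φ : ι → MvPolynomial ι K) (m : ℕ) (x : ι → K) (i : ι) :
    eval x (iter Φ m i) = (pmap Φ)^[m] x i := by
  induction m generalizing i with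
  | zero => simp [iter]
  | succ m ih =>
    have hx : (fun j => eval x (iter Φ m j)) = (pmap Φ)^[m] x := funext ih
    rw [Function.iterate_succ_apply']
    change eval x (bind₁ (iter Φ m) (Φ i)) = eval ((pmap Φ)^[m] x) (Φ i)
    rw [← hx]
    exact eval₂Hom_bind₁ _ _ _ _

theorem eval_bind_iter (Φ : ι → MvPolynomial ι K) (m : ℕ) (x : ι → K) (F : MvPolynomial ι K) :
    eval x (bind₁ (iter Φ m) F) = eval ((pmap Φ)^[m] x) F := by
  have hx : (fun j => eval x (iter Φ m j)) = (pmap Φ)^[m] x := funext (eval_iter Φ m x)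
  rw [← hx]
  exact eval₂Hom_bind₁ _ _ _ _

theorem bind_iter_add (Φ : ι → MvPolynomial ι K) (m k : ℕ) (F : MvPolynomial ι K) :
    bind₁ (iter Φ (m + k)) F = bind₁ (iter Φ m) (bind₁ (iter Φ k) F) := by
  induction k generalizing F with
  | zero =>
    have h0 : bind₁ (iter Φ 0) F = F := by
      change bind₁ (X : ι → MvPolynomial ι K) F = F
      simp
    rw [h0]; rfl
  | succ k ih =>
    rw [bind₁_bind₁]
    have h1 : (fun i => bind₁ (iter Φ m) (iter Φ (k + 1) i)) = iter Φ (m + (k + 1)) := by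
      funext i
      exact (ih (Φ i)).symm
    rw [h1]

theorem bind_iter_succ (Φ : ι → MvPolynomial ι K) (k : ℕ) (F : MvPolynomial ι K) :
    bind₁ (iter Φ (k + 1)) F = bind₁ Φ (bind₁ (iter Φ k) F) := by
  rw [Nat.add_comm k 1, bind_iter_add Φ 1 k F]
  have h1 : iter Φ 1 = Φ := by
    funext i
    change bind₁ (X : ι → MvPolynomial ι K) (Φ i) = Φ i
    simp
  rw [h1]

theorem dvd_bind_sub {h : MvPolynomial ι K} {β : ι → K} {f : ι → MvPolynomial ι K}
    (hf : ∀ i, h ∣ f i - C (β i)) (F : MvPolynomial ι K) :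
    h ∣ bind₁ f F - C (eval β F) := by
  induction F using MvPolynomial.induction_on with
  | C a => simp
  | add p q hp hq =>
    have : bind₁ f (p + q) - C (eval β (p + q)) =
        (bind₁ f p - C (eval β p)) + (bind₁ f q - C (eval β q)) := by
      simp only [map_add]; ring
    rw [this]
    exact dvd_add hp hq
  | mul_X p i hp =>
    have : bind₁ f (p * X i) - C (eval β (p * X i)) =
        bind₁ f p * (f i - C (β i)) + (bind₁ f p - C (eval β p)) * C (β i) := by
      simp only [map_mul, bind₁_X_right, eval_X]; ring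
    rw [this]
    exact dvd_add (Dvd.dvd.mul_left (hf i) _) (Dvd.dvd.mul_right hp _)

/-- `F ∘ Φ^(m+k) ≡ F(Φ^k β)` modulo `h` -/
theorem Contr.dvd {Φ : ι → MvPolynomial ι K} {h : MvPolynomial ι K} {m : ℕ} {β : ι → K}
    (hc : Contr Φ h m β) (k : ℕ) (F : MvPolynomial ι K) :
    h ∣ bind₁ (iter Φ (m + k)) F - C (eval ((pmap Φ)^[k] β) F) := by
  rw [bind_iter_add, ← eval_bind_iter Φ k β F]
  exact dvd_bind_sub hc _

/-- the values of `h` along the orbit of a non-periodic `β` do not vanish -/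
theorem Contr.ne_zero {Φ : ι → MvPolynomial ι K} {h : MvPolynomial ι K} {m : ℕ} {β : ι → K}
    (hc : Contr Φ h m β) (hβ : ∀ p, 0 < p → (pmap Φ)^[p] β ≠ β) (hm : 0 < m) (k : ℕ) :
    eval ((pmap Φ)^[k] β) h ≠ 0 := by
  intro h0
  refine hβ (m + k) (by omega) ?_
  funext i
  obtain ⟨g, hg⟩ := hc i
  have h1 := congrArg (eval ((pmap Φ)^[k] β)) hg
  rw [map_mul, h0, zero_mul, map_sub, eval_iter, eval_C, ← Function.iterate_add_apply] at h1
  exact sub_eq_zero.mp h1

section dense

variable [Infinite K] [Nonempty ι] [Finite ι]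

omit [Infinite K] [Finite ι] in
theorem Dense.tail {Φ : ι → MvPolynomial ι K} {α : ι → K} (hα : Dense Φ α)
    {P : MvPolynomial ι K} (hP : P ≠ 0) (n₀ : ℕ) : ∃ n, n₀ ≤ n ∧ eval ((pmap Φ)^[n] α) P ≠ 0 := by
  by_contra hcon
  have hz : ∀ n, n₀ ≤ n → eval ((pmap Φ)^[n] α) P = 0 := by
    intro n hn
    by_contra h1
    exact hcon ⟨n, hn, h1⟩
  let i₀ : ι := Classical.arbitrary ι
  let Q : MvPolynomial ι K :=
    P * ∏ n ∈ Finset.range n₀, (X i₀ - C ((pmap Φ)^[n] α i₀))
  have hQ : Q ≠ 0 := by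
    refine mul_ne_zero hP (Finset.prod_ne_zero_iff.mpr ?_)
    intro n _ h0
    have h1 := congrArg (eval (fun _ : ι => (pmap Φ)^[n] α i₀ + 1)) h0
    simp at h1
  obtain ⟨n, hn⟩ := hα Q hQ
  apply hn
  change eval ((pmap Φ)^[n] α) (P * ∏ n ∈ Finset.range n₀, (X i₀ - C ((pmap Φ)^[n] α i₀))) = 0
  rw [map_mul]
  by_cases h : n₀ ≤ n
  · rw [hz n h, zero_mul]
  · have h2 : eval ((pmap Φ)^[n] α) (∏ n ∈ Finset.range n₀, (X i₀ - C ((pmap Φ)^[n] α i₀))) = 0 := by
      rw [map_prod]
      refine Finset.prod_eq_zero (Finset.mem_range.mpr (by omega : n < n₀)) ?_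
      simp
    rw [h2, mul_zero]

omit [Infinite K] [Finite ι] in
theorem Dense.injective {Φ : ι → MvPolynomial ι K} {α : ι → K} (hα : Dense Φ α) :
    Function.Injective (bind₁ Φ : MvPolynomial ι K →ₐ[K] MvPolynomial ι K) := by
  rw [injective_iff_map_eq_zero]
  intro F hF
  by_contra h0
  obtain ⟨n, hn, hne⟩ := Dense.tail hα h0 1
  obtain ⟨k, rfl⟩ := Nat.exists_eq_add_of_le' hn
  apply hne
  have h1 : bind₁ (iter Φ 1) F = bind₁ Φ F := by
    have := bind_iter_succ Φ 0 F
    rw [this]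
    have h0 : bind₁ (iter Φ 0) F = F := by
      change bind₁ (X : ι → MvPolynomial ι K) F = F
      simp
    rw [h0]
  have h2 := eval_bind_iter Φ 1 ((pmap Φ)^[k] α) F
  rw [h1, hF, map_zero, ← Function.iterate_add_apply, Nat.add_comm 1 k] at h2
  exact h2.symm

omit [Infinite K] [Finite ι] in
/-- windows of nonvanishing along a dense orbit -/
theorem Dense.window {Φ : ι → MvPolynomial ι K} {α : ι → K} (hα : Dense Φ α)
    {P : MvPolynomial ι K} (hP : P ≠ 0) (B : ℕ) :
    ∃ k, ∀ j, j ≤ B → eval ((pmap Φ)^[k + j] α) P ≠ 0 := by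
  have hj : ∀ j, bind₁ (iter Φ j) P ≠ 0 := by
    intro j
    induction j with
    | zero =>
      change bind₁ (X : ι → MvPolynomial ι K) P ≠ 0
      simpa using hP
    | succ j ih =>
      rw [bind_iter_succ]
      intro h0
      exact ih (Dense.injective hα (by rw [h0, map_zero]))
  have hQ : (∏ j ∈ Finset.range (B + 1), bind₁ (iter Φ j) P) ≠ 0 :=
    Finset.prod_ne_zero_iff.mpr fun j _ => hj j
  obtain ⟨k, hk⟩ := hα _ hQ
  refine ⟨k, fun j hjB => ?_⟩
  rw [map_prod, Finset.prod_ne_zero_iff] at hk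
  have h1 := hk j (Finset.mem_range.mpr (by omega))
  rw [eval_bind_iter, ← Function.iterate_add_apply, Nat.add_comm j k] at h1
  exact h1

end dense

end Pool.Agent.Helper26.DMC
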