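import Mathlib

/-!
# Polynomial self-maps of affine space that contract a hypersurface: definitions
-/

set_option autoImplicit false

namespace Pool.Agent.Helper26.DMC

open MvPolynomial

section dyn

variable {K : Type*} [Field K] {ι : Type*}

/-- The self-map of affine space given by polynomials. -/
noncomputable def pmap (Φ : ι → MvPolynomial ι K) (x : ι → K) : ι → K := fun i => eval x (Φ i)

/-- The coordinates of the `m`-th iterate of the self-map. -/
noncomputable def iter (Φ : ι → MvPolynomial ι K) : ℕ → ι → MvPolynomial ι K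
  | 0 => X
  | m + 1 => fun i => bind₁ (iter Φ m) (Φ i)

/-- The orbit of `α` is Zariski dense. -/
def Dense (Φ : ι → MvPolynomial ι K) (α : ι → K) : Prop :=
  ∀ P : MvPolynomial ι K, P ≠ 0 → ∃ n, eval ((pmap Φ)^[n] α) P ≠ 0

/-- The iterate `Φ^m` is congruent to the point `β` modulo `h`: it contracts the hypersurface
`h = 0` to `β`. -/
def Contr (Φ : ι → MvPolynomial ι K) (h : MvPolynomial ι K) (m : ℕ) (β : ι → K) : Prop :=
  ∀ i, h ∣ iter Φ m i - C (β i)

end dyn

section hom

variable {K : Type*} [Field K] {R : Type*} [CommRing R] [Algebra K R] {κ : Type*}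

/-- The homomorphism `X_j ↦ s_j T^{a_j}` to the Laurent polynomials over `R`. -/
noncomputable def tw (s : κ → R) (a : κ → ℤ) : MvPolynomial κ K →ₐ[K] AddMonoidAlgebra R ℤ :=
  aeval fun j => AddMonoidAlgebra.single (a j) (s j)

variable (K) in
/-- The ideal of the relations of the family `s` is homogeneous for the weights `a`. -/
def HomRel (s : κ → R) (a : κ → ℤ) : Prop :=
  ∀ F : MvPolynomial κ K, aeval s F = 0 → tw s a F = 0

/-- Weight of an exponent. -/
noncomputable def wt (a : κ → ℤ) (w : κ →₀ ℕ) : ℤ := w.sum fun j n => (n : ℤ) * a j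

/-- Homogeneous component of weight `t`. -/
noncomputable def gr (a : κ → ℤ) (t : ℤ) (F : MvPolynomial κ K) : MvPolynomial κ K :=
  ∑ w ∈ F.support.filter (fun w => wt a w = t), monomial w (F.coeff w)

end hom

end Pool.Agent.Helper26.DMC
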