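import Pool.Agent.Helper26.DMC.Defs
import Pool.Agent.Helper86.DML.Embed
import Pool.Agent.Helper87.DMLP.Good

/-! Block DMC-ET: orbits which avoid the critical locus in the strong sense `A(x_n) J(x_n) = 1` for all `n`.

By helper34, with the code of helper86 (embedding, finite algebras over `ℤ_p`) and helper87 (discs, Hansel's lemma, combinatorics).
Proof: `Pool.Agent.Helper86.DML.exists_embedding` gives a prime `p ≥ 3` and an embedding `σ` of `ℂ` into an algebraic closure of `ℚ_p` such that the
coefficients of all `Φ i`, of `A`, and the `α i` become integral over `ℤ_p`.  `O` is the `ℤ_p`-subalgebra generated by the images of these finitely many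
elements (finite free over `ℤ_p`), `R ⊂ ℂ` its preimage; `x_n ∈ R^N` for all `n`.  The residue ring `O/pO` is finite, so the orbit is eventually periodic
modulo `p`; on the cycle the Jacobian matrices are invertible, so `Φ^L(x_n + p X) = x_n + p ψ(X)` with `ψ` the identity modulo `p`, and `k ↦ G(Φ^{L k} x_n)` is
`p`-adic analytic. -/

set_option autoImplicit false

namespace Pool.Agent.Helper26.DMC

open MvPolynomial

/-- The Jacobian determinant. -/
noncomputable def jac {K : Type*} [Field K] {N : ℕ} (Φ : Fin N → MvPolynomial (Fin N) K) :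
    MvPolynomial (Fin N) K := (Matrix.of fun i j => pderiv j (Φ i)).det

namespace ET

open Pool.Agent.Helper87.DMLP (evalMap AffInv polyIter disc_iter map_polyIter interp jacMod
  FinOrAll evalMap_polyIter complex_zero_iff eval_disc iterate_periodic)

variable {σ : Type} [Fintype σ] [DecidableEq σ]

theorem map_eval' {κ R Ω : Type*} [CommRing R] [CommRing Ω] (c : R →+* Ω) (x : κ → R)
    (F : MvPolynomial κ R) : c (eval x F) = eval (c ∘ x) (map c F) := by
  rw [MvPolynomial.eval_map, ← MvPolynomial.eval₂_comp]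

/-- exponent killing all invertible affine maps over a finite ring in which `p = 0` -/
noncomputable def ex (σ : Type) [Fintype σ] [DecidableEq σ] (k : Type) [CommRing k] (p : ℕ) : ℕ :=
  Nat.card (Matrix σ σ k)ˣ * p

theorem ex_pos (k : Type) [CommRing k] [Finite k] (p : ℕ) (hp : 0 < p) : 0 < ex σ k p :=
  Nat.mul_pos Nat.card_pos hp

theorem polyIter_ex {R k : Type} [CommRing R] [CommRing k] [Finite k] {π : R →+* k} {p : ℕ}
    (hp : (p : k) = 0) {h : σ → MvPolynomial σ R} (H : AffInv π h) :
    ∀ i, map π (polyIter h (ex σ k p) i) = X i := by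
  obtain ⟨A, b, hA, hh⟩ := H
  intro i
  rw [map_polyIter hh]
  obtain ⟨u, rfl⟩ := hA
  set g := Nat.card (Matrix σ σ k)ˣ with hg
  have hug : (u : Matrix σ σ k) ^ g = 1 := by
    rw [← Units.val_pow_eq_pow_val, hg, pow_card_eq_one']; rfl
  have h1 : (u : Matrix σ σ k) ^ (ex σ k p) = 1 := by
    rw [ex, ← hg, pow_mul, hug, one_pow]
  have h2 : ∀ q : ℕ, ∑ l ∈ Finset.range (g * q), ((u : Matrix σ σ k) ^ l).mulVec b =
      q • ∑ l ∈ Finset.range g, ((u : Matrix σ σ k) ^ l).mulVec b := by
    intro q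
    induction q with
    | zero => simp
    | succ q ih =>
      rw [Nat.mul_succ, Finset.sum_range_add, ih, succ_nsmul]
      congr 1
      apply Finset.sum_congr rfl
      intro l _
      rw [pow_add, pow_mul, hug, one_pow, one_mul]
  have h3 : ∑ l ∈ Finset.range (ex σ k p), ((u : Matrix σ σ k) ^ l).mulVec b = 0 := by
    rw [ex, ← hg, h2 p]
    funext i
    rw [Pi.smul_apply, Pi.zero_apply, nsmul_eq_mul, hp, zero_mul]
  rw [h1, h3]
  simp [Matrix.one_apply]

/-- Along a cycle modulo `p` avoiding the critical locus, the orbit is given by iterating a polynomial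
map congruent to the identity. -/
theorem cycle {R k : Type} [CommRing R] [CommRing k] [Finite k] {p : ℕ} {π : R →+* k}
    (hp : (p : k) = 0) (ϖ : R) (hπ : ∀ r, π r = 0 ↔ ϖ ∣ r) (Φ : σ → MvPolynomial σ R) (L : ℕ)
    (x : σ → R) (hJ : ∀ m < L, IsUnit (jacMod π Φ ((evalMap Φ)^[m] x)))
    (hcyc : ∀ i, π ((evalMap Φ)^[L] x i) = π (x i)) :
    ∃ ψ : σ → MvPolynomial σ R, (∀ i, map π (ψ i) = X i) ∧
      ∀ n : ℕ, (evalMap Φ)^[L * ex σ k p * n] x =
        fun i => x i + ϖ * (evalMap ψ)^[n] 0 i := by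
  obtain ⟨h, hh, hy⟩ := disc_iter ϖ ((hπ ϖ).mpr dvd_rfl) Φ L x hJ
  have hw : ∀ i, ∃ w : R, (evalMap Φ)^[L] x i = x i + ϖ * w := by
    intro i
    have : π ((evalMap Φ)^[L] x i - x i) = 0 := by rw [map_sub, hcyc i, sub_self]
    obtain ⟨w, hw⟩ := (hπ _).mp this
    exact ⟨w, by rw [← hw]; ring⟩
  choose w hw using hw
  have hh' := hh.add_const w
  set h' : σ → MvPolynomial σ R := fun i => C (w i) + h i with hh'def
  have hs1 : Function.Semiconj (fun (y : σ → R) => (fun i => x i + ϖ * y i)) (evalMap h')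
      ((evalMap Φ)^[L]) := by
    intro y
    rw [hy y]
    funext i
    rw [hw i]
    simp [evalMap, hh'def]
    ring
  refine ⟨polyIter h' (ex σ k p), polyIter_ex hp hh', fun n => ?_⟩
  have hs2 := hs1.iterate_right (ex σ k p)
  have hs3 : Function.Semiconj (fun (y : σ → R) => (fun i => x i + ϖ * y i))
      (evalMap (polyIter h' (ex σ k p))) ((evalMap Φ)^[L * ex σ k p]) := by
    have h1 : evalMap (polyIter h' (ex σ k p)) = (evalMap h')^[ex σ k p] :=
      funext (evalMap_polyIter h' (ex σ k p))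
    rw [h1, Function.iterate_mul]
    exact hs2
  have hs4 := (hs3.iterate_right n) 0
  simp only [Pi.zero_apply, mul_zero, add_zero] at hs4
  rw [Function.iterate_mul]
  exact hs4.symm

section padic

variable {p : ℕ} [hp : Fact p.Prime] {O : Type} [CommRing O] [Algebra ℤ_[p] O]
  [Module.Finite ℤ_[p] O] [Module.Free ℤ_[p] O]

omit [Fintype σ] [DecidableEq σ] [Module.Finite ℤ_[p] O] in
/-- The dichotomy for iterates of a polynomial map congruent to the identity. -/
theorem zeros (hp3 : 3 ≤ p) (ψ : σ → MvPolynomial σ O)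
    (hψ : ∀ i, map (Ideal.Quotient.mk (Ideal.span {(p : O)})) (ψ i) = X i) (G : MvPolynomial σ O)
    (y : σ → O) : {k : ℕ | eval ((evalMap ψ)^[k] y) G = 0}.Finite ∨
      ∀ k, eval ((evalMap ψ)^[k] y) G = 0 := by
  classical
  have hπ : ∀ r : O, Ideal.Quotient.mk (Ideal.span {(p : O)}) r = 0 ↔ (p : O) ∣ r := by
    intro r
    rw [Ideal.Quotient.eq_zero_iff_mem, Ideal.mem_span_singleton]
  obtain ⟨d, hd⟩ := interp (Ideal.Quotient.mk (Ideal.span {(p : O)})) (p : O) hπ ψ hψ G y
  let b := Module.Free.chooseBasis ℤ_[p] O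
  have hco : ∀ j n, b.repr (eval ((evalMap ψ)^[n] y) G) j =
      ∑ i ∈ Finset.range (n + 1), (n.choose i : ℤ_[p]) * (p : ℤ_[p]) ^ i * b.repr (d i) j := by
    intro j n
    rw [hd n, map_sum, Finsupp.finsetSum_apply]
    apply Finset.sum_congr rfl
    intro i _
    have : ((n.choose i : ℕ) : O) * (p : O) ^ i * d i =
        ((n.choose i : ℤ_[p]) * (p : ℤ_[p]) ^ i) • d i := by
      rw [Algebra.smul_def, map_mul, map_pow, map_natCast, map_natCast]
    rw [this, map_smul, Finsupp.smul_apply, smul_eq_mul]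
  by_cases h : {k : ℕ | eval ((evalMap ψ)^[k] y) G = 0}.Finite
  · exact Or.inl h
  · right
    intro k
    apply b.repr.injective
    ext j
    have hinf : {n | b.repr (eval ((evalMap ψ)^[n] y) G) j = 0}.Infinite := by
      refine Set.Infinite.mono ?_ h
      intro n hn
      have hn' : eval ((evalMap ψ)^[n] y) G = 0 := hn
      show b.repr (eval ((evalMap ψ)^[n] y) G) j = 0
      rw [hn', map_zero, Finsupp.zero_apply]
    have := Pool.Agent.Helper87.DMLP.hansel p hp3 (fun i => b.repr (d i) j)
      (fun n => b.repr (eval ((evalMap ψ)^[n] y) G) j) (hco j) hinf k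
    rw [this, map_zero, Finsupp.zero_apply]

/-- Over a finite free algebra: orbits avoiding the critical locus. -/
theorem orbit (hp3 : 3 ≤ p) (Φ : σ → MvPolynomial σ O) (y : σ → O)
    (hJ : ∀ n, IsUnit (eval ((evalMap Φ)^[n] y) (Matrix.of fun i j => pderiv j (Φ i)).det)) :
    ∃ n₀ L, 0 < L ∧ ∀ G : MvPolynomial σ O,
      FinOrAll {n | eval ((evalMap Φ)^[n] y) G = 0} n₀ L := by
  classical
  set π := Ideal.Quotient.mk (Ideal.span {(p : O)}) with hπdef
  have hfin : Finite (O ⧸ Ideal.span {(p : O)}) := Pool.Agent.Helper86.DML.finite_quotient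
  have hπ : ∀ r : O, π r = 0 ↔ (p : O) ∣ r := by
    intro r
    rw [hπdef, Ideal.Quotient.eq_zero_iff_mem, Ideal.mem_span_singleton]
  have := Fintype.ofFinite (O ⧸ Ideal.span {(p : O)})
  have hpk : ((p : ℕ) : O ⧸ Ideal.span {(p : O)}) = 0 := by
    have := (hπ (p : O)).mpr dvd_rfl
    rwa [map_natCast] at this
  -- the reduction of the map
  let f : (σ → O ⧸ Ideal.span {(p : O)}) → (σ → O ⧸ Ideal.span {(p : O)}) :=
    fun z i => eval z (map π (Φ i))
  have hf : ∀ n (x : σ → O), f^[n] (fun i => π (x i)) = fun i => π ((evalMap Φ)^[n] x i) := by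
    intro n
    induction n with
    | zero => intro x; rfl
    | succ n ih =>
      intro x
      rw [Function.iterate_succ_apply', Function.iterate_succ_apply', ih]
      funext i
      show eval _ (map π (Φ i)) = π (eval _ (Φ i))
      rw [ET.map_eval']
      rfl
  set M := Fintype.card (σ → O ⧸ Ideal.span {(p : O)}) with hM
  refine ⟨M, M.factorial * ex σ (O ⧸ Ideal.span {(p : O)}) p,
    Nat.mul_pos (Nat.factorial_pos _) (ex_pos _ p hp.out.pos), fun G n hn => ?_⟩
  set x := (evalMap Φ)^[n] y with hx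
  have hper : ∀ i, π ((evalMap Φ)^[M.factorial] x i) = π (x i) := by
    intro i
    have h1 := (iterate_periodic f (fun i => π (y i)) n hn).2
    rw [add_comm, hf, hf] at h1
    have h2 := congrFun h1 i
    rw [hx, ← Function.iterate_add_apply]
    exact h2
  have hunit : ∀ m < M.factorial, IsUnit (jacMod π Φ ((evalMap Φ)^[m] x)) := by
    intro m _
    rw [Matrix.isUnit_iff_isUnit_det]
    have h1 := (hJ (m + n)).map π
    rw [Function.iterate_add_apply, ← hx] at h1
    convert h1 using 1
    rw [RingHom.map_det, RingHom.map_det]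
    rfl
  obtain ⟨ψ, hψ, hk⟩ := cycle hpk (p : O) hπ Φ M.factorial x hunit hper
  have hmem : ∀ k, (eval ((evalMap Φ)^[n + M.factorial * ex σ (O ⧸ Ideal.span {(p : O)}) p * k] y)
      G = 0) ↔
      (eval ((evalMap ψ)^[k] 0) (bind₁ (fun j => C (x j) + C (p : O) * X j) G) = 0) := by
    intro k
    rw [add_comm n, Function.iterate_add_apply, ← hx, hk k, eval_disc]
  rcases zeros hp3 ψ hψ (bind₁ (fun j => C (x j) + C (p : O) * X j) G) 0 with h1 | h1
  · left
    refine h1.subset ?_
    intro k hk
    exact (hmem k).mp hk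
  · right
    intro k
    exact (hmem k).mpr (h1 k)

end padic

end ET

open Pool.Agent.Helper87.DMLP (evalMap FinOrAll complex_zero_iff) in
theorem etale {N : ℕ} (Φ : Fin N → MvPolynomial (Fin N) ℂ) (α : Fin N → ℂ)
    (A : MvPolynomial (Fin N) ℂ)
    (hA : ∀ n, eval ((pmap Φ)^[n] α) A * eval ((pmap Φ)^[n] α) (jac Φ) = 1) :
    ∃ L : ℕ, 0 < L ∧ ∀ V : Set (MvPolynomial (Fin N) ℂ), ∃ E A : Finset ℕ,
      {n | ∀ F ∈ V, eval ((pmap Φ)^[n] α) F = 0} =
        {n : ℕ | n ∈ E ∨ ∃ a ∈ A, ∃ k : ℕ, n = a + L * k} := by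
  classical
  -- the embedding
  let S : Finset ℂ := (Finset.univ.biUnion fun i => (Φ i).coeffs) ∪ A.coeffs ∪
    Finset.univ.image α
  obtain ⟨p, hp, τ, hp3, hτ⟩ := Pool.Agent.Helper86.DML.exists_embedding S
  let O : Subalgebra ℤ_[p] (AlgebraicClosure ℚ_[p]) := Algebra.adjoin ℤ_[p] (τ '' (S : Set ℂ))
  have hfin : Module.Finite ℤ_[p] O := by
    have h1 : (Subalgebra.toSubmodule O).FG := by
      apply fg_adjoin_of_finite (S.finite_toSet.image _)
      rintro _ ⟨z, hz, rfl⟩
      exact hτ z hz
    exact Module.Finite.iff_fg.mpr h1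
  have hinj3 : Function.Injective (algebraMap ℤ_[p] (AlgebraicClosure ℚ_[p])) := by
    rw [IsScalarTower.algebraMap_eq ℤ_[p] ℚ_[p] (AlgebraicClosure ℚ_[p])]
    exact (algebraMap ℚ_[p] (AlgebraicClosure ℚ_[p])).injective.comp
      (IsFractionRing.injective ℤ_[p] ℚ_[p])
  have htf : Module.IsTorsionFree ℤ_[p] O := by
    have : FaithfulSMul ℤ_[p] O := by
      rw [faithfulSMul_iff_algebraMap_injective]
      intro a b hab
      exact hinj3 (congrArg Subtype.val hab)
    infer_instance
  have hfree : Module.Free ℤ_[p] O := inferInstance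
  -- the ring of definition
  let R : Subring ℂ := O.toSubring.comap τ
  have hSR : ∀ z ∈ S, z ∈ R := fun z hz => Algebra.subset_adjoin ⟨z, hz, rfl⟩
  let ι : R →+* O := (τ.comp R.subtype).codRestrict O.toSubring (fun z => z.2)
  have hι : Function.Injective ι := by
    intro a b hab
    have h1 : τ (a : ℂ) = τ (b : ℂ) := congrArg Subtype.val hab
    exact Subtype.ext (τ.injective h1)
  have hlift : ∀ F : MvPolynomial (Fin N) ℂ, F.coeffs ⊆ S → ∃ F' : MvPolynomial (Fin N) R,
      map R.subtype F' = F := by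
    intro F hF
    have : F ∈ Set.range (MvPolynomial.map (σ := Fin N) R.subtype) := by
      rw [mem_range_map_iff_coeffs_subset]
      intro z hz
      exact ⟨⟨z, hSR z (hF hz)⟩, rfl⟩
    exact this
  have hliftΦ : ∀ i, ∃ F' : MvPolynomial (Fin N) R, map R.subtype F' = Φ i := by
    intro i
    apply hlift
    intro z hz
    refine Finset.mem_union_left _ (Finset.mem_union_left _ ?_)
    exact Finset.mem_biUnion.mpr ⟨i, Finset.mem_univ _, hz⟩
  choose Φ' hΦ' using hliftΦ
  obtain ⟨A', hA'⟩ := hlift A (by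
    intro z hz
    exact Finset.mem_union_left _ (Finset.mem_union_right _ hz))
  let α' : Fin N → R := fun i => ⟨α i, hSR _ (Finset.mem_union_right _
    (Finset.mem_image_of_mem _ (Finset.mem_univ _)))⟩
  -- the orbits
  have horb : ∀ n, (pmap Φ)^[n] α = fun i => (((evalMap Φ')^[n] α' i : R) : ℂ) := by
    intro n
    induction n with
    | zero => rfl
    | succ n ih =>
      rw [Function.iterate_succ_apply', Function.iterate_succ_apply', ih]
      funext i
      show eval _ (Φ i) = R.subtype (eval _ (Φ' i))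
      rw [ET.map_eval', hΦ']
      rfl
  have horb' : ∀ n, (evalMap (fun i => map ι (Φ' i)))^[n] (fun i => ι (α' i)) =
      fun i => ι ((evalMap Φ')^[n] α' i) := by
    intro n
    induction n with
    | zero => rfl
    | succ n ih =>
      rw [Function.iterate_succ_apply', Function.iterate_succ_apply', ih]
      funext i
      show eval _ (map ι (Φ' i)) = ι (eval _ (Φ' i))
      rw [ET.map_eval']
      rfl
  -- the Jacobian
  have hjac : jac Φ = map R.subtype (Matrix.of fun i j => pderiv j (Φ' i)).det := by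
    rw [jac, RingHom.map_det]
    congr 1
    ext i j : 2
    rw [Matrix.of_apply, RingHom.mapMatrix_apply, Matrix.map_apply, Matrix.of_apply, ← hΦ' i,
      pderiv_map]
  have hjac' : (Matrix.of fun i j => pderiv j (map ι (Φ' i))).det =
      map ι (Matrix.of fun i j => pderiv j (Φ' i)).det := by
    rw [RingHom.map_det]
    congr 1
    ext i j : 2
    rw [Matrix.of_apply, RingHom.mapMatrix_apply, Matrix.map_apply, Matrix.of_apply, pderiv_map]
  have hev : ∀ (n : ℕ) (P : MvPolynomial (Fin N) R),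
      eval (fun i => (((evalMap Φ')^[n] α' i : R) : ℂ)) (map R.subtype P) =
        ((eval ((evalMap Φ')^[n] α') P : R) : ℂ) := by
    intro n P
    have := ET.map_eval' R.subtype ((evalMap Φ')^[n] α') P
    exact this.symm
  have hev' : ∀ (n : ℕ) (P : MvPolynomial (Fin N) R),
      eval (fun i => ι ((evalMap Φ')^[n] α' i)) (map ι P) =
        ι (eval ((evalMap Φ')^[n] α') P) := by
    intro n P
    have := ET.map_eval' ι ((evalMap Φ')^[n] α') P
    exact this.symm
  have hunit : ∀ n, IsUnit (eval ((evalMap (fun i => map ι (Φ' i)))^[n] (fun i => ι (α' i)))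
      (Matrix.of fun i j => pderiv j (map ι (Φ' i))).det) := by
    intro n
    have h1 := hA n
    rw [horb, ← hA', hjac, hev, hev] at h1
    have h2 : (eval ((evalMap Φ')^[n] α') A' : R) *
        eval ((evalMap Φ')^[n] α') (Matrix.of fun i j => pderiv j (Φ' i)).det = 1 :=
      Subtype.ext h1
    have h3 := congrArg ι h2
    rw [map_mul, map_one] at h3
    rw [horb', hjac', hev']
    exact IsUnit.of_mul_eq_one_right _ h3
  obtain ⟨n₀, L, hL, hmain⟩ := ET.orbit hp3 (fun i => map ι (Φ' i)) (fun i => ι (α' i)) hunit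
  refine ⟨L, hL, fun V => ?_⟩
  apply FinOrAll.explicit hL
  have h1 : {n | ∀ F ∈ V, eval ((pmap Φ)^[n] α) F = 0} =
      ⋂ F : V, {n | eval ((pmap Φ)^[n] α) F.1 = 0} := by
    ext n
    simp
  rw [h1]
  apply FinOrAll.inter
  intro F
  obtain ⟨κ, H, hH⟩ := complex_zero_iff R F.1
  have h2 : {n | eval ((pmap Φ)^[n] α) F.1 = 0} =
      ⋂ j, {n | eval ((evalMap (fun i => map ι (Φ' i)))^[n] (fun i => ι (α' i))) (map ι (H j)) = 0} := by
    ext n
    simp only [Set.mem_ofPred_eq, Set.mem_iInter]
    rw [horb, hH]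
    apply forall_congr'
    intro j
    rw [horb', hev']
    constructor
    · intro h; rw [h, map_zero]
    · intro h; exact hι (by rw [h, map_zero])
  rw [h2]
  apply FinOrAll.inter
  intro j
  exact hmain (map ι (H j))

end Pool.Agent.Helper26.DMC
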