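import Pool.Agent.Helper26.DMC.ET

/-! Block DMC-EX (by helper68): the example `(x, y, z) ↦ (1 + x y, x z, x)`.
`Ex_dense`: the orbit of `(1, 0, 0)` is `(s_n, s_{n-1} s_{n-2}, s_{n-1})` with natural numbers `s_{n+1} = 1 + s_n s_{n-1} s_{n-2}` (from `n ≥ 2` on; `s = 1, 1, 1, 2, 3, 7, 43, 904, ...`).
Let `P ≠ 0` vanish on the orbit.  Apply a `ℚ`-linear map `K → ℚ` which is nonzero on a coefficient of `P`: we may assume that `P` has rational coefficients.
`L_n = log s_n` satisfies `L_{n+1} = L_n + L_{n-1} + L_{n-2} + ε_n`, `0 ≤ ε_n ≤ 1 / (s_n s_{n-1} s_{n-2})`, `L_n → ∞`; the quotient `L_{n+1} / L_n` tends to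
the real root `λ > 1` of `λ^3 = λ^2 + λ + 1`: with `μ_n = L_{n+1} - λ L_n` one has `μ_{n+1} = -(λ-1) μ_n - (1/λ) μ_{n-1} + ε_n` (because `t^3 - t^2 - t - 1 = (t - λ)(t^2 + (λ-1) t + 1/λ)`, and
the roots of the quadratic factor have absolute value `< 1`), so `μ_n` is bounded (e.g. by a quadratic Lyapunov function), while `L_n → ∞`.
The monomial `x^i y^j z^k` at the `n`-th point has logarithm `i L_n + (j + k) L_{n-1} + j L_{n-2} = (i λ^2 + (j + k) λ + j) L_{n-2} + O(1)`.  `1, λ, λ^2` are linearly independent over `ℚ` (the cubic has no rational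
root), so the numbers `i λ^2 + (j + k) λ + j` are different for different `(i, j, k)`; the monomial of `P` with the largest one dominates all the others for large `n`: `P ≠ 0` there, contradiction. -/

set_option autoImplicit false

namespace Pool.Agent.Helper26.DMC.EX

open Filter Topology

/-- the sequence `1, 1, 1, 2, 3, 7, 43, ...` -/
def sq : ℕ → ℕ
  | 0 => 1
  | 1 => 1
  | 2 => 1
  | (n + 3) => 1 + sq (n + 2) * sq (n + 1) * sq n

lemma sq_pos (n : ℕ) : 0 < sq n := by
  match n with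
  | 0 => simp [sq]
  | 1 => simp [sq]
  | 2 => simp [sq]
  | (n + 3) => simp only [sq]; omega

/-- the logarithm of the sequence -/
noncomputable def L (n : ℕ) : ℝ := Real.log (sq n)

lemma L_rec (n : ℕ) : ∃ ε : ℝ, 0 ≤ ε ∧ ε ≤ 1 ∧ L (n + 3) = L (n + 2) + L (n + 1) + L n + ε := by
  have h2 : (0:ℝ) < sq (n + 2) := by exact_mod_cast sq_pos _
  have h1 : (0:ℝ) < sq (n + 1) := by exact_mod_cast sq_pos _
  have h0 : (0:ℝ) < sq n := by exact_mod_cast sq_pos _
  have g : (1:ℝ) ≤ (sq (n + 2) : ℝ) * sq (n + 1) * sq n := by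
    have h := Nat.mul_pos (Nat.mul_pos (sq_pos (n + 2)) (sq_pos (n + 1))) (sq_pos n)
    exact_mod_cast h
  have e : L (n + 2) + L (n + 1) + L n = Real.log ((sq (n + 2) : ℝ) * sq (n + 1) * sq n) := by
    unfold L
    rw [Real.log_mul (by positivity) (by positivity), Real.log_mul (by positivity) (by positivity)]
  have e3 : L (n + 3) = Real.log (1 + (sq (n + 2) : ℝ) * sq (n + 1) * sq n) := by
    unfold L
    simp only [sq]
    push_cast
    rfl
  refine ⟨L (n + 3) - (L (n + 2) + L (n + 1) + L n), ?_, ?_, by ring⟩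
  · rw [e, e3]
    have := Real.log_le_log (by linarith : (0:ℝ) < (sq (n + 2) : ℝ) * sq (n + 1) * sq n)
      (by linarith : (sq (n + 2) : ℝ) * sq (n + 1) * sq n ≤ 1 + (sq (n + 2) : ℝ) * sq (n + 1) * sq n)
    linarith
  · rw [e, e3]
    have h3 : Real.log (1 + (sq (n + 2) : ℝ) * sq (n + 1) * sq n)
        ≤ Real.log (2 * ((sq (n + 2) : ℝ) * sq (n + 1) * sq n)) :=
      Real.log_le_log (by linarith) (by linarith)
    rw [Real.log_mul (by norm_num) (by linarith)] at h3
    have := Real.log_two_lt_d9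
    linarith

lemma L_nonneg (n : ℕ) : 0 ≤ L n := by
  unfold L
  apply Real.log_nonneg
  have := sq_pos n
  exact_mod_cast this

lemma L_large (n : ℕ) : (1 / 10 : ℝ) * (8 / 5) ^ (n + 3) ≤ L (n + 3) := by
  have h2 := Real.log_two_gt_d9
  induction n using Nat.strong_induction_on with
  | _ n ih =>
    match n with
    | 0 =>
      have : L 3 = Real.log 2 := by simp [L, sq]
      rw [this]; norm_num; linarith
    | 1 =>
      have : L 4 = Real.log 3 := by simp [L, sq]
      rw [this]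
      have h3 : Real.log 2 ≤ Real.log 3 := Real.log_le_log (by norm_num) (by norm_num)
      norm_num; linarith
    | 2 =>
      have : L 5 = Real.log 7 := by simp [L, sq]
      rw [this]
      have h3 : Real.log (2 ^ 2) ≤ Real.log 7 := Real.log_le_log (by norm_num) (by norm_num)
      rw [Real.log_pow] at h3
      push_cast at h3
      norm_num; linarith
    | (n + 3) =>
      obtain ⟨ε, he, _, h⟩ := L_rec (n + 3)
      have a0 := ih n (by omega)
      have a1 := ih (n + 1) (by omega)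
      have a2 := ih (n + 2) (by omega)
      rw [show n + 3 + 3 = n + 6 by ring] at *
      rw [h, show n + 3 + 2 = n + 5 by ring, show n + 3 + 1 = n + 4 by ring]
      rw [show n + 1 + 3 = n + 4 by ring] at a1
      rw [show n + 2 + 3 = n + 5 by ring] at a2
      have hp : (0:ℝ) < (8 / 5) ^ n := by positivity
      rw [pow_add] at a0 a1 a2 ⊢
      norm_num at a0 a1 a2 ⊢
      nlinarith

lemma no_rat (r : ℚ) : r ^ 3 ≠ r ^ 2 + r + 1 := by
  intro h
  have hi : IsIntegral ℤ r := by
    refine ⟨Polynomial.X ^ 3 - (Polynomial.X ^ 2 + Polynomial.X + 1), ?_, ?_⟩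
    · have : (Polynomial.X ^ 2 + Polynomial.X + 1 : Polynomial ℤ).degree < 3 := by
        compute_degree!
      exact Polynomial.monic_X_pow_sub this
    · simp only [Polynomial.eval₂_sub, Polynomial.eval₂_add, Polynomial.eval₂_pow,
        Polynomial.eval₂_X, Polynomial.eval₂_one]
      linarith
  obtain ⟨m, hm⟩ := IsIntegrallyClosed.isIntegral_iff.mp hi
  have hm' : (m : ℚ) = r := by simpa using hm
  rw [← hm'] at h
  have h' : m ^ 3 = m ^ 2 + m + 1 := by exact_mod_cast h
  have h1 : m ≤ 1 := by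
    by_contra hc
    push Not at hc
    nlinarith [mul_self_nonneg (m - 2), mul_nonneg (show 0 ≤ m - 2 by omega) (mul_self_nonneg m)]
  have h2 : 0 ≤ m := by
    by_contra hc
    push Not at hc
    nlinarith [mul_self_nonneg (m - 1), mul_nonneg (show 0 ≤ -1 - m by omega) (mul_self_nonneg (m - 1))]
  interval_cases m <;> omega

/-- the tribonacci constant -/
lemma exists_lam : ∃ l : ℝ, 9 / 5 ≤ l ∧ l ≤ 19 / 10 ∧ l ^ 3 = l ^ 2 + l + 1 := by
  have hc : ContinuousOn (fun t : ℝ => t ^ 3 - (t ^ 2 + t + 1)) (Set.Icc (9 / 5) (19 / 10)) := by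
    fun_prop
  have h := intermediate_value_Icc (by norm_num : (9 / 5 : ℝ) ≤ 19 / 10) hc
  have h0 : (0:ℝ) ∈ Set.Icc ((fun t : ℝ => t ^ 3 - (t ^ 2 + t + 1)) (9 / 5))
      ((fun t : ℝ => t ^ 3 - (t ^ 2 + t + 1)) (19 / 10)) := by
    constructor <;> norm_num
  obtain ⟨l, hl, hl'⟩ := h h0
  exact ⟨l, hl.1, hl.2, by simp only at hl'; linarith⟩

lemma indep {l : ℝ} (hl : l ^ 3 = l ^ 2 + l + 1) {a b c : ℤ}
    (h : (a : ℝ) * l ^ 2 + b * l + c = 0) : a = 0 ∧ b = 0 ∧ c = 0 := by
  have hirr : ∀ p q : ℤ, (p : ℝ) * l + q = 0 → p = 0 := by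
    intro p q hpq
    by_contra hp
    have hp' : (p : ℝ) ≠ 0 := by exact_mod_cast hp
    have e : l = ((-q / p : ℚ) : ℝ) := by
      push_cast
      field_simp
      linarith
    rw [e] at hl
    exact no_rat (-q / p) (by exact_mod_cast hl)
  have h2 : ((b * (a + b) - a * (a + c) : ℤ) : ℝ) * l + ((c * (a + b) - a ^ 2 : ℤ) : ℝ) = 0 := by
    push_cast
    linear_combination (-(l : ℝ) * a + a + b) * h + (a : ℝ) ^ 2 * hl
  have h3 := hirr _ _ h2
  have ha : a = 0 := by
    by_contra ha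
    have ha' : (a : ℚ) ≠ 0 := by exact_mod_cast ha
    rw [h3] at h2
    have h4 : c * (a + b) - a ^ 2 = 0 := by
      have : ((c * (a + b) - a ^ 2 : ℤ) : ℝ) = 0 := by simpa using h2
      exact_mod_cast this
    have h3' : (b : ℚ) * (a + b) = a * (a + c) := by
      have : ((b * (a + b) - a * (a + c) : ℤ) : ℚ) = 0 := by rw [h3]; simp
      push_cast at this; linarith
    have h4' : (c : ℚ) * (a + b) = a ^ 2 := by
      have : ((c * (a + b) - a ^ 2 : ℤ) : ℚ) = 0 := by rw [h4]; simp
      push_cast at this; linarith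
    refine no_rat ((a + b) / a) ?_
    field_simp
    linear_combination (a : ℚ) * h4' + (a : ℚ) * h3' + (b : ℚ) * h3'
  subst ha
  have hb : b = 0 := hirr b c (by simpa using h)
  subst hb
  refine ⟨rfl, rfl, ?_⟩
  have : (c : ℝ) = 0 := by simpa using h
  exact_mod_cast this


/-- deviation -/
lemma mu_bound {l : ℝ} (h1 : 9 / 5 ≤ l) (h2 : l ≤ 19 / 10) (hl : l ^ 3 = l ^ 2 + l + 1) (n : ℕ) :
    |L (n + 1) - l * L n| ≤ 3 * (3 / 2) ^ n := by
  have hl0 : 0 < l := by linarith
  have L0 : L 0 = 0 := by simp [L, sq]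
  have L1 : L 1 = 0 := by simp [L, sq]
  have L2 : L 2 = 0 := by simp [L, sq]
  induction n using Nat.strong_induction_on with
  | _ n ih =>
    match n with
    | 0 => rw [L0, L1]; norm_num
    | 1 => rw [L1, L2]; norm_num
    | (n + 2) =>
      obtain ⟨ε, he0, he1, h⟩ := L_rec n
      have a0 := ih n (by omega)
      have a1 := ih (n + 1) (by omega)
      rw [show n + 1 + 1 = n + 2 by ring] at a1
      rw [show n + 2 + 1 = n + 3 by ring]
      have hp : (1:ℝ) ≤ (3 / 2) ^ n := one_le_pow₀ (by norm_num)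
      have e : L (n + 3) - l * L (n + 2) = -((l - 1) * (L (n + 2) - l * L (n + 1)))
          - (1 / l) * (L (n + 1) - l * L n) + ε := by
        rw [h]
        have : l ≠ 0 := hl0.ne'
        field_simp
        linear_combination (-L (n + 1)) * hl
      have h1l : 1 / l ≤ 5 / 9 := by
        rw [div_le_div_iff₀ hl0 (by norm_num)]; linarith
      have h1l0 : 0 ≤ 1 / l := by positivity
      rw [pow_add] at a1 ⊢
      norm_num at a1 ⊢
      have b1 : |(l - 1) * (L (n + 2) - l * L (n + 1))| ≤ (9 / 10) * (3 * ((3 / 2) ^ n * (3 / 2))) := by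
        rw [abs_mul, abs_of_nonneg (by linarith : 0 ≤ l - 1)]
        exact mul_le_mul (by linarith) a1 (abs_nonneg _) (by norm_num)
      have b0 : |(1 / l) * (L (n + 1) - l * L n)| ≤ (5 / 9) * (3 * (3 / 2) ^ n) := by
        rw [abs_mul, abs_of_nonneg h1l0]
        exact mul_le_mul h1l a0 (abs_nonneg _) (by norm_num)
      rw [e]
      rw [abs_le] at b0 b1 ⊢
      constructor <;> nlinarith [b0.1, b0.2, b1.1, b1.2]

lemma L_tendsto : Tendsto L atTop atTop := by
  rw [← tendsto_add_atTop_iff_nat 3]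
  apply tendsto_atTop_mono L_large
  apply Tendsto.const_mul_atTop (by norm_num)
  exact (tendsto_pow_atTop_atTop_of_one_lt (by norm_num : (1:ℝ) < 8 / 5)).comp
    (tendsto_add_atTop_nat 3)

lemma mu_div {l : ℝ} (h1 : 9 / 5 ≤ l) (h2 : l ≤ 19 / 10) (hl : l ^ 3 = l ^ 2 + l + 1) :
    Tendsto (fun n => (L (n + 1) - l * L n) / L n) atTop (𝓝 0) := by
  rw [← tendsto_add_atTop_iff_nat 3]
  have hz : Tendsto (fun n : ℕ => (30 : ℝ) * (15 / 16) ^ (n + 3)) atTop (𝓝 0) := by
    have := (tendsto_pow_atTop_nhds_zero_of_lt_one (by norm_num : (0:ℝ) ≤ 15 / 16)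
      (by norm_num : (15 / 16 : ℝ) < 1)).comp (tendsto_add_atTop_nat 3)
    simpa using this.const_mul 30
  apply squeeze_zero_norm _ hz
  intro n
  have hL := L_large n
  have hLp : 0 < L (n + 3) := lt_of_lt_of_le (by positivity) hL
  have hmu := mu_bound h1 h2 hl (n + 3)
  rw [Real.norm_eq_abs, abs_div, abs_of_pos hLp, div_le_iff₀ hLp]
  calc |L (n + 3 + 1) - l * L (n + 3)| ≤ 3 * (3 / 2) ^ (n + 3) := hmu
    _ = 30 * (15 / 16) ^ (n + 3) * ((1 / 10) * (8 / 5) ^ (n + 3)) := by
        rw [show (3 / 2 : ℝ) = (15 / 16) * (8 / 5) by norm_num, mul_pow]; ring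
    _ ≤ 30 * (15 / 16) ^ (n + 3) * L (n + 3) := by gcongr

/-- the logarithm of a quotient of monomials goes to minus infinity -/
lemma lin_tendsto {l : ℝ} (h1 : 9 / 5 ≤ l) (h2 : l ≤ 19 / 10) (hl : l ^ 3 = l ^ 2 + l + 1)
    {a b c : ℝ} (h : a * l ^ 2 + b * l + c < 0) :
    Tendsto (fun n => a * L (n + 2) + b * L (n + 1) + c * L n) atTop atBot := by
  have m0 := mu_div h1 h2 hl
  have m1 : Tendsto (fun n => (L (n + 2) - l * L (n + 1)) / L n) atTop (𝓝 0) := by
    have r1 : Tendsto (fun n => (L (n + 1) - l * L n) / L n + l) atTop (𝓝 (0 + l)) :=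
      m0.add_const l
    have m0' := m0.comp (tendsto_add_atTop_nat 1)
    have r2 := m0'.mul r1
    rw [zero_mul] at r2
    apply r2.congr'
    have hev : ∀ᶠ n in atTop, 0 < L n := L_tendsto.eventually_gt_atTop 0
    have hev' : ∀ᶠ n in atTop, 0 < L (n + 1) :=
      (L_tendsto.comp (tendsto_add_atTop_nat 1)).eventually_gt_atTop 0
    filter_upwards [hev, hev'] with n hn hn'
    simp only [Function.comp]
    field_simp
    ring
  have key : Tendsto (fun n => (a * l ^ 2 + b * l + c)
      + (a * ((L (n + 2) - l * L (n + 1)) / L n) + (a * l + b) * ((L (n + 1) - l * L n) / L n)))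
      atTop (𝓝 (a * l ^ 2 + b * l + c + (a * 0 + (a * l + b) * 0))) :=
    ((m1.const_mul a).add (m0.const_mul (a * l + b))).const_add _
  rw [mul_zero, mul_zero, add_zero, add_zero] at key
  have := key.neg_mul_atTop h L_tendsto
  apply this.congr'
  have hev : ∀ᶠ n in atTop, 0 < L n := L_tendsto.eventually_gt_atTop 0
  filter_upwards [hev] with n hn
  field_simp
  ring

/-- value of the monomial at the `n+2`-nd point of the orbit -/
def mon (d : Fin 3 →₀ ℕ) (n : ℕ) : ℕ :=
  sq (n + 2) ^ d 0 * (sq (n + 1) * sq n) ^ d 1 * sq (n + 1) ^ d 2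

lemma mon_pos (d : Fin 3 →₀ ℕ) (n : ℕ) : 0 < mon d n := by
  unfold mon
  have h0 := sq_pos n
  have h1 := sq_pos (n + 1)
  have h2 := sq_pos (n + 2)
  positivity

lemma log_mon (d : Fin 3 →₀ ℕ) (n : ℕ) :
    Real.log (mon d n) = d 0 * L (n + 2) + (d 1 + d 2) * L (n + 1) + d 1 * L n := by
  have h0 : (0:ℝ) < sq n := by exact_mod_cast sq_pos n
  have h1 : (0:ℝ) < sq (n + 1) := by exact_mod_cast sq_pos (n + 1)
  have h2 : (0:ℝ) < sq (n + 2) := by exact_mod_cast sq_pos (n + 2)
  unfold mon L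
  push_cast
  rw [Real.log_mul (by positivity) (by positivity), Real.log_mul (by positivity) (by positivity),
    Real.log_pow, Real.log_pow, Real.log_pow, Real.log_mul h1.ne' h0.ne']
  ring

/-- the rate of growth of a monomial -/
noncomputable def rate (l : ℝ) (d : Fin 3 →₀ ℕ) : ℝ := d 0 * l ^ 2 + (d 1 + d 2) * l + d 1

lemma rate_inj {l : ℝ} (hl : l ^ 3 = l ^ 2 + l + 1) : Function.Injective (rate l) := by
  intro d e h
  unfold rate at h
  have := indep hl (a := (d 0 : ℤ) - e 0) (b := (d 1 : ℤ) + d 2 - (e 1 + e 2))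
    (c := (d 1 : ℤ) - e 1) (by push_cast; linarith)
  ext i
  fin_cases i
  · show d 0 = e 0
    omega
  · show d 1 = e 1
    omega
  · show d 2 = e 2
    omega

lemma dom {l : ℝ} (h1 : 9 / 5 ≤ l) (h2 : l ≤ 19 / 10) (hl : l ^ 3 = l ^ 2 + l + 1)
    {d e : Fin 3 →₀ ℕ} (h : rate l d < rate l e) :
    Tendsto (fun n => (mon d n : ℝ) / mon e n) atTop (𝓝 0) := by
  have h3 : Tendsto (fun n => ((d 0 : ℝ) - e 0) * L (n + 2) + ((d 1 : ℝ) + d 2 - (e 1 + e 2)) * L (n + 1)
      + ((d 1 : ℝ) - e 1) * L n) atTop atBot := by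
    apply lin_tendsto h1 h2 hl
    unfold rate at h
    linarith
  have h4 := Real.tendsto_exp_atBot.comp h3
  apply h4.congr
  intro n
  have hd : (0:ℝ) < mon d n := by exact_mod_cast mon_pos d n
  have he : (0:ℝ) < mon e n := by exact_mod_cast mon_pos e n
  simp only [Function.comp]
  rw [← Real.exp_log (div_pos hd he), Real.log_div hd.ne' he.ne', log_mon, log_mon]
  congr 1
  ring

/-- a nonzero rational combination of the monomials does not vanish identically -/
lemma comb_ne_zero (S : Finset (Fin 3 →₀ ℕ)) (c : (Fin 3 →₀ ℕ) → ℚ)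
    (h : ∀ n, ∑ d ∈ S, c d * (mon d n : ℚ) = 0) : ∀ d ∈ S, c d = 0 := by
  classical
  obtain ⟨l, h1, h2, hl⟩ := exists_lam
  by_contra hcon
  push Not at hcon
  -- the support
  set T := S.filter (fun d => c d ≠ 0) with hT
  have hTne : T.Nonempty := by
    obtain ⟨d, hd, hd'⟩ := hcon
    exact ⟨d, Finset.mem_filter.mpr ⟨hd, hd'⟩⟩
  obtain ⟨e, heT, hmax⟩ := T.exists_max_image (rate l) hTne
  have hT0 : ∀ n, ∑ d ∈ T, (c d : ℝ) * ((mon d n : ℝ) / mon e n) = 0 := by
    intro n
    have he : (0:ℝ) < mon e n := by exact_mod_cast mon_pos e n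
    have h3 : ∑ d ∈ T, (c d : ℝ) * (mon d n : ℝ) = 0 := by
      have h4 : ∑ d ∈ T, c d * (mon d n : ℚ) = 0 := by
        rw [← h n, hT]
        apply Finset.sum_filter_of_ne
        intro d _ hd hc
        rw [hc, zero_mul] at hd
        exact hd rfl
      exact_mod_cast congrArg (fun q : ℚ => (q : ℝ)) h4
    have h5 : ∑ d ∈ T, (c d : ℝ) * ((mon d n : ℝ) / mon e n)
        = (∑ d ∈ T, (c d : ℝ) * (mon d n : ℝ)) / mon e n := by
      rw [Finset.sum_div]
      apply Finset.sum_congr rfl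
      intro d _
      ring
    rw [h5, h3, zero_div]
  have hlim : Tendsto (fun n => ∑ d ∈ T, (c d : ℝ) * ((mon d n : ℝ) / mon e n)) atTop
      (𝓝 (∑ d ∈ T, (c d : ℝ) * (if d = e then 1 else 0))) := by
    apply tendsto_finsetSum
    intro d hd
    apply Tendsto.const_mul
    split_ifs with hde
    · subst hde
      have : (fun n => (mon d n : ℝ) / mon d n) = fun _ => (1:ℝ) := by
        funext n
        have he : (0:ℝ) < mon d n := by exact_mod_cast mon_pos d n
        exact div_self he.ne'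
      rw [this]
      exact tendsto_const_nhds
    · apply dom h1 h2 hl
      have h6 := hmax d hd
      rcases lt_or_eq_of_le h6 with h7 | h7
      · exact h7
      · exact absurd (rate_inj hl h7) hde
  have hz : Tendsto (fun n => ∑ d ∈ T, (c d : ℝ) * ((mon d n : ℝ) / mon e n)) atTop (𝓝 0) := by
    simp only [hT0]
    exact tendsto_const_nhds
  have := tendsto_nhds_unique hlim hz
  simp only [mul_ite, mul_one, mul_zero, Finset.sum_ite_eq', heT, if_true] at this
  have hce := (Finset.mem_filter.mp heT).2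
  exact hce (by exact_mod_cast this)

end Pool.Agent.Helper26.DMC.EX

namespace Pool.Agent.Helper26.DMC

open MvPolynomial

/-- The map `(x, y, z) ↦ (1 + x y, x z, x)`. -/
noncomputable def Ex (K : Type*) [Field K] : Fin 3 → MvPolynomial (Fin 3) K :=
  ![1 + X 0 * X 1, X 0 * X 2, X 0]

theorem Ex_jac (K : Type*) [Field K] : jac (Ex K) = X 0 ^ 2 := by
  unfold jac Ex
  rw [Matrix.det_fin_three]
  simp [Matrix.of_apply, pderiv_X]
  ring

theorem Ex_contr (K : Type*) [Field K] : Contr (Ex K) (X 0) 1 ![1, 0, 0] := by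
  intro i
  have h : iter (Ex K) 1 i = Ex K i := by
    show bind₁ (iter (Ex K) 0) (Ex K i) = Ex K i
    show bind₁ X (Ex K i) = Ex K i
    rw [bind₁_X_left]
    rfl
  rw [h]
  fin_cases i
  · simp [Ex]
  · simp [Ex]
  · simp [Ex]

namespace EX

lemma orbit (K : Type*) [Field K] (n : ℕ) :
    (pmap (Ex K))^[n + 2] ![1, 0, 0] = ![(sq (n + 2) : K), (sq (n + 1) * sq n : ℕ), (sq (n + 1) : K)] := by
  induction n with
  | zero =>
    rw [Function.iterate_succ_apply', Function.iterate_succ_apply']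
    funext i
    fin_cases i <;> simp [pmap, Ex, sq]
  | succ n ih =>
    rw [show n + 1 + 2 = (n + 2) + 1 by ring, Function.iterate_succ_apply', ih]
    funext i
    fin_cases i
    · simp [pmap, Ex, sq]; ring
    · simp [pmap, Ex, sq]; try ring
    · simp [pmap, Ex, sq]

end EX

theorem Ex_dense (K : Type*) [Field K] [CharZero K] : Dense (Ex K) ![1, 0, 0] := by
  classical
  intro P hP
  by_contra hcon
  push Not at hcon
  apply hP
  ext d₀
  rw [coeff_zero]
  by_contra hd₀
  have hcomb : ∀ n, ∑ d ∈ P.support, P.coeff d * (EX.mon d n : K) = 0 := by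
    intro n
    have h := hcon (n + 2)
    rw [EX.orbit, eval_eq'] at h
    rw [← h]
    apply Finset.sum_congr rfl
    intro d _
    rw [Fin.prod_univ_three]
    simp [EX.mon]
  obtain ⟨φ, hφ⟩ : ∃ φ : Module.Dual ℚ K, φ (P.coeff d₀) ≠ 0 := by
    by_contra hall
    push Not at hall
    exact hd₀ ((Module.forall_dual_apply_eq_zero_iff ℚ _).mp hall)
  have h2 : ∀ n, ∑ d ∈ P.support, φ (P.coeff d) * (EX.mon d n : ℚ) = 0 := by
    intro n
    have := congrArg φ (hcomb n)
    rw [map_zero, map_sum] at this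
    rw [← this]
    apply Finset.sum_congr rfl
    intro d _
    have h3 : P.coeff d * (EX.mon d n : K) = (EX.mon d n : ℚ) • P.coeff d := by
      rw [Algebra.smul_def]; simp [mul_comm]
    rw [h3, map_smul, smul_eq_mul, mul_comm]
  exact hφ (EX.comb_ne_zero P.support (fun d => φ (P.coeff d)) h2 d₀ (mem_support_iff.mpr hd₀))

end Pool.Agent.Helper26.DMC
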