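import Pool.Agent.Helper26.DMC.MA
import Pool.Agent.Helper26.DMC.ET

/-! The final theorems of the DMC project (helper26). -/

set_option autoImplicit false

namespace Pool.Agent.Helper26.DMC

open MvPolynomial NumberField

section descent

variable {K : Type*} [Field K] {N : ℕ}

/-- A closed subset of affine space over `ℂ` meets the `K`-rational points in a closed subset
over `K`. -/
lemma exists_descent (σ : K →+* ℂ) (V : Set (MvPolynomial (Fin N) ℂ)) :
    ∃ W : Set (MvPolynomial (Fin N) K), ∀ x : Fin N → K,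
      (∀ G ∈ V, eval (fun i => σ (x i)) G = 0) ↔ ∀ F ∈ W, eval x F = 0 := by
  classical
  let _ : Algebra K ℂ := σ.toAlgebra
  let fg : MvPolynomial (Fin N) ℂ → Module.Dual K ℂ → MvPolynomial (Fin N) K := fun G f =>
    ∑ d ∈ G.support, monomial d (f (G.coeff d))
  have hfg : ∀ G f (x : Fin N → K), f (eval (fun i => σ (x i)) G) = eval x (fg G f) := by
    intro G f x
    simp only [fg, map_sum, eval_monomial]
    conv_lhs => rw [eval_eq]
    rw [map_sum]
    apply Finset.sum_congr rfl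
    intro d _
    have h1 : (∏ i ∈ d.support, σ (x i) ^ d i) = σ (d.prod fun i k => x i ^ k) := by
      rw [Finsupp.prod, map_prod]
      simp only [map_pow]
    rw [h1]
    have h2 : coeff d G * σ (d.prod fun i k => x i ^ k) = (d.prod fun i k => x i ^ k) • coeff d G := by
      rw [Algebra.smul_def, mul_comm]; rfl
    rw [h2, map_smul, smul_eq_mul, mul_comm]
  refine ⟨{F | ∃ G ∈ V, ∃ f : Module.Dual K ℂ, F = fg G f}, fun x => ?_⟩
  constructor
  · rintro h _ ⟨G, hG, f, rfl⟩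
    rw [← hfg, h G hG, map_zero]
  · intro h G hG
    rw [← Module.forall_dual_apply_eq_zero_iff K]
    intro f
    rw [hfg]
    exact h _ ⟨G, hG, f, rfl⟩

lemma map_pmap_iterate (σ : K →+* ℂ) (Φ : Fin N → MvPolynomial (Fin N) K) (α : Fin N → K) (n : ℕ) :
    (fun i => σ ((pmap Φ)^[n] α i)) = (pmap fun i => map σ (Φ i))^[n] (fun i => σ (α i)) := by
  induction n with
  | zero => rfl
  | succ n ih =>
    rw [Function.iterate_succ_apply', Function.iterate_succ_apply', ← ih]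
    funext i
    simp only [pmap]
    rw [eval_map]
    have := MvPolynomial.eval₂_comp_left σ (RingHom.id K) ((pmap Φ)^[n] α) (Φ i)
    rw [eval₂_id, RingHom.comp_id] at this
    rw [this]
    rfl

lemma map_jac (σ : K →+* ℂ) (Φ : Fin N → MvPolynomial (Fin N) K) :
    jac (fun i => map σ (Φ i)) = map σ (jac Φ) := by
  unfold jac
  rw [RingHom.map_det]
  congr 1
  ext i j : 2
  simp [pderiv_map]

end descent

section main

variable {K : Type*} [Field K] [NumberField K] {N : ℕ}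

omit [NumberField K] in
/-- a point with dense orbit is not periodic -/
lemma Dense.not_periodic [Infinite K] [Nonempty (Fin N)] {Φ : Fin N → MvPolynomial (Fin N) K}
    {β : Fin N → K} (hβ : Dense Φ β) (p : ℕ) (hp : 0 < p) : (pmap Φ)^[p] β ≠ β := by
  intro h
  obtain ⟨i₀⟩ := (inferInstance : Nonempty (Fin N))
  have h1 : ∀ n, ∃ t < p, (pmap Φ)^[n] β = (pmap Φ)^[t] β := by
    intro n
    refine ⟨n % p, Nat.mod_lt _ hp, ?_⟩
    exact (Function.IsPeriodicPt.iterate_mod_apply (f := pmap Φ) (n := p) (x := β) h n).symm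
  obtain ⟨n, hn⟩ := hβ (∏ t ∈ Finset.range p, (X i₀ - C ((pmap Φ)^[t] β i₀))) (by
    rw [Finset.prod_ne_zero_iff]
    intro t _ h0
    have h2 := congrArg (fun F => eval (fun _ => (pmap Φ)^[t] β i₀ + 1) F) h0
    simp at h2)
  apply hn
  obtain ⟨t, ht, he⟩ := h1 n
  rw [map_prod]
  apply Finset.prod_eq_zero (Finset.mem_range.mpr ht)
  rw [he, map_sub, eval_X, eval_C, sub_self]

/-- dense orbits meet a proper closed subset only finitely often -/
theorem finite_of_dense {Φ : Fin N → MvPolynomial (Fin N) K} {h : MvPolynomial (Fin N) K}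
    (hh : ∀ c, h ≠ C c) {m : ℕ} (hm : 0 < m) {β : Fin N → K} (hc : Contr Φ h m β)
    (hβ : Dense Φ β) {α : Fin N → K} (hα : Dense Φ α) {P : MvPolynomial (Fin N) K} (hP : P ≠ 0) :
    {n | eval ((pmap Φ)^[n] α) P = 0}.Finite := by
  have hK : Infinite K := inferInstance
  have hN : Nonempty (Fin N) := by
    by_contra hcon
    have : IsEmpty (Fin N) := not_nonempty_iff.mp hcon
    exact hh _ (MvPolynomial.eq_C_of_isEmpty h)
  by_contra hinf
  have hinf' : {n | ∀ F ∈ ({P} : Set (MvPolynomial (Fin N) K)),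
      eval ((pmap Φ)^[n] α) F = 0}.Infinite := by
    have e1 : {n | ∀ F ∈ ({P} : Set (MvPolynomial (Fin N) K)), eval ((pmap Φ)^[n] α) F = 0} =
        {n | eval ((pmap Φ)^[n] α) P = 0} := by
      ext n
      simp only [Set.mem_ofPred_eq, Set.mem_singleton_iff, forall_eq]
    rw [e1]
    exact hinf
  obtain ⟨B, hB⟩ := transfer hh hm hc hβ.not_periodic hα {P} hinf'
  obtain ⟨k, hk⟩ := hβ.window hP B
  obtain ⟨j, hj, hj'⟩ := hB k
  exact hk j hj (hj' P rfl)

omit [NumberField K] in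
/-- the case of a dense orbit -/
lemma dense_case (σ : K →+* ℂ) {Φ : Fin N → MvPolynomial (Fin N) K} {α : Fin N → K}
    (hfin : ∀ P : MvPolynomial (Fin N) K, P ≠ 0 → {n | eval ((pmap Φ)^[n] α) P = 0}.Finite)
    (V : Set (MvPolynomial (Fin N) ℂ)) : ∃ E A : Finset ℕ,
      {n | ∀ G ∈ V, eval (fun i => σ ((pmap Φ)^[n] α i)) G = 0} =
        {n : ℕ | n ∈ E ∨ ∃ a ∈ A, ∃ k : ℕ, n = a + 1 * k} := by
  classical
  obtain ⟨W, hW⟩ := exists_descent σ V
  have h1 : {n | ∀ G ∈ V, eval (fun i => σ ((pmap Φ)^[n] α i)) G = 0} =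
      {n | ∀ F ∈ W, eval ((pmap Φ)^[n] α) F = 0} := by
    ext n
    exact hW _
  rw [h1]
  by_cases hex : ∃ P ∈ W, P ≠ 0
  · obtain ⟨P, hPW, hP⟩ := hex
    have h2 : {n | ∀ F ∈ W, eval ((pmap Φ)^[n] α) F = 0}.Finite :=
      (hfin P hP).subset fun n hn => hn P hPW
    refine ⟨h2.toFinset, ∅, ?_⟩
    ext n
    simp
  · push Not at hex
    refine ⟨∅, {0}, ?_⟩
    ext n
    simp only [Set.mem_ofPred_eq, Finset.notMem_empty, Finset.mem_singleton, exists_eq_left,
      zero_add, one_mul, exists_eq', false_or, iff_true]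
    intro F hF
    rw [hex F hF, map_zero]

omit [NumberField K] in
/-- the case of an orbit which is not dense -/
lemma nondense_case (σ : K →+* ℂ) {Φ : Fin N → MvPolynomial (Fin N) K}
    (hcrit : ∀ I : Ideal (MvPolynomial (Fin N) K), I ≠ ⊥ → (∀ F ∈ I, bind₁ Φ F ∈ I) →
      I ⊔ Ideal.span {jac Φ} = ⊤) {α : Fin N → K} (hα : ¬ Dense Φ α) :
    ∃ L : ℕ, 0 < L ∧ ∀ V : Set (MvPolynomial (Fin N) ℂ), ∃ E A : Finset ℕ,
      {n | ∀ G ∈ V, eval (fun i => σ ((pmap Φ)^[n] α i)) G = 0} =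
        {n : ℕ | n ∈ E ∨ ∃ a ∈ A, ∃ k : ℕ, n = a + L * k} := by
  let I : Ideal (MvPolynomial (Fin N) K) :=
    { carrier := {F | ∀ n, eval ((pmap Φ)^[n] α) F = 0}
      add_mem' := fun {F G} hF hG n => by rw [map_add, hF n, hG n, add_zero]
      zero_mem' := fun n => map_zero _
      smul_mem' := fun c F hF n => by rw [smul_eq_mul, map_mul, hF n, mul_zero] }
  have hI : ∀ F, F ∈ I ↔ ∀ n, eval ((pmap Φ)^[n] α) F = 0 := fun F => Iff.rfl
  have hI0 : I ≠ ⊥ := by
    unfold Dense at hα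
    push Not at hα
    obtain ⟨P, hP, hP'⟩ := hα
    intro hbot
    apply hP
    have : P ∈ I := (hI P).mpr hP'
    rwa [hbot, Ideal.mem_bot] at this
  have hev : ∀ (F : MvPolynomial (Fin N) K) (x : Fin N → K), eval x (bind₁ Φ F) = eval (pmap Φ x) F := by
    intro F x
    have := eval_bind_iter Φ 1 x F
    have e1 : iter Φ 1 = Φ := by
      funext i
      simp only [iter]
      rw [bind₁_X_left]; rfl
    rw [e1] at this
    exact this
  have hItop := hcrit I hI0 (fun F hF => (hI _).mpr fun n => by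
    rw [hev, ← Function.iterate_succ_apply' (pmap Φ)]
    exact (hI F).mp hF (n + 1))
  rw [Ideal.eq_top_iff_one, Submodule.mem_sup] at hItop
  obtain ⟨F, hF, G, hG, hFG⟩ := hItop
  rw [Ideal.mem_span_singleton'] at hG
  obtain ⟨A, rfl⟩ := hG
  have hA : ∀ n, eval ((pmap Φ)^[n] α) A * eval ((pmap Φ)^[n] α) (jac Φ) = 1 := by
    intro n
    have h1 := congrArg (eval ((pmap Φ)^[n] α)) hFG
    rwa [map_add, (hI F).mp hF n, zero_add, map_mul, map_one] at h1
  obtain ⟨L, hL, hV⟩ := etale (fun i => map σ (Φ i)) (fun i => σ (α i)) (map σ A) (by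
    intro n
    rw [map_jac, ← map_pmap_iterate]
    have h1 : ∀ F : MvPolynomial (Fin N) K, eval (fun i => σ ((pmap Φ)^[n] α i)) (map σ F) =
        σ (eval ((pmap Φ)^[n] α) F) := by
      intro F
      rw [eval_map]
      have := MvPolynomial.eval₂_comp_left σ (RingHom.id K) ((pmap Φ)^[n] α) F
      rw [eval₂_id, RingHom.comp_id] at this
      rw [this]
      rfl
    rw [h1, h1, ← map_mul, hA n, map_one])
  refine ⟨L, hL, fun V => ?_⟩
  obtain ⟨E, A', hEA⟩ := hV V
  refine ⟨E, A', ?_⟩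
  rw [← hEA]
  ext n
  simp only [Set.mem_ofPred_eq]
  rw [map_pmap_iterate]

omit [NumberField K] in
/-- if all components of the critical locus are contracted to points with dense orbits then no proper
closed invariant subset meets the critical locus -/
lemma crit_of_contr {Φ : Fin N → MvPolynomial (Fin N) K} (hJ : jac Φ ≠ 0)
    (hall : ∀ h, Irreducible h → h ∣ jac Φ → ∃ m β, Contr Φ h m β ∧ Dense Φ β)
    (I : Ideal (MvPolynomial (Fin N) K)) (hI : I ≠ ⊥) (hinv : ∀ F ∈ I, bind₁ Φ F ∈ I) :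
    I ⊔ Ideal.span {jac Φ} = ⊤ := by
  by_contra hcon
  obtain ⟨M, hM, hle⟩ := Ideal.exists_le_maximal _ hcon
  have hIM : I ≤ M := le_sup_left.trans hle
  have hJM : jac Φ ∈ M := hle (Ideal.mem_sup_right (Ideal.mem_span_singleton_self _))
  have hprime := hM.isPrime
  have hinvk : ∀ k, ∀ F ∈ I, bind₁ (iter Φ k) F ∈ I := by
    intro k
    induction k with
    | zero =>
      intro F hF
      have : bind₁ (iter Φ 0) F = F := by
        simp only [iter]
        rw [bind₁_X_left]; rfl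
      rwa [this]
    | succ k ih =>
      intro F hF
      rw [bind_iter_succ]
      exact hinv _ (ih F hF)
  -- an irreducible factor of the jacobian in `M`
  obtain ⟨h, hirr, hdvd, hhM⟩ : ∃ h, Irreducible h ∧ h ∣ jac Φ ∧ h ∈ M := by
    have h1 := UniqueFactorizationMonoid.factors_prod hJ
    have h2 : (UniqueFactorizationMonoid.factors (jac Φ)).prod ∈ M := by
      obtain ⟨u, hu⟩ := h1.symm
      rw [← hu]
      exact M.mul_mem_right _ hJM
    obtain ⟨p, hp, hpM⟩ := (hprime.multiset_prod_mem_iff_exists_mem _).mp h2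
    exact ⟨p, UniqueFactorizationMonoid.irreducible_of_factor p hp,
      UniqueFactorizationMonoid.dvd_of_mem_factors hp, hpM⟩
  obtain ⟨m, β, hc, hβ⟩ := hall h hirr hdvd
  obtain ⟨F, hF, hF0⟩ := Submodule.exists_mem_ne_zero_of_ne_bot hI
  obtain ⟨n, hn⟩ := hβ F hF0
  have h3 : bind₁ (iter Φ (m + n)) F - C (eval ((pmap Φ)^[n] β) F) ∈ M :=
    M.mem_of_dvd (hc.dvd n F) hhM
  have h4 : C (eval ((pmap Φ)^[n] β) F) ∈ M := by
    have h5 := M.sub_mem (hIM (hinvk (m + n) F hF)) h3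
    rwa [sub_sub_cancel] at h5
  apply hM.ne_top
  exact M.eq_top_of_isUnit_mem h4 ((IsUnit.mk0 _ hn).map C)

/-- **main theorem**: full dynamical Mordell-Lang -/
theorem full (σ : K →+* ℂ) {Φ : Fin N → MvPolynomial (Fin N) K}
    (hc : IsUnit (jac Φ) ∨ ∃ h m β, (∀ c, h ≠ C c) ∧ 0 < m ∧ Contr Φ h m β ∧ Dense Φ β)
    (hcrit : ∀ I : Ideal (MvPolynomial (Fin N) K), I ≠ ⊥ → (∀ F ∈ I, bind₁ Φ F ∈ I) →
      I ⊔ Ideal.span {jac Φ} = ⊤) (α : Fin N → K) :
    ∃ L : ℕ, 0 < L ∧ ∀ V : Set (MvPolynomial (Fin N) ℂ), ∃ E A : Finset ℕ,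
      {n | ∀ G ∈ V, eval (fun i => σ ((pmap Φ)^[n] α i)) G = 0} =
        {n : ℕ | n ∈ E ∨ ∃ a ∈ A, ∃ k : ℕ, n = a + L * k} := by
  by_cases hα : Dense Φ α
  · rcases hc with hunit | ⟨h, m, β, hh, hm, hcon, hβ⟩
    · -- etale map
      obtain ⟨A, hA⟩ := hunit.exists_left_inv
      obtain ⟨L, hL, hV⟩ := etale (fun i => map σ (Φ i)) (fun i => σ (α i)) (map σ A) (by
        intro n
        rw [map_jac, ← map_mul, ← map_mul, hA, map_one, map_one])
      refine ⟨L, hL, fun V => ?_⟩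
      obtain ⟨E, A', hEA⟩ := hV V
      refine ⟨E, A', ?_⟩
      rw [← hEA]
      ext n
      simp only [Set.mem_ofPred_eq]
      rw [map_pmap_iterate]
    · exact ⟨1, one_pos, dense_case σ fun P hP => finite_of_dense hh hm hcon hβ hα hP⟩
  · exact nondense_case σ hcrit hα

/-- **main theorem**, all critical components contracted -/
theorem full_of_contr (σ : K →+* ℂ) {Φ : Fin N → MvPolynomial (Fin N) K} (hJ : jac Φ ≠ 0)
    (hall : ∀ h, Irreducible h → h ∣ jac Φ → ∃ m β, 0 < m ∧ Contr Φ h m β ∧ Dense Φ β)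
    (α : Fin N → K) :
    ∃ L : ℕ, 0 < L ∧ ∀ V : Set (MvPolynomial (Fin N) ℂ), ∃ E A : Finset ℕ,
      {n | ∀ G ∈ V, eval (fun i => σ ((pmap Φ)^[n] α i)) G = 0} =
        {n : ℕ | n ∈ E ∨ ∃ a ∈ A, ∃ k : ℕ, n = a + L * k} := by
  refine full σ ?_ (crit_of_contr hJ fun h h1 h2 => ?_) α
  · by_cases hu : IsUnit (jac Φ)
    · exact Or.inl hu
    · right
      obtain ⟨h, hirr, hdvd⟩ := WfDvdMonoid.exists_irreducible_factor hu hJ
      obtain ⟨m, β, hm, hc, hβ⟩ := hall h hirr hdvd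
      refine ⟨h, m, β, ?_, hm, hc, hβ⟩
      rintro c rfl
      by_cases hc0 : c = 0
      · exact hirr.ne_zero (by rw [hc0, map_zero])
      · exact hirr.not_isUnit ((IsUnit.mk0 _ hc0).map C)
  · obtain ⟨m, β, _, hc, hβ⟩ := hall h h1 h2
    exact ⟨m, β, hc, hβ⟩

end main

end Pool.Agent.Helper26.DMC
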