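import Pool.Agent.Helper26.DMC.Defs

/-! Block DMC-HA: families with homogeneous relations; weights of algebraic elements vanish. -/

set_option autoImplicit false

namespace Pool.Agent.Helper26.DMC

open MvPolynomial

variable {K : Type*} [Field K]

namespace HA

section basic

variable {R : Type*} [CommRing R] [Algebra K R] {κ : Type*}

lemma coeff_gr (a : κ → ℤ) (t : ℤ) (F : MvPolynomial κ K) (w : κ →₀ ℕ) :
    (gr a t F).coeff w = if wt a w = t then F.coeff w else 0 := by
  classical
  unfold gr
  rw [coeff_sum]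
  simp only [coeff_monomial]
  rw [Finset.sum_ite_eq']
  by_cases h : wt a w = t
  · rw [if_pos h]
    by_cases h' : w ∈ F.support
    · exact if_pos (Finset.mem_filter.mpr ⟨h', h⟩)
    · rw [notMem_support_iff.mp h']
      exact ite_self 0
  · rw [if_neg h]
    apply if_neg
    intro h2
    exact h (Finset.mem_filter.mp h2).2

lemma tw_monomial (s : κ → R) (a : κ → ℤ) (w : κ →₀ ℕ) (c : K) :
    tw s a (monomial w c) = AddMonoidAlgebra.single (wt a w) (aeval s (monomial w c)) := by
  unfold tw
  rw [aeval_monomial, aeval_monomial]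
  have e1 : (w.prod fun i k => (AddMonoidAlgebra.single (a i) (s i) : AddMonoidAlgebra R ℤ) ^ k)
      = AddMonoidAlgebra.single (wt a w) (w.prod fun i k => s i ^ k) := by
    have : (fun (i : κ) (k : ℕ) => (AddMonoidAlgebra.single (a i) (s i) : AddMonoidAlgebra R ℤ) ^ k)
        = fun (i : κ) (k : ℕ) => AddMonoidAlgebra.single ((k : ℤ) * a i) (s i ^ k) := by
      funext i k
      rw [AddMonoidAlgebra.single_pow, nsmul_eq_mul]
    rw [this, AddMonoidAlgebra.finsuppProd_single]
    rfl
  rw [e1]
  have e2 : (algebraMap K (AddMonoidAlgebra R ℤ)) c = AddMonoidAlgebra.single 0 (algebraMap K R c) := by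
    rw [AddMonoidAlgebra.coe_algebraMap]
    rfl
  rw [e2, AddMonoidAlgebra.single_mul_single, zero_add]

lemma tw_apply (s : κ → R) (a : κ → ℤ) (F : MvPolynomial κ K) (t : ℤ) :
    (tw s a F).coeff t = aeval s (gr a t F) := by
  classical
  conv_lhs => rw [F.as_sum]
  rw [map_sum, AddMonoidAlgebra.coeff_sum, Finsupp.finsetSum_apply]
  unfold gr
  rw [map_sum, Finset.sum_filter]
  refine Finset.sum_congr rfl fun w _ => ?_
  rw [tw_monomial, AddMonoidAlgebra.coeff_single, Finsupp.single_apply]

lemma homog {s : κ → R} {a : κ → ℤ} (h : HomRel K s a) {F : MvPolynomial κ K}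
    (hF : aeval s F = 0) (t : ℤ) : aeval s (gr a t F) = 0 := by
  rw [← tw_apply, h F hF]
  rfl

end basic

end HA

variable {R : Type*} [CommRing R] [IsDomain R] [Algebra K R] {κ : Type*}

theorem HomRel.eq_zero_of_algebraic {y : κ → R} {f : R} (hf : f ≠ 0) {a : κ → ℤ} {af : ℤ}
    (h : HomRel K (fun o : Option κ => o.elim f y) (fun o : Option κ => o.elim af a))
    (ha : ∀ j, a j = 0) (halg : IsAlgebraic (Algebra.adjoin K (Set.range y)) f) : af = 0 := by
  classical
  by_contra haf
  obtain ⟨p, hp0, hp⟩ := halg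
  have hlift : ∀ k, ∃ P : MvPolynomial κ K, aeval y P = (p.coeff k : R) := by
    intro k
    have h1 : ∀ r : R, r ∈ Algebra.adjoin K (Set.range y) →
        ∃ P : MvPolynomial κ K, aeval y P = r := by
      intro r hr
      rw [Algebra.adjoin_range_eq_range_aeval] at hr
      exact hr
    exact h1 _ (p.coeff k).2
  choose P hP using hlift
  set s : Option κ → R := fun o => o.elim f y with hs
  set b : Option κ → ℤ := fun o => o.elim af a with hb
  obtain ⟨F, hFdef⟩ : ∃ F : MvPolynomial (Option κ) K,
      F = ∑ k ∈ p.support, rename some (P k) * X none ^ k := ⟨_, rfl⟩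
  have hsome : ∀ Q : MvPolynomial κ K, aeval s (rename some Q) = aeval y Q := by
    intro Q
    rw [aeval_rename]
    rfl
  have hF : aeval s F = 0 := by
    rw [hFdef, map_sum]
    rw [Polynomial.aeval_eq_sum_range' (n := p.natDegree + 1) (by omega)] at hp
    rw [← hp, ← Finset.sum_subset (Polynomial.supp_subset_range (Nat.lt_succ_self p.natDegree))]
    · refine Finset.sum_congr rfl fun k _ => ?_
      rw [map_mul, map_pow, aeval_X, hsome, hP, Algebra.smul_def]
      rfl
    · intro k _ hk
      rw [Polynomial.notMem_support_iff.mp hk, zero_smul]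
  have htw := h F hF
  have htwsome : ∀ Q : MvPolynomial κ K,
      tw s b (rename some Q) = AddMonoidAlgebra.single 0 (aeval y Q) := by
    intro Q
    have e : (tw s b).comp (rename (some : κ → Option κ)) =
        (IsScalarTower.toAlgHom K R (AddMonoidAlgebra R ℤ)).comp (aeval y) := by
      apply MvPolynomial.algHom_ext
      intro i
      rw [AlgHom.comp_apply, rename_X, AlgHom.comp_apply, aeval_X]
      unfold tw
      rw [aeval_X]
      show AddMonoidAlgebra.single (a i) (y i) = algebraMap R (AddMonoidAlgebra R ℤ) (y i)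
      rw [ha i, AddMonoidAlgebra.coe_algebraMap]
      rfl
    have e2 := congrArg (fun g => g Q) e
    simp only [AlgHom.comp_apply] at e2
    rw [e2]
    show algebraMap R (AddMonoidAlgebra R ℤ) (aeval y Q) = _
    rw [AddMonoidAlgebra.coe_algebraMap]
    rfl
  have hterm : ∀ k, tw s b (rename some (P k) * X none ^ k) =
      AddMonoidAlgebra.single ((k : ℤ) * af) ((p.coeff k : R) * f ^ k) := by
    intro k
    rw [map_mul, map_pow, htwsome, hP]
    have : tw s b (X none : MvPolynomial (Option κ) K) = AddMonoidAlgebra.single af f := by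
      unfold tw
      rw [aeval_X]
      rfl
    rw [this, AddMonoidAlgebra.single_pow, AddMonoidAlgebra.single_mul_single, zero_add, nsmul_eq_mul]
  rw [hFdef, map_sum] at htw
  obtain ⟨k, hk⟩ : p.support.Nonempty := Polynomial.support_nonempty.mpr hp0
  have h1 := congrArg (fun x : AddMonoidAlgebra R ℤ => x.coeff ((k : ℤ) * af)) htw
  simp only [hterm, AddMonoidAlgebra.coeff_sum, AddMonoidAlgebra.coeff_single,
    Finsupp.finsetSum_apply, AddMonoidAlgebra.coeff_zero, Finsupp.coe_zero, Pi.zero_apply] at h1
  rw [Finset.sum_eq_single k] at h1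
  · rw [Finsupp.single_eq_same] at h1
    rcases mul_eq_zero.mp h1 with h2 | h2
    · exact Polynomial.mem_support_iff.mp hk (Subtype.ext h2)
    · exact pow_ne_zero k hf h2
  · intro j _ hj
    rw [Finsupp.single_eq_of_ne]
    intro h3
    apply hj
    have : (k : ℤ) = j := mul_right_cancel₀ haf h3
    exact_mod_cast this.symm
  · intro h3
    exact absurd hk h3

/-- the weight of an exponent of the variables `f`, `g`, `y` -/
lemma HA.wt_option (a : κ → ℤ) (ag af : ℤ) (w : Option (Option κ) →₀ ℕ) :
    wt (fun o : Option (Option κ) => o.elim af (fun o' => o'.elim ag a)) w =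
      (w none : ℤ) * af + ((w (some none) : ℤ) * ag + wt a w.some.some) := by
  unfold wt
  rw [Finsupp.sum_option_index _ _ (fun _ => by simp) (fun _ _ _ => by push_cast; ring),
    Finsupp.sum_option_index _ _ (fun _ => by simp) (fun _ _ _ => by push_cast; ring)]
  rfl

/-- the substitution `f ↦ b`, `g ↦ 0` -/
noncomputable def HA.psi (κ : Type*) (b : K) :
    MvPolynomial (Option (Option κ)) K →ₐ[K] MvPolynomial κ K :=
  aeval (fun o : Option (Option κ) => o.elim (C b) (fun o' => o'.elim 0 X))

lemma HA.psi_monomial (b : K) (w : Option (Option κ) →₀ ℕ) (c : K) :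
    HA.psi κ b (monomial w c) =
      if w (some none) = 0 then monomial w.some.some (c * b ^ (w none)) else 0 := by
  unfold HA.psi
  rw [aeval_monomial, Finsupp.prod_option_index _ _ (fun _ => pow_zero _) (fun _ _ _ => pow_add _ _ _),
    Finsupp.prod_option_index _ _ (fun _ => pow_zero _) (fun _ _ _ => pow_add _ _ _)]
  simp only [Option.elim]
  have e : (w.some none) = w (some none) := rfl
  rw [e]
  split_ifs with h
  · rw [h, pow_zero, one_mul, ← C_pow, ← mul_assoc]
    have e2 : (w.some.some.prod fun (i : κ) (k : ℕ) => (X i : MvPolynomial κ K) ^ k) =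
        monomial w.some.some 1 := by
      rw [monomial_eq, C_1, one_mul]
    rw [e2, algebraMap_eq, ← C_mul, C_mul_monomial, mul_one]
  · rw [zero_pow h, zero_mul, mul_zero, mul_zero]

theorem HomRel.eq_zero_of_ideal [Finite κ] {y : κ → R} {g f : R} (hg : g ≠ 0) {a : κ → ℤ} {ag af : ℤ}
    (h : HomRel K (fun o : Option (Option κ) => o.elim f (fun o' => o'.elim g y))
      (fun o : Option (Option κ) => o.elim af (fun o' => o'.elim ag a)))
    (q : Ideal R) (b : K) (hb : b ≠ 0) (hgq : g ∈ q) (hfq : f - algebraMap K R b ∈ q)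
    (hind : AlgebraicIndependent K (fun k => Ideal.Quotient.mk q (y k)))
    (hdep : ¬ AlgebraicIndependent K (fun o : Option (Option κ) => o.elim f (fun o' => o'.elim g y))) :
    af = 0 := by
  classical
  by_contra haf
  set s : Option (Option κ) → R := fun o => o.elim f (fun o' => o'.elim g y) with hs
  set A : Option (Option κ) → ℤ := fun o => o.elim af (fun o' => o'.elim ag a) with hA
  -- a relation of least degree
  have hex : ∃ n : ℕ, ∃ M : MvPolynomial (Option (Option κ)) K, M ≠ 0 ∧ aeval s M = 0 ∧
      M.totalDegree = n := by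
    unfold AlgebraicIndependent at hdep
    rw [injective_iff_map_eq_zero] at hdep
    push Not at hdep
    obtain ⟨M, h1, h2⟩ := hdep
    exact ⟨_, M, h2, h1, rfl⟩
  obtain ⟨M₁, hM₁0, hM₁r, hM₁d⟩ := Nat.find_spec hex
  have hmin : ∀ M' : MvPolynomial (Option (Option κ)) K, M' ≠ 0 → aeval s M' = 0 →
      M₁.totalDegree ≤ M'.totalDegree := by
    intro M' h1 h2
    rw [hM₁d]
    exact Nat.find_min' hex ⟨M', h1, h2, rfl⟩
  -- a homogeneous one
  obtain ⟨w₁, hw₁⟩ := support_nonempty.mpr hM₁0
  obtain ⟨t, ht⟩ : ∃ t, t = wt A w₁ := ⟨_, rfl⟩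
  obtain ⟨M, hM⟩ : ∃ M, M = gr A t M₁ := ⟨_, rfl⟩
  have hMr : aeval s M = 0 := by rw [hM]; exact HA.homog h hM₁r t
  have hMc : ∀ w, M.coeff w = if wt A w = t then M₁.coeff w else 0 := by
    intro w; rw [hM]; exact HA.coeff_gr A t M₁ w
  have hMsup : M.support ⊆ M₁.support := by
    intro w hw
    rw [mem_support_iff, hMc] at hw
    rw [mem_support_iff]
    intro h2
    rw [h2, ite_self] at hw
    exact hw rfl
  have hMwt : ∀ w ∈ M.support, wt A w = t := by
    intro w hw
    by_contra h2
    rw [mem_support_iff, hMc, if_neg h2] at hw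
    exact hw rfl
  have hM0 : M ≠ 0 := by
    intro h2
    have h3 := hMc w₁
    rw [h2, if_pos ht.symm, coeff_zero] at h3
    exact (mem_support_iff.mp hw₁) h3.symm
  have hMd : M.totalDegree ≤ M₁.totalDegree := by
    unfold totalDegree
    exact Finset.sup_mono hMsup
  -- the variable of `g` does not divide it
  obtain ⟨w₀, hw₀, hw₀0⟩ : ∃ w ∈ M.support, w (some none) = 0 := by
    by_contra hcon
    push Not at hcon
    have hdvd : (X (some none) : MvPolynomial (Option (Option κ)) K) ∣ M := by
      rw [M.as_sum]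
      refine Finset.dvd_sum fun w hw => ?_
      rw [X_dvd_monomial]
      exact Or.inr (hcon w hw)
    obtain ⟨M', hM'⟩ := hdvd
    have h1 : M' ≠ 0 := by
      intro h2
      rw [h2, mul_zero] at hM'
      exact hM0 hM'
    have h2 : aeval s M' = 0 := by
      have h3 := hMr
      rw [hM', map_mul, aeval_X] at h3
      rcases mul_eq_zero.mp h3 with h4 | h4
      · exact absurd h4 hg
      · exact h4
    have h3 := hmin M' h1 h2
    have h4 : M.totalDegree = M'.totalDegree + 1 := by
      rw [hM', totalDegree_mul_of_isDomain (X_ne_zero _) h1, totalDegree_X, add_comm]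
    omega
  -- reduction modulo `q`
  have hcomp : (aeval (fun k => Ideal.Quotient.mk q (y k))).comp (HA.psi κ b) =
      (Ideal.Quotient.mkₐ K q).comp (aeval s) := by
    apply MvPolynomial.algHom_ext
    intro o
    rw [AlgHom.comp_apply, AlgHom.comp_apply, aeval_X]
    unfold HA.psi
    rw [aeval_X]
    rcases o with _ | _ | k
    · show aeval _ (C b) = Ideal.Quotient.mk q f
      rw [← algebraMap_eq, AlgHom.commutes]
      have : Ideal.Quotient.mk q f = Ideal.Quotient.mk q (algebraMap K R b) :=
        Ideal.Quotient.eq.mpr hfq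
      rw [this]
      rfl
    · show aeval _ (0 : MvPolynomial κ K) = Ideal.Quotient.mk q g
      rw [map_zero]
      exact (Ideal.Quotient.eq_zero_iff_mem.mpr hgq).symm
    · show aeval _ (X k) = Ideal.Quotient.mk q (y k)
      rw [aeval_X]
  have hpsi : HA.psi κ b M = 0 := by
    have h1 := congrArg (fun F => F M) hcomp
    simp only [AlgHom.comp_apply, hMr, map_zero] at h1
    exact (injective_iff_map_eq_zero _).mp hind _ h1
  have h1 := congrArg (coeff w₀.some.some) hpsi
  rw [M.as_sum, map_sum, coeff_sum, coeff_zero] at h1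
  rw [Finset.sum_eq_single w₀] at h1
  · rw [HA.psi_monomial, if_pos hw₀0, coeff_monomial, if_pos rfl] at h1
    rcases mul_eq_zero.mp h1 with h2 | h2
    · exact (mem_support_iff.mp hw₀) h2
    · exact pow_ne_zero _ hb h2
  · intro w hw hne
    rw [HA.psi_monomial]
    split_ifs with h2
    · rw [coeff_monomial, if_neg]
      intro h3
      apply hne
      have e1 := hMwt w hw
      have e2 := hMwt w₀ hw₀
      rw [hA, HA.wt_option, h2, h3] at e1
      rw [hA, HA.wt_option, hw₀0] at e2
      have e3 : (w none : ℤ) * af = (w₀ none : ℤ) * af := by linarith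
      have e4 : w none = w₀ none := by exact_mod_cast mul_right_cancel₀ haf e3
      ext o
      rcases o with _ | _ | k
      · exact e4
      · rw [h2, hw₀0]
      · exact DFunLike.congr_fun h3 k
    · exact coeff_zero _
  · intro h2
    exact absurd hw₀ h2

end Pool.Agent.Helper26.DMC
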