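import Pool.Agent.Helper26.DMC.Defs

/-! Block DMC-HR (about 130 lines): basic facts on `tw`, `gr`, `HomRel`.
`tw_coeff`: both sides are additive in `F`; check on monomials (`tw` of the monomial `c X^w` is `single (wt a w) (c s^w)`).
`homRel_iff`: from `tw_coeff`.
`HomRel.comp`: `aeval (s ∘ e) F = aeval s (rename e F)`, `tw (s ∘ e) (a ∘ e) F = tw s a (rename e F)`.
`HomRel.congr`: by `homRel_iff` (and `tw_coeff`).
`exists_detect`: the ideal `I = ker (aeval s)` of the Noetherian ring `MvPolynomial κ K` is spanned by a finite set `G`.  If `tw s a` kills `G` then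
it kills `I`.  So if `¬ HomRel K s a` there is `F ∈ G` with `tw s a F ≠ 0`, i.e. `aeval s (gr a t F) ≠ 0` for some `t`.  Let `Q` be the
finite set of the nonzero elements of the form `aeval s (∑_{w ∈ W} monomial w (F.coeff w))`, `F ∈ G`, `W ⊆ F.support`. -/

set_option autoImplicit false

namespace Pool.Agent.Helper26.DMC

open MvPolynomial

variable {K : Type*} [Field K] {R : Type*} [CommRing R] [Algebra K R] {κ : Type*}

private theorem prod_single_aux (s : κ → R) (a : κ → ℤ) (w : κ →₀ ℕ) (T : Finset κ) :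
    (∏ i ∈ T, (AddMonoidAlgebra.single (a i) (s i)) ^ (w i) : AddMonoidAlgebra R ℤ)
      = AddMonoidAlgebra.single (∑ i ∈ T, (w i : ℤ) * a i) (∏ i ∈ T, s i ^ w i) := by
  classical
  induction T using Finset.induction_on with
  | empty =>
      rw [Finset.prod_empty, Finset.sum_empty, Finset.prod_empty]
      rfl
  | insert i T hi ih =>
      rw [Finset.prod_insert hi, Finset.sum_insert hi, Finset.prod_insert hi, ih,
        AddMonoidAlgebra.single_pow, AddMonoidAlgebra.single_mul_single, nsmul_eq_mul]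

private theorem tw_monomial (s : κ → R) (a : κ → ℤ) (w : κ →₀ ℕ) (c : K) :
    tw s a (monomial w c) = AddMonoidAlgebra.single (wt a w) (aeval s (monomial w c)) := by
  rw [tw, aeval_monomial, aeval_monomial, Finsupp.prod, Finsupp.prod, prod_single_aux, wt,
    Finsupp.sum]
  have h : algebraMap K (AddMonoidAlgebra R ℤ) c
      = AddMonoidAlgebra.single 0 (algebraMap K R c) := by
    rw [AddMonoidAlgebra.coe_algebraMap]
    rfl
  rw [h, AddMonoidAlgebra.single_mul_single, zero_add]

theorem tw_coeff (s : κ → R) (a : κ → ℤ) (F : MvPolynomial κ K) (t : ℤ) :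
    (tw s a F).coeff t = aeval s (gr a t F) := by
  classical
  rw [gr, map_sum, Finset.sum_filter]
  conv_lhs => rw [F.as_sum]
  rw [map_sum, AddMonoidAlgebra.coeff_sum, Finsupp.finsetSum_apply]
  refine Finset.sum_congr rfl fun w _ => ?_
  rw [tw_monomial, AddMonoidAlgebra.coeff_single, Finsupp.single_apply]

theorem homRel_iff (s : κ → R) (a : κ → ℤ) :
    HomRel K s a ↔ ∀ F : MvPolynomial κ K, aeval s F = 0 → ∀ t, aeval s (gr a t F) = 0 := by
  constructor
  · intro h F hF t
    rw [← tw_coeff, h F hF]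
    rfl
  · intro h F hF
    ext t
    rw [tw_coeff, h F hF t]
    rfl

theorem HomRel.comp {κ' : Type*} {s : κ → R} {a : κ → ℤ} (h : HomRel K s a) (e : κ' → κ) :
    HomRel K (s ∘ e) (a ∘ e) := by
  intro F hF
  have h1 : aeval s (rename e F) = 0 := by rw [aeval_rename]; exact hF
  have h2 := h _ h1
  rw [tw, aeval_rename] at h2
  exact h2

/-- only the relations of the family matter -/
theorem HomRel.congr {R' : Type*} [CommRing R'] [Algebra K R'] {s : κ → R} {s' : κ → R'}
    (hs : ∀ F : MvPolynomial κ K, aeval s F = 0 ↔ aeval s' F = 0) {a : κ → ℤ}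
    (h : HomRel K s a) : HomRel K s' a := by
  rw [homRel_iff] at h ⊢
  intro F hF t
  rw [← hs]
  exact h F ((hs F).2 hF) t

/-- finitely many nonzero elements detect the failure of homogeneity for all weights -/
theorem exists_detect [Finite κ] (s : κ → R) :
    ∃ Q : Finset R, (0 : R) ∉ Q ∧ ∀ a : κ → ℤ, ¬ HomRel K s a →
      ∃ F : MvPolynomial κ K, aeval s F = 0 ∧ ∃ t, aeval s (gr a t F) ∈ Q := by
  classical
  obtain ⟨G, hG⟩ := (isNoetherian_def.1 (inferInstance : IsNoetherian (MvPolynomial κ K)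
    (MvPolynomial κ K))) (RingHom.ker (aeval s : MvPolynomial κ K →ₐ[K] R))
  refine ⟨(G.biUnion fun F => F.support.powerset.image fun W =>
    aeval s (∑ w ∈ W, monomial w (F.coeff w))).filter (· ≠ 0), by simp, fun a ha => ?_⟩
  have hF : ∃ F ∈ G, tw s a F ≠ 0 := by
    by_contra hcon
    push Not at hcon
    apply ha
    intro F hF
    have hle : RingHom.ker (aeval s : MvPolynomial κ K →ₐ[K] R)
        ≤ RingHom.ker (tw s a : MvPolynomial κ K →ₐ[K] AddMonoidAlgebra R ℤ) := by
      rw [← hG]
      exact Submodule.span_le.2 fun g hg => hcon g hg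
    exact hle hF
  obtain ⟨F, hFG, hF⟩ := hF
  have hFk : aeval s F = 0 := by
    have : F ∈ RingHom.ker (aeval s : MvPolynomial κ K →ₐ[K] R) := by
      rw [← hG]
      exact Submodule.subset_span hFG
    exact this
  have ht : ∃ t, (tw s a F).coeff t ≠ 0 := by
    by_contra hcon
    push Not at hcon
    exact hF (AddMonoidAlgebra.ext (Finsupp.ext fun t => hcon t))
  obtain ⟨t, ht⟩ := ht
  rw [tw_coeff] at ht
  refine ⟨F, hFk, t, ?_⟩
  rw [Finset.mem_filter, Finset.mem_biUnion]
  refine ⟨⟨F, hFG, ?_⟩, ht⟩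
  rw [Finset.mem_image]
  exact ⟨F.support.filter fun w => wt a w = t, by simp, rfl⟩

end Pool.Agent.Helper26.DMC
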