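import Mathlib

/-! Sequences with shift-invariant relations. -/

set_option autoImplicit false

namespace Pool.Agent.Helper26.DMC

open MvPolynomial

variable {K : Type*} [Field K] {R : Type*} [CommRing R] [IsDomain R] [Algebra K R]

/-- The relations of the sequence are invariant under the shift. -/
def Shift (K : Type*) [Field K] {R : Type*} [CommRing R] [Algebra K R] (s : ℕ → R) : Prop :=
  ∃ φ : R →ₐ[K] R, Function.Injective φ ∧ ∀ i, φ (s i) = s (i + 1)

omit [IsDomain R] in
theorem Shift.aeval_iff {s : ℕ → R} (h : Shift K s) {κ : Type*} (e : κ → ℕ) (k : ℕ)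
    (F : MvPolynomial κ K) : aeval (fun j => s (e j + k)) F = 0 ↔ aeval (fun j => s (e j)) F = 0 := by
  obtain ⟨φ, hφ, hs⟩ := h
  induction k with
  | zero => simp
  | succ k ih =>
    rw [← ih]
    have h1 : aeval (fun j => s (e j + (k + 1))) F = φ (aeval (fun j => s (e j + k)) F) := by
      rw [MvPolynomial.comp_aeval_apply]
      congr 2
      funext j
      rw [← add_assoc, hs]
    rw [h1, map_eq_zero_iff φ hφ]

omit [IsDomain R] in
theorem Shift.indep_iff {s : ℕ → R} (h : Shift K s) {κ : Type*} (e : κ → ℕ) (k : ℕ) :
    AlgebraicIndependent K (fun j => s (e j + k)) ↔ AlgebraicIndependent K (fun j => s (e j)) := by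
  rw [algebraicIndependent_iff, algebraicIndependent_iff]
  constructor
  · intro h1 p hp
    exact h1 p ((h.aeval_iff e k p).mpr hp)
  · intro h1 p hp
    exact h1 p ((h.aeval_iff e k p).mp hp)

/-- transcendence degree of a shift-invariant sequence -/
theorem Shift.exists_deg {s : ℕ → R} (h : Shift K s) (h0 : Transcendental K (s 0))
    (hfin : ∃ D : ℕ, ∀ (y : Fin D → R), ¬ AlgebraicIndependent K y) :
    ∃ d : ℕ, 0 < d ∧ AlgebraicIndependent K (fun j : Fin d => s j) ∧
      (∀ k, IsAlgebraic (Algebra.adjoin K (Set.range fun j : Fin d => s (k + j))) (s (k + d))) ∧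
      (∀ k, IsAlgebraic (Algebra.adjoin K (Set.range fun j : Fin d => s (k + 1 + j))) (s k)) ∧
      ∀ {κ : Type} (e : κ → ℕ), AlgebraicIndependent K (fun j => s (e j)) → Finite κ ∧ Nat.card κ ≤ d := by
  classical
  obtain ⟨D, hD⟩ := hfin
  have hex : ∃ d, ¬ AlgebraicIndependent K (fun j : Fin d => s j) := ⟨D, hD _⟩
  set e := Nat.find hex with he
  have he1 : ¬ AlgebraicIndependent K (fun j : Fin e => s j) := Nat.find_spec hex
  have hlt : ∀ d, d < e → AlgebraicIndependent K (fun j : Fin d => s j) := fun d hd =>
    not_not.mp (Nat.find_min hex hd)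
  have hP0 : AlgebraicIndependent K (fun j : Fin 0 => s j) :=
    (algebraicIndependent_empty_type_iff (R := K)).mpr (FaithfulSMul.algebraMap_injective K R)
  have hP1 : AlgebraicIndependent K (fun j : Fin 1 => s j) := by
    rw [algebraicIndependent_unique_type_iff]
    exact h0
  have he2 : 2 ≤ e := by
    by_contra hcon
    have h3 : e = 0 ∨ e = 1 := by omega
    rcases h3 with h3 | h3
    · rw [h3] at he1; exact he1 hP0
    · rw [h3] at he1; exact he1 hP1
  obtain ⟨d, hd⟩ : ∃ d, e = d + 1 := ⟨e - 1, by omega⟩
  rw [hd] at he1
  have hind : AlgebraicIndependent K (fun j : Fin d => s j) := hlt d (by omega)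
  have hindk : ∀ k, AlgebraicIndependent K (fun j : Fin d => s (k + j)) := by
    intro k
    have := (h.indep_iff (fun j : Fin d => (j : ℕ)) k).mpr hind
    refine (by simpa [add_comm] using this)
  have hdepk : ∀ k, ¬ AlgebraicIndependent K (fun j : Fin (d + 1) => s (k + j)) := by
    intro k hk
    apply he1
    refine (h.indep_iff (fun j : Fin (d + 1) => (j : ℕ)) k).mp ?_
    refine (by simpa [add_comm] using hk)
  have halg1 : ∀ k, IsAlgebraic (Algebra.adjoin K (Set.range fun j : Fin d => s (k + j))) (s (k + d)) := by
    intro k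
    by_contra hcon
    apply hdepk k
    have h2 := ((hindk k).option_iff_transcendental (s (k + d))).mpr hcon
    rw [← algebraicIndependent_equiv (finSuccEquivLast (n := d))] at h2
    convert h2 using 1
    funext j
    refine Fin.lastCases ?_ (fun i => ?_) j
    · simp
    · simp
  have halg2 : ∀ k, IsAlgebraic (Algebra.adjoin K (Set.range fun j : Fin d => s (k + 1 + j))) (s k) := by
    intro k
    by_contra hcon
    apply hdepk k
    have h2 := ((hindk (k + 1)).option_iff_transcendental (s k)).mpr hcon
    rw [← algebraicIndependent_equiv (finSuccEquiv d)] at h2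
    convert h2 using 1
    funext j
    refine Fin.cases ?_ (fun i => ?_) j
    · simp
    · simp only [Function.comp_apply, finSuccEquiv_succ, Option.elim_some, Fin.val_succ]
      congr 1
      ring
  refine ⟨d, by omega, hind, halg1, halg2, ?_⟩
  -- the matroid argument
  let M := AlgebraicIndependent.matroid K R
  set B : Set R := Set.range (fun j : Fin d => s j) with hB
  have hcl : ∀ i, s i ∈ M.closure B := by
    intro i
    induction i using Nat.strong_induction_on with
    | _ i ih =>
      rcases lt_or_ge i d with hi | hi
      · exact M.subset_closure B (by simp [M]) ⟨⟨i, hi⟩, rfl⟩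
      · obtain ⟨k, rfl⟩ : ∃ k, i = k + d := ⟨i - d, by omega⟩
        have h3 : s (k + d) ∈ M.closure (Set.range fun j : Fin d => s (k + j)) := by
          rw [AlgebraicIndependent.matroid_closure_eq, SetLike.mem_coe, Subalgebra.mem_algebraicClosure]
          exact halg1 k
        refine M.closure_subset_closure_of_subset_closure ?_ h3
        rintro _ ⟨j, rfl⟩
        exact ih (k + j) (by omega)
  intro κ f hf
  have hI : M.Indep (Set.range fun j => s (f j)) := by
    rw [AlgebraicIndependent.matroid_indep_iff]
    exact hf.to_subtype_range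
  have hsub : (Set.range fun j => s (f j)) ⊆ M.closure B := by
    rintro _ ⟨j, rfl⟩
    exact hcl _
  have hcard : (Set.range fun j => s (f j)).encard ≤ d := by
    refine (hI.encard_le_eRk_of_subset hsub).trans ?_
    rw [M.eRk_closure_eq]
    refine (M.eRk_le_encard B).trans ?_
    rw [hB]
    have h4 : (Set.range fun j : Fin d => s j).encard = d := by
      rw [← Set.image_univ, hind.injective.encard_image, Set.encard_univ]
      simp
    exact h4.le
  have hfinr : (Set.range fun j => s (f j)).Finite := Set.finite_of_encard_le_coe hcard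
  have hfinκ : Finite κ := by
    have := hfinr.to_subtype
    exact Finite.of_injective (Set.rangeFactorization fun j => s (f j))
      (Set.rangeFactorization_injective.mpr hf.injective)
  refine ⟨hfinκ, ?_⟩
  have h5 : (Set.range fun j => s (f j)).encard = Nat.card κ := by
    rw [← Set.image_univ, hf.injective.encard_image, Set.encard_univ, ENat.card_eq_coe_natCard]
  rw [h5] at hcard
  exact_mod_cast hcard

end Pool.Agent.Helper26.DMC
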