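import Mathlib

/-! Block DMC-TR.  `R = K[x_1..x_N]`.
Extend `y` by some of the variables `x_j`, `j ∈ J`, to a transcendence basis of `R` over `K` (`exists_isTranscendenceBasis_between`; the variables generate `R`,
`|J| = N - d` because all transcendence bases have `N` elements).  Every variable `x_i` is algebraic over `A = K[y, x_J]`: choose a polynomial
over `A` with leading coefficient `c_i ≠ 0`, `c_i ∈ A ⊆ R`; `C = ∏ c_i`.  Let `q` be irreducible (so prime), `q ∤ C`.  In the domain `R̄ = R/(q)` the image of the polynomial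
of `x_i` has nonzero leading coefficient, so `R̄` is algebraic over `K[ȳ, x̄_J]`, and the set `{ȳ_k} ∪ {x̄_j : j ∈ J}` contains a transcendence basis `B` of `R̄`.
The transcendence degree of `R̄` is at least `N - 1`: `q` is not constant, some variable `x_i` occurs in it, and the other `N - 1` variables are algebraically
independent modulo `q` (if `F(x_j : j ≠ i) = q A` then compare `degreeOf i`: `A = 0`).  So `B` has at least `N - 1` elements and at least `d - 1` of them come from the `ȳ_k`
(`|J| = N - d`).  `T` = a set of indices `k` of these.  (`N = 0`: no irreducible `q`.) -/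

set_option autoImplicit false

namespace Pool.Agent.Helper26.DMC

open MvPolynomial

variable {K : Type*} [Field K] {N : ℕ}

/-- Modulo an irreducible polynomial the transcendence degree is at least `N - 1`. -/
theorem exists_indep_mod (q : MvPolynomial (Fin N) K) (hq : Irreducible q) :
    ∃ i : Fin N, AlgebraicIndependent K
      (fun j : {j : Fin N // j ≠ i} => Ideal.Quotient.mk (Ideal.span {q}) (X (j : Fin N))) := by
  classical
  have hnc : q.vars ≠ ∅ := by
    intro h
    have hr := vars_eq_empty_iff_eq_C.1 h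
    have hr0 : coeff 0 q ≠ 0 := by
      intro h0
      rw [h0, C_0] at hr
      exact hq.ne_zero hr
    apply hq.not_isUnit
    rw [hr]
    exact (IsUnit.mk0 _ hr0).map C
  obtain ⟨i, hi⟩ := Finset.nonempty_iff_ne_empty.2 hnc
  have hdi : degreeOf i q ≠ 0 := mem_vars_iff_degreeOf_ne_zero.1 hi
  refine ⟨i, ?_⟩
  rw [algebraicIndependent_iff]
  intro F hF
  have h1 : Ideal.Quotient.mk (Ideal.span {q}) (rename (fun j : {j : Fin N // j ≠ i} => (j : Fin N)) F) = 0 := by
    rw [← hF]
    have h := comp_aeval_apply (f := fun j : {j : Fin N // j ≠ i} => (X (j : Fin N) : MvPolynomial (Fin N) K))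
      (Ideal.Quotient.mkₐ K (Ideal.span {q})) F
    simp only [Ideal.Quotient.mkₐ_eq_mk] at h
    rw [← h]
    congr 1
    rw [← aeval_X_left_apply (rename (fun j : {j : Fin N // j ≠ i} => (j : Fin N)) F), aeval_rename]
    rfl
  rw [Ideal.Quotient.eq_zero_iff_mem, Ideal.mem_span_singleton] at h1
  obtain ⟨A, hA⟩ := h1
  by_contra hF0
  have h2 : rename (fun j : {j : Fin N // j ≠ i} => (j : Fin N)) F ≠ 0 := by
    intro h
    exact hF0 (rename_injective _ Subtype.val_injective (by rw [h, map_zero]))
  have hA0 : A ≠ 0 := by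
    rintro rfl
    exact h2 (by rw [hA, mul_zero])
  have h3 : degreeOf i (rename (fun j : {j : Fin N // j ≠ i} => (j : Fin N)) F) = 0 := by
    by_contra h
    obtain ⟨j, -, hj⟩ := mem_vars_rename _ _ (mem_vars_iff_degreeOf_ne_zero.2 h)
    exact j.2 hj
  rw [hA, degreeOf_mul_eq hq.ne_zero hA0] at h3
  omega

theorem exists_bad {d : ℕ} (y : Fin d → MvPolynomial (Fin N) K) (hy : AlgebraicIndependent K y) :
    ∃ C : MvPolynomial (Fin N) K, C ≠ 0 ∧ ∀ q : MvPolynomial (Fin N) K, Irreducible q → ¬ q ∣ C →
      ∃ T : Finset (Fin d), d ≤ T.card + 1 ∧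
        AlgebraicIndependent K (fun k : T => Ideal.Quotient.mk (Ideal.span {q}) (y k)) := by
  classical
  have hadj : Algebra.adjoin K (Set.range y ∪ Set.range (X : Fin N → MvPolynomial (Fin N) K)) = ⊤ := by
    rw [eq_top_iff, ← adjoin_range_X]
    exact Algebra.adjoin_mono Set.subset_union_right
  have halg : Algebra.IsAlgebraic (Algebra.adjoin K (Set.range y ∪ Set.range (X : Fin N → MvPolynomial (Fin N) K))) (MvPolynomial (Fin N) K) := by
    constructor
    intro a
    have ha : a ∈ Algebra.adjoin K (Set.range y ∪ Set.range (X : Fin N → MvPolynomial (Fin N) K)) := by rw [hadj]; trivial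
    exact isAlgebraic_algebraMap (A := MvPolynomial (Fin N) K)
      (⟨a, ha⟩ : Algebra.adjoin K (Set.range y ∪ Set.range (X : Fin N → MvPolynomial (Fin N) K)))
  obtain ⟨u, hyu, hut, hu⟩ := exists_isTranscendenceBasis_between (R := K) (Set.range y)
    (Set.range y ∪ Set.range (X : Fin N → MvPolynomial (Fin N) K)) Set.subset_union_left hy.to_subtype_range
  have hufin : u.Finite := ((Set.finite_range y).union (Set.finite_range _)).subset hut
  have hucard : u.ncard = N := by
    have h1 := hu.cardinalMk_eq_trdeg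
    rw [MvPolynomial.trdeg_of_isDomain] at h1
    have h2 : Cardinal.toNat (Cardinal.mk u) = N := by rw [h1]; simp
    exact h2
  have hycard : (Set.range y).ncard = d := by
    rw [← Set.image_univ, Set.ncard_image_of_injective _ hy.injective, Set.ncard_univ]
    simp
  set J := u \ Set.range y with hJ
  have hJcard : J.ncard + d = N := by
    have := Set.ncard_sdiff_add_ncard_of_subset hyu hufin
    rw [hucard, hycard] at this
    exact this
  have hualg := hu.isAlgebraic
  rw [Subtype.range_coe] at hualg
  -- the polynomials of the variables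
  have hex : ∀ i : Fin N, ∃ p : Polynomial (Algebra.adjoin K u), p ≠ 0 ∧ Polynomial.aeval (X i : MvPolynomial (Fin N) K) p = 0 :=
    fun i => hualg.isAlgebraic (X i : MvPolynomial (Fin N) K)
  choose p hp0 hp using hex
  refine ⟨∏ i, ((p i).leadingCoeff : MvPolynomial (Fin N) K), ?_, ?_⟩
  · rw [Finset.prod_ne_zero_iff]
    intro i _ h
    exact hp0 i (Polynomial.leadingCoeff_eq_zero.1 (Subtype.ext h))
  intro q hq hqC
  have hqp : Prime q := hq.prime
  have : (Ideal.span {q}).IsPrime := (Ideal.span_singleton_prime hq.ne_zero).2 hqp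
  set π : MvPolynomial (Fin N) K →ₐ[K] MvPolynomial (Fin N) K ⧸ Ideal.span {q} := Ideal.Quotient.mkₐ K (Ideal.span {q}) with hπ
  have hπ0 : ∀ r : MvPolynomial (Fin N) K, π r = 0 ↔ q ∣ r := by
    intro r
    rw [hπ, Ideal.Quotient.mkₐ_eq_mk, Ideal.Quotient.eq_zero_iff_mem, Ideal.mem_span_singleton]
  -- the map between the subalgebras
  have hmap : (Algebra.adjoin K u).map π = Algebra.adjoin K (π '' u) := by
    rw [AlgHom.map_adjoin]
  have hmem : ∀ a : Algebra.adjoin K u, π (a : MvPolynomial (Fin N) K) ∈ Algebra.adjoin K (π '' u) := by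
    intro a
    rw [← hmap]
    exact ⟨a, a.2, rfl⟩
  let ρ : Algebra.adjoin K u →ₐ[K] Algebra.adjoin K (π '' u) :=
    (π.comp (Algebra.adjoin K u).val).codRestrict (Algebra.adjoin K (π '' u)) hmem
  have hρ : ∀ a, ((ρ a : Algebra.adjoin K (π '' u)) : MvPolynomial (Fin N) K ⧸ Ideal.span {q}) = π (a : MvPolynomial (Fin N) K) := fun a => rfl
  have hXalg : ∀ i : Fin N, IsAlgebraic (Algebra.adjoin K (π '' u)) (π (X i : MvPolynomial (Fin N) K)) := by
    intro i
    refine ⟨(p i).map (ρ : Algebra.adjoin K u →+* Algebra.adjoin K (π '' u)), ?_, ?_⟩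
    · intro h
      have h1 : ((p i).map (ρ : Algebra.adjoin K u →+* Algebra.adjoin K (π '' u))).coeff (p i).natDegree = 0 := by
        rw [h, Polynomial.coeff_zero]
      rw [Polynomial.coeff_map] at h1
      have h2 : π ((p i).leadingCoeff : MvPolynomial (Fin N) K) = 0 := by
        rw [← hρ]
        exact congrArg Subtype.val h1
      rw [hπ0] at h2
      exact hqC (h2.trans (Finset.dvd_prod_of_mem _ (Finset.mem_univ i)))
    · have h1 : Polynomial.aeval (π (X i : MvPolynomial (Fin N) K)) ((p i).map (ρ : Algebra.adjoin K u →+* Algebra.adjoin K (π '' u)))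
          = π (Polynomial.aeval (X i : MvPolynomial (Fin N) K) (p i)) := by
        rw [Polynomial.aeval_def, Polynomial.eval₂_map, Polynomial.aeval_def]
        have := Polynomial.hom_eval₂ (p i) (algebraMap (Algebra.adjoin K u) (MvPolynomial (Fin N) K)) (π : MvPolynomial (Fin N) K →+* MvPolynomial (Fin N) K ⧸ Ideal.span {q}) (X i : MvPolynomial (Fin N) K)
        rw [RingHom.coe_coe] at this
        rw [this]
        rfl
      rw [h1, hp i, map_zero]
  have hRalg : Algebra.IsAlgebraic (Algebra.adjoin K (π '' u)) (MvPolynomial (Fin N) K ⧸ Ideal.span {q}) := by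
    constructor
    intro a
    refine IsAlgebraic.adjoin_of_forall_isAlgebraic (R := K) (s := Set.range (fun i : Fin N => π (X i : MvPolynomial (Fin N) K))) ?_ ?_
    · rintro _ ⟨⟨i, rfl⟩, -⟩
      exact hXalg i
    · have htop : Algebra.adjoin K (Set.range (fun i : Fin N => π (X i : MvPolynomial (Fin N) K))) = ⊤ := by
        have : Set.range (fun i : Fin N => π (X i : MvPolynomial (Fin N) K)) = π '' Set.range (X : Fin N → MvPolynomial (Fin N) K) := by
          rw [← Set.range_comp]; rfl
        rw [this, ← AlgHom.map_adjoin, adjoin_range_X, Algebra.map_top]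
        exact AlgHom.range_eq_top π |>.2 (Ideal.Quotient.mkₐ_surjective K _)
      have ha : a ∈ Algebra.adjoin K (Set.range (fun i : Fin N => π (X i : MvPolynomial (Fin N) K))) := by rw [htop]; trivial
      exact isAlgebraic_algebraMap (A := MvPolynomial (Fin N) K ⧸ Ideal.span {q})
        (⟨a, ha⟩ : Algebra.adjoin K (Set.range (fun i : Fin N => π (X i : MvPolynomial (Fin N) K))))
  obtain ⟨B, hBu, hB⟩ := exists_isTranscendenceBasis_subset (R := K) (π '' u)
  have hBfin : B.Finite := (hufin.image π).subset hBu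
  have hBcard : N ≤ B.ncard + 1 := by
    obtain ⟨i, hi⟩ := exists_indep_mod q hq
    have h1 := hi.lift_cardinalMk_le_trdeg
    rw [← hB.cardinalMk_eq_trdeg] at h1
    have h2 := Cardinal.toNat_le_toNat h1 (by
      rw [Cardinal.lift_lt_aleph0]
      exact Cardinal.lt_aleph0_iff_set_finite.2 hBfin)
    rw [Cardinal.toNat_lift, Cardinal.toNat_lift] at h2
    have h3 : Cardinal.toNat (Cardinal.mk {x // x ∈ B}) = B.ncard := rfl
    rw [h3] at h2
    have h4 : Cardinal.toNat (Cardinal.mk {j : Fin N // j ≠ i}) = N - 1 := by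
      simp [Fintype.card_subtype_compl]
    omega
  -- choose the indices
  have hsplit : B ⊆ (B ∩ Set.range (fun k => π (y k))) ∪ π '' J := by
    intro b hb
    obtain ⟨r, hr, rfl⟩ := hBu hb
    by_cases hry : r ∈ Set.range y
    · obtain ⟨k, rfl⟩ := hry
      exact Or.inl ⟨hb, k, rfl⟩
    · exact Or.inr ⟨r, ⟨hr, hry⟩, rfl⟩
  have hchoose : ∀ b : (B ∩ Set.range (fun k => π (y k)) : Set (MvPolynomial (Fin N) K ⧸ Ideal.span {q})), ∃ k, π (y k) = b := fun b => b.2.2
  choose κ hκ using hchoose
  have hκinj : Function.Injective κ := by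
    intro b b' h
    apply Subtype.ext
    rw [← hκ b, ← hκ b', h]
  have hB1fin : (B ∩ Set.range (fun k => π (y k))).Finite := hBfin.inter_of_left _
  have := hB1fin.fintype
  refine ⟨Finset.univ.image κ, ?_, ?_⟩
  · have h1 : (Finset.univ.image κ).card = (B ∩ Set.range (fun k => π (y k))).ncard := by
      rw [Finset.card_image_of_injective _ hκinj, Finset.card_univ, Set.ncard_eq_toFinset_card', Set.toFinset_card]
    have hJfin : J.Finite := hufin.sdiff
    have h2 : B.ncard ≤ (B ∩ Set.range (fun k => π (y k))).ncard + J.ncard :=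
      calc B.ncard ≤ ((B ∩ Set.range (fun k => π (y k))) ∪ π '' J).ncard :=
            Set.ncard_le_ncard hsplit (hB1fin.union (hJfin.image π))
        _ ≤ (B ∩ Set.range (fun k => π (y k))).ncard + (π '' J).ncard := Set.ncard_union_le _ _
        _ ≤ _ := Nat.add_le_add_left (Set.ncard_image_le hJfin) _
    omega
  · have hmemB : ∀ k : (Finset.univ.image κ : Finset (Fin d)), π (y k) ∈ B := by
      rintro ⟨k, hk⟩
      obtain ⟨b, -, rfl⟩ := Finset.mem_image.1 hk
      rw [hκ b]
      exact b.2.1
    have hcomp := hB.1.comp (fun k : (Finset.univ.image κ : Finset (Fin d)) => (⟨π (y k), hmemB k⟩ : B)) (by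
      rintro ⟨k, hk⟩ ⟨k', hk'⟩ h
      obtain ⟨b, -, rfl⟩ := Finset.mem_image.1 hk
      obtain ⟨b', -, rfl⟩ := Finset.mem_image.1 hk'
      have h' : π (y (κ b)) = π (y (κ b')) := congrArg Subtype.val h
      rw [hκ, hκ] at h'
      have : b = b' := Subtype.ext h'
      subst this
      rfl)
    exact hcomp

end Pool.Agent.Helper26.DMC
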