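import Pool.Agent.Helper26.DMC.HR
import Pool.Agent.Helper26.DMC.HA
import Pool.Agent.Helper26.DMC.TR
import Pool.Agent.Helper26.DMC.SEQ

/-! Block DMC-KEY (helper26): no torus acts on the relations. -/

set_option autoImplicit false

namespace Pool.Agent.Helper26.DMC

open MvPolynomial

variable {K : Type*} [Field K] {N : ℕ}

lemma not_isUnit_of_ne_C {f : MvPolynomial (Fin N) K} (hf : ∀ c, f ≠ C c) : ¬ IsUnit f := by
  intro h
  obtain ⟨r, _, hr⟩ := MvPolynomial.isUnit_iff_eq_C_of_isReduced.mp h
  exact hf r hr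

lemma transcendental_of_ne_C {f : MvPolynomial (Fin N) K} (hf : ∀ c, f ≠ C c) :
    Transcendental K f := by
  intro halg
  have h1 : IsAlgebraic K (f - C (constantCoeff f)) := by
    have h2 : IsAlgebraic K (algebraMap K (MvPolynomial (Fin N) K) (constantCoeff f)) :=
      isAlgebraic_algebraMap _
    exact halg.sub h2
  have h3 : f - C (constantCoeff f) ≠ 0 := by
    intro h
    exact hf _ (sub_eq_zero.mp h)
  have h4 : IsUnit (f - C (constantCoeff f)) := h1.isIntegral.isUnit h3
  have h5 : IsUnit (constantCoeff (f - C (constantCoeff f))) := h4.map _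
  rw [map_sub, constantCoeff_C, sub_self] at h5
  exact not_isUnit_zero h5

lemma not_indep (y : Fin (N + 1) → MvPolynomial (Fin N) K) : ¬ AlgebraicIndependent K y := by
  intro h
  have h1 := h.lift_cardinalMk_le_trdeg
  rw [MvPolynomial.trdeg_of_isDomain] at h1
  simp only [Cardinal.mk_fin, Cardinal.lift_natCast, Nat.cast_le] at h1
  omega

/-- in a sequence with the contraction property a large index has a prime factor which is not bad -/
theorem exists_prime (s : ℕ → MvPolynomial (Fin N) K) (m : ℕ) (b : ℕ → K) (hb : ∀ k, b k ≠ 0)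
    (hs : ∀ i k, s i ∣ s (i + m + k) - C (b k)) (hnc : ∀ i c, s i ≠ C c)
    (B : MvPolynomial (Fin N) K) (hB : B ≠ 0) :
    ∃ i q, Irreducible q ∧ q ∣ s i ∧ ¬ q ∣ B := by
  classical
  have h1 : ∀ p : MvPolynomial (Fin N) K, Irreducible p → ∃ J, ∀ j, J ≤ j → ¬ p ∣ s j := by
    intro p hp
    by_cases hex : ∃ i, p ∣ s i
    · obtain ⟨i, hi⟩ := hex
      refine ⟨i + m, fun j hj hpj => ?_⟩
      obtain ⟨k, rfl⟩ := Nat.exists_eq_add_of_le hj
      have h2 : p ∣ C (b k) := by
        have h3 := hi.trans (hs i k)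
        have h4 := dvd_sub hpj h3
        rwa [sub_sub_cancel] at h4
      have h5 : IsUnit (C (b k) : MvPolynomial (Fin N) K) :=
        (IsUnit.mk0 _ (hb k)).map C
      exact hp.not_isUnit (isUnit_of_dvd_unit h2 h5)
    · push Not at hex
      exact ⟨0, fun j _ => hex j⟩
  choose J hJ using h1
  let T := (UniqueFactorizationMonoid.factors B).toFinset
  have hT : ∀ p ∈ T, Irreducible p := fun p hp =>
    UniqueFactorizationMonoid.irreducible_of_factor p (Multiset.mem_toFinset.mp hp)
  let M : ℕ := T.attach.sup fun p => J p.1 (hT p.1 p.2)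
  obtain ⟨q, hq, hqd⟩ := WfDvdMonoid.exists_irreducible_factor (not_isUnit_of_ne_C (hnc M))
    (by have := hnc M 0; rwa [map_zero] at this)
  refine ⟨M, q, hq, hqd, fun hqB => ?_⟩
  obtain ⟨p, hp, hpq⟩ := UniqueFactorizationMonoid.exists_mem_factors_of_dvd hB hq hqB
  have hpT : p ∈ T := Multiset.mem_toFinset.mpr hp
  refine hJ p (hT p hpT) M ?_ (hpq.symm.dvd.trans hqd)
  exact Finset.le_sup (f := fun p : T => J p.1 (hT p.1 p.2)) (Finset.mem_attach T ⟨p, hpT⟩)

theorem key (s : ℕ → MvPolynomial (Fin N) K) (hsh : Shift K s) (m : ℕ) (b : ℕ → K)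
    (hb : ∀ k, b k ≠ 0) (hs : ∀ i k, s i ∣ s (i + m + k) - C (b k)) (hnc : ∀ i c, s i ≠ C c) :
    ∃ L₀ : ℕ, ∀ L, L₀ ≤ L → ∀ a : Fin L → ℤ, HomRel K (fun j : Fin L => s j) a → a = 0 := by
  classical
  have hs0 : ∀ i, s i ≠ 0 := fun i => by have := hnc i 0; rwa [map_zero] at this
  obtain ⟨d, hd0, hind, halg1, halg2, hcard⟩ := hsh.exists_deg (transcendental_of_ne_C (hnc 0))
    ⟨N + 1, not_indep⟩
  obtain ⟨B, hB, hbad⟩ := exists_bad (fun j : Fin d => s j) hind
  obtain ⟨i, q, hq, hqi, hqB⟩ := exists_prime s m b hb hs hnc B hB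
  obtain ⟨T, hT, hTind⟩ := hbad q hq hqB
  set L₁ := max d (i + m + 1) with hL₁
  have hdL : d ≤ L₁ := le_max_left _ _
  have hiL : i + m + 1 ≤ L₁ := le_max_right _ _
  -- the first window
  have claimA0 : ∀ a : Fin L₁ → ℤ, HomRel K (fun j : Fin L₁ => s j) a → a ⟨i + m, by omega⟩ = 0 := by
    intro a ha
    let e : Option (Option T) → Fin L₁ := fun o => o.elim ⟨i + m, by omega⟩
      (fun o' => o'.elim ⟨i, by omega⟩ (fun t => ⟨t.1, by omega⟩))
    have h1 := ha.comp e
    have e1 : (fun j : Fin L₁ => s j) ∘ e = fun o : Option (Option T) =>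
        o.elim (s (i + m)) (fun o' => o'.elim (s i) (fun t => s t.1)) := by
      funext o
      rcases o with _ | _ | t <;> rfl
    have e2 : a ∘ e = fun o : Option (Option T) =>
        o.elim (a ⟨i + m, by omega⟩) (fun o' => o'.elim (a ⟨i, by omega⟩)
          (fun t => a ⟨t.1, by omega⟩)) := by
      funext o
      rcases o with _ | _ | t <;> rfl
    rw [e1, e2] at h1
    refine h1.eq_zero_of_ideal (hs0 i) (Ideal.span {q}) (b 0) (hb 0)
      (Ideal.mem_span_singleton.mpr hqi) ?_ hTind ?_
    · rw [Ideal.mem_span_singleton]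
      have := hqi.trans (hs i 0)
      rwa [add_zero] at this
    · intro hcon
      let f : Option (Option T) → ℕ := fun o => o.elim (i + m) (fun o' => o'.elim i (fun t => t.1))
      have e3 : (fun o : Option (Option T) =>
          o.elim (s (i + m)) (fun o' => o'.elim (s i) (fun t => s t.1))) = fun o => s (f o) := by
        funext o
        rcases o with _ | _ | t <;> rfl
      rw [e3] at hcon
      have h2 := (hcard f hcon).2
      rw [Nat.card_eq_fintype_card, Fintype.card_option, Fintype.card_option,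
        Fintype.card_coe] at h2
      omega
  -- all windows
  have claimA : ∀ (k : ℕ) (a : ℕ → ℤ),
      HomRel K (fun j : Fin L₁ => s (k + j)) (fun j : Fin L₁ => a (k + j)) → a (k + (i + m)) = 0 := by
    intro k a ha
    have h1 : HomRel K (fun j : Fin L₁ => s j) (fun j : Fin L₁ => a (k + j)) := by
      refine HomRel.congr ?_ ha
      intro F
      have := hsh.aeval_iff (fun j : Fin L₁ => (j : ℕ)) k F
      simpa only [add_comm] using this
    exact claimA0 _ h1
  refine ⟨2 * L₁, fun L hL a ha => ?_⟩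
  let a' : ℕ → ℤ := fun j => if h : j < L then a ⟨j, h⟩ else 0
  have ha' : ∀ j : Fin L, a' j = a j := by
    intro j
    simp only [a', j.2, dif_pos, Fin.eta]
  have hz1 : ∀ k, k + L₁ ≤ L → a' (k + (i + m)) = 0 := by
    intro k hk
    apply claimA k a'
    have h1 := ha.comp (fun j : Fin L₁ => (⟨k + j, by omega⟩ : Fin L))
    have e2 : a ∘ (fun j : Fin L₁ => (⟨k + j, by omega⟩ : Fin L)) = fun j : Fin L₁ => a' (k + j) := by
      funext j
      exact (ha' ⟨k + j, by omega⟩).symm
    rw [e2] at h1
    exact h1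
  have hup : ∀ j, j < L → (∀ t < d, a' (j - d + t) = 0) → d ≤ j → a' j = 0 := by
    intro j hj h0 hdj
    have h1 := ha.comp (fun o : Option (Fin d) => o.elim (⟨j, hj⟩ : Fin L)
      (fun t => ⟨j - d + t, by omega⟩))
    have e1 : (fun j : Fin L => s j) ∘ (fun o : Option (Fin d) => o.elim (⟨j, hj⟩ : Fin L)
        (fun t => ⟨j - d + t, by omega⟩)) = fun o : Option (Fin d) =>
          o.elim (s j) (fun t => s (j - d + t)) := by
      funext o
      rcases o with _ | t <;> rfl
    have e2 : a ∘ (fun o : Option (Fin d) => o.elim (⟨j, hj⟩ : Fin L)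
        (fun t => ⟨j - d + t, by omega⟩)) = fun o : Option (Fin d) =>
          o.elim (a' j) (fun t => a' (j - d + t)) := by
      funext o
      rcases o with _ | t
      · exact (ha' ⟨j, hj⟩).symm
      · exact (ha' ⟨j - d + t, by omega⟩).symm
    rw [e1, e2] at h1
    refine h1.eq_zero_of_algebraic (hs0 j) (fun t => h0 t t.2) ?_
    have h2 := halg1 (j - d)
    rwa [Nat.sub_add_cancel hdj] at h2
  have hdown : ∀ j, j + d < L → (∀ t < d, a' (j + 1 + t) = 0) → a' j = 0 := by
    intro j hj h0
    have h1 := ha.comp (fun o : Option (Fin d) => o.elim (⟨j, by omega⟩ : Fin L)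
      (fun t => ⟨j + 1 + t, by omega⟩))
    have e1 : (fun j : Fin L => s j) ∘ (fun o : Option (Fin d) => o.elim (⟨j, by omega⟩ : Fin L)
        (fun t => ⟨j + 1 + t, by omega⟩)) = fun o : Option (Fin d) =>
          o.elim (s j) (fun t => s (j + 1 + t)) := by
      funext o
      rcases o with _ | t <;> rfl
    have e2 : a ∘ (fun o : Option (Fin d) => o.elim (⟨j, by omega⟩ : Fin L)
        (fun t => ⟨j + 1 + t, by omega⟩)) = fun o : Option (Fin d) =>
          o.elim (a' j) (fun t => a' (j + 1 + t)) := by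
      funext o
      rcases o with _ | t
      · exact (ha' ⟨j, by omega⟩).symm
      · exact (ha' ⟨j + 1 + t, by omega⟩).symm
    rw [e1, e2] at h1
    exact h1.eq_zero_of_algebraic (hs0 j) (fun t => h0 t t.2) (halg2 j)
  have hhigh : ∀ j, j < L → i + m ≤ j → a' j = 0 := by
    intro j
    induction j using Nat.strong_induction_on with
    | _ j ih =>
      intro hj hc
      rcases le_or_gt (j - (i + m) + L₁) L with h | h
      · have := hz1 (j - (i + m)) h
        rwa [Nat.sub_add_cancel hc] at this
      · apply hup j hj _ (by omega)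
        intro t ht
        exact ih (j - d + t) (by omega) (by omega) (by omega)
  have hlow : ∀ t, t ≤ i + m → a' (i + m - t) = 0 := by
    intro t
    induction t using Nat.strong_induction_on with
    | _ t ih =>
      intro ht
      rcases Nat.eq_zero_or_pos t with h0 | h0
      · subst h0
        rw [Nat.sub_zero]
        exact hhigh _ (by omega) le_rfl
      · apply hdown _ (by omega)
        intro u hu
        rcases lt_or_ge (i + m - t + 1 + u) (i + m) with h | h
        · have := ih (t - 1 - u) (by omega) (by omega)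
          rwa [show i + m - (t - 1 - u) = i + m - t + 1 + u by omega] at this
        · exact hhigh _ (by omega) h
  funext j
  rw [Pi.zero_apply, ← ha' j]
  rcases lt_or_ge (j : ℕ) (i + m) with h | h
  · have := hlow (i + m - j) (by omega)
    rwa [show i + m - (i + m - (j : ℕ)) = j by omega] at this
  · exact hhigh j j.2 h

end Pool.Agent.Helper26.DMC
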