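import Pool.Agent.Helper26.DMC.Defs

/-! Block DMC-NO: Noetherian arguments.
`noeth`: the ideals `I_M = (F ∘ Φ^j : j ≤ M)` of `MvPolynomial ι K` are stationary; take `M` with
`I_M = I_{M'}` for all `M' ≥ M`.  If `F(Φ^j x) = 0` for `j ≤ M` then all elements of `I_M`
vanish at `x`, in particular `F ∘ Φ^j` for all `j`.
`determ`: apply `noeth` on `ι ⊕ ι` to the map `Φ × Φ` and the polynomial
`rename Sum.inl h - rename Sum.inr h`. -/

set_option autoImplicit false

namespace Pool.Agent.Helper26.DMC

open MvPolynomial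

variable {K : Type*} [Field K] {ι : Type*} [Finite ι]

omit [Finite ι] in
private theorem no_eval_iter (Φ : ι → MvPolynomial ι K) (x : ι → K) (j : ℕ) :
    (fun i => eval x (iter Φ j i)) = (pmap Φ)^[j] x := by
  induction j with
  | zero => funext i; simp [iter]
  | succ m ih =>
    funext i
    rw [Function.iterate_succ_apply']
    simp only [pmap, iter]
    have h1 : eval x (bind₁ (iter Φ m) (Φ i)) = eval (fun i => eval x (iter Φ m i)) (Φ i) := by
      have := aeval_bind₁ (R := K) (g := iter Φ m) (f := x) (Φ i)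
      simpa [coe_aeval_eq_eval] using this
    rw [h1, ih]

omit [Finite ι] in
private theorem no_eval_bind (Φ : ι → MvPolynomial ι K) (F : MvPolynomial ι K) (x : ι → K)
    (j : ℕ) : eval x (bind₁ (iter Φ j) F) = eval ((pmap Φ)^[j] x) F := by
  have h1 : eval x (bind₁ (iter Φ j) F) = eval (fun i => eval x (iter Φ j i)) F := by
    have := aeval_bind₁ (R := K) (g := iter Φ j) (f := x) F
    simpa [coe_aeval_eq_eval] using this
  rw [h1, no_eval_iter]

theorem noeth (Φ : ι → MvPolynomial ι K) (F : MvPolynomial ι K) :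
    ∃ M : ℕ, ∀ x : ι → K, (∀ j, j ≤ M → eval ((pmap Φ)^[j] x) F = 0) →
      ∀ j, eval ((pmap Φ)^[j] x) F = 0 := by
  classical
  let I : ℕ →o Ideal (MvPolynomial ι K) :=
    ⟨fun M => Ideal.span ((fun j => bind₁ (iter Φ j) F) '' {j | j ≤ M}), by
      intro a b hab
      apply Ideal.span_mono
      apply Set.image_mono
      intro j hj
      exact le_trans hj hab⟩
  obtain ⟨M, hM⟩ := (monotone_stabilizes_iff_noetherian (R := MvPolynomial ι K)
    (M := MvPolynomial ι K)).mpr inferInstance I
  refine ⟨M, fun x hx j => ?_⟩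
  rw [← no_eval_bind]
  have hmem : bind₁ (iter Φ j) F ∈ I M := by
    rcases le_total j M with h | h
    · exact Ideal.subset_span ⟨j, h, rfl⟩
    · rw [hM j h]
      exact Ideal.subset_span ⟨j, (show j ≤ j from le_refl _), rfl⟩
  have hle : I M ≤ RingHom.ker (eval x) := by
    refine Ideal.span_le.mpr ?_
    rintro _ ⟨i, hi, rfl⟩
    simp only [SetLike.mem_coe, RingHom.mem_ker]
    rw [no_eval_bind]
    exact hx i hi
  exact (RingHom.mem_ker).mp (hle hmem)

theorem determ (Φ : ι → MvPolynomial ι K) (h : MvPolynomial ι K) :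
    ∃ M : ℕ, ∀ x y : ι → K,
      (∀ j, j ≤ M → eval ((pmap Φ)^[j] x) h = eval ((pmap Φ)^[j] y) h) →
      ∀ j, eval ((pmap Φ)^[j] x) h = eval ((pmap Φ)^[j] y) h := by
  classical
  let Ψ : ι ⊕ ι → MvPolynomial (ι ⊕ ι) K :=
    Sum.elim (fun i => rename Sum.inl (Φ i)) (fun i => rename Sum.inr (Φ i))
  let G : MvPolynomial (ι ⊕ ι) K := rename Sum.inl h - rename Sum.inr h
  obtain ⟨M, hM⟩ := noeth Ψ G
  have hit : ∀ (x y : ι → K) (j : ℕ),
      (pmap Ψ)^[j] (Sum.elim x y) = Sum.elim ((pmap Φ)^[j] x) ((pmap Φ)^[j] y) := by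
    intro x y j
    induction j with
    | zero => rfl
    | succ m ih =>
      rw [Function.iterate_succ_apply', Function.iterate_succ_apply',
        Function.iterate_succ_apply', ih]
      funext i
      rcases i with i | i
      · simp only [pmap, Ψ, Sum.elim_inl, eval_rename]
        rfl
      · simp only [pmap, Ψ, Sum.elim_inr, eval_rename]
        rfl
  have hev : ∀ (x y : ι → K) (j : ℕ), eval ((pmap Ψ)^[j] (Sum.elim x y)) G
      = eval ((pmap Φ)^[j] x) h - eval ((pmap Φ)^[j] y) h := by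
    intro x y j
    rw [hit]
    simp only [G, map_sub, eval_rename]
    rfl
  refine ⟨M, fun x y hxy j => ?_⟩
  have h1 := hM (Sum.elim x y) (fun j hj => by rw [hev, hxy j hj, sub_self]) j
  rw [hev] at h1
  exact sub_eq_zero.mp h1

end Pool.Agent.Helper26.DMC
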