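import Pool.Agent.Helper26.DMC.DY

/-! Block DMC-UN (about 150 lines).
`integral_orbit`: for all but finitely many finite places `v` all coefficients of the `Φ i`, of the `F ∈ Fs` and all `α i` satisfy `v ≤ 1`
(for one element of `K`: Mathlib `FinitePlace.mulSupport_finite` or `Pool.Agent.V2.finS_nv`; `v 0 = 0`).  For such `v`, by induction, `v (x_n i) ≤ 1`, and `v (eval x F) ≤ 1` if the coefficients of `F` and the
`x i` are `≤ 1` (ultrametric inequality for finite sums, `FinitePlace.add_le`).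
`unit_before`: let `F ∈ V`, `w = F(Φ^k β) ≠ 0`.  By `Contr.dvd`, `bind₁ (iter Φ (m + k)) F - C w = h * G`.  Apply `integral_orbit` to `Fs = {h, G}` and let `S` contain also the finitely many `v` with `v w ≠ 1`.  If
`F(x_{i+m+k}) = 0` then, evaluating at `x_i`, `-w = h(x_i) G(x_i)`, so `h(x_i) ≠ 0` and for `v ∉ S`: `1 = v w = v(h(x_i)) v(G(x_i))` with both factors `≤ 1`. -/

set_option autoImplicit false

namespace Pool.Agent.Helper26.DMC

open MvPolynomial NumberField

variable {K : Type*} [Field K] [NumberField K] {ι : Type*} [Finite ι]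

omit [Finite ι] in
theorem finite_ne_one {x : K} (hx : x ≠ 0) : {v : FinitePlace K | v x ≠ 1}.Finite :=
  FinitePlace.hasFiniteMulSupport hx

omit [Finite ι] in
theorem finite_gt_one (x : K) : {v : FinitePlace K | ¬ v x ≤ 1}.Finite := by
  by_cases hx : x = 0
  · subst hx
    simp
  · refine (finite_ne_one hx).subset ?_
    intro v hv h1
    exact hv (le_of_eq h1)

omit [Finite ι] in
theorem sum_le_one (v : FinitePlace K) {σ : Type*} (s : Finset σ) (f : σ → K)
    (hf : ∀ i ∈ s, v (f i) ≤ 1) : v (∑ i ∈ s, f i) ≤ 1 := by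
  classical
  induction s using Finset.induction_on with
  | empty => simp
  | insert a s ha ih =>
    rw [Finset.sum_insert ha]
    refine (FinitePlace.add_le v _ _).trans (max_le (hf a (Finset.mem_insert_self a s)) ?_)
    exact ih fun i hi => hf i (Finset.mem_insert_of_mem hi)

omit [Finite ι] in
theorem eval_le_one (v : FinitePlace K) (F : MvPolynomial ι K)
    (hF : ∀ w ∈ F.support, v (F.coeff w) ≤ 1) (x : ι → K) (hx : ∀ i, v (x i) ≤ 1) :
    v (eval x F) ≤ 1 := by
  rw [eval_eq]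
  refine sum_le_one v _ _ fun w hw => ?_
  rw [map_mul, map_prod]
  refine mul_le_one₀ (hF w hw) (Finset.prod_nonneg fun i _ => apply_nonneg v _) ?_
  refine Finset.prod_le_one (fun i _ => apply_nonneg v _) fun i _ => ?_
  rw [map_pow]
  exact pow_le_one₀ (apply_nonneg v _) (hx i)

omit [Finite ι] in
theorem finite_bad (F : MvPolynomial ι K) :
    {v : FinitePlace K | ¬ ∀ w ∈ F.support, v (F.coeff w) ≤ 1}.Finite := by
  have h : {v : FinitePlace K | ¬ ∀ w ∈ F.support, v (F.coeff w) ≤ 1} ⊆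
      ⋃ w ∈ F.support, {v : FinitePlace K | ¬ v (F.coeff w) ≤ 1} := by
    intro v hv
    have hv' : ¬ ∀ w ∈ F.support, v (F.coeff w) ≤ 1 := hv
    push Not at hv'
    obtain ⟨w, hw, h1⟩ := hv'
    refine Set.mem_iUnion₂.mpr ⟨w, hw, ?_⟩
    exact not_le.mpr h1
  exact (Set.Finite.biUnion F.support.finite_toSet fun w _ => finite_gt_one _).subset h

theorem integral_orbit (Φ : ι → MvPolynomial ι K) (α : ι → K) (Fs : Finset (MvPolynomial ι K)) :
    ∃ S : Finset (FinitePlace K), ∀ v : FinitePlace K, v ∉ S → ∀ F ∈ Fs, ∀ n,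
      v (eval ((pmap Φ)^[n] α) F) ≤ 1 := by
  have h1 : (⋃ i, {v : FinitePlace K | ¬ ∀ w ∈ (Φ i).support, v ((Φ i).coeff w) ≤ 1}).Finite :=
    Set.finite_iUnion fun i => finite_bad (Φ i)
  have h2 : (⋃ i, {v : FinitePlace K | ¬ v (α i) ≤ 1}).Finite :=
    Set.finite_iUnion fun i => finite_gt_one (α i)
  have h3 : (⋃ F ∈ Fs, {v : FinitePlace K | ¬ ∀ w ∈ F.support, v (F.coeff w) ≤ 1}).Finite :=
    Set.Finite.biUnion Fs.finite_toSet fun F _ => finite_bad F
  refine ⟨((h1.union h2).union h3).toFinset, fun v hv F hF n => ?_⟩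
  rw [Set.Finite.mem_toFinset] at hv
  have hΦ : ∀ i, ∀ w ∈ (Φ i).support, v ((Φ i).coeff w) ≤ 1 := by
    intro i
    by_contra h0
    exact hv (Or.inl (Or.inl (Set.mem_iUnion.mpr ⟨i, h0⟩)))
  have hα : ∀ i, v (α i) ≤ 1 := by
    intro i
    by_contra h0
    exact hv (Or.inl (Or.inr (Set.mem_iUnion.mpr ⟨i, h0⟩)))
  have hF1 : ∀ w ∈ F.support, v (F.coeff w) ≤ 1 := by
    by_contra h0
    exact hv (Or.inr (Set.mem_iUnion₂.mpr ⟨F, hF, h0⟩))
  have horb : ∀ n i, v ((pmap Φ)^[n] α i) ≤ 1 := by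
    intro n
    induction n with
    | zero => exact hα
    | succ n ih =>
      intro i
      rw [Function.iterate_succ_apply']
      exact eval_le_one v (Φ i) (hΦ i) _ ih
  exact eval_le_one v F hF1 _ (horb n)

theorem unit_before {Φ : ι → MvPolynomial ι K} {h : MvPolynomial ι K} {m : ℕ} {β : ι → K}
    (hc : Contr Φ h m β) (α : ι → K) (V : Set (MvPolynomial ι K)) (k : ℕ)
    (hk : ∃ F ∈ V, eval ((pmap Φ)^[k] β) F ≠ 0) :
    ∃ S : Finset (FinitePlace K), ∀ i : ℕ, (∀ F ∈ V, eval ((pmap Φ)^[i + m + k] α) F = 0) →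
      eval ((pmap Φ)^[i] α) h ≠ 0 ∧
        ∀ v : FinitePlace K, v ∉ S → v (eval ((pmap Φ)^[i] α) h) = 1 := by
  classical
  obtain ⟨F, hFV, hw⟩ := hk
  obtain ⟨G, hG⟩ := hc.dvd k F
  obtain ⟨S, hS⟩ := integral_orbit Φ α {h, G}
  refine ⟨S ∪ (finite_ne_one hw).toFinset, fun i hi => ?_⟩
  have h1 := congrArg (eval ((pmap Φ)^[i] α)) hG
  rw [map_sub, eval_bind_iter, ← Function.iterate_add_apply, eval_C, map_mul] at h1
  have h2 : m + k + i = i + m + k := by ring
  rw [h2, hi F hFV, zero_sub] at h1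
  have h3 : eval ((pmap Φ)^[i] α) h ≠ 0 := by
    intro h0
    rw [h0, zero_mul, neg_eq_zero] at h1
    exact hw h1
  refine ⟨h3, fun v hv => ?_⟩
  rw [Finset.mem_union, Set.Finite.mem_toFinset, not_or] at hv
  have hvw : v (eval ((pmap Φ)^[k] β) F) = 1 := by
    by_contra h0
    exact hv.2 h0
  have hvh := hS v hv.1 h (by simp) i
  have hvG := hS v hv.1 G (by simp) i
  have h4 := congrArg v h1
  rw [map_mul, map_neg_eq_map, hvw] at h4
  have hn1 : 0 ≤ v (eval ((pmap Φ)^[i] α) h) := apply_nonneg v _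
  have hn2 : 0 ≤ v (eval ((pmap Φ)^[i] α) G) := apply_nonneg v _
  nlinarith [mul_nonneg hn1 (sub_nonneg.mpr hvG)]

end Pool.Agent.Helper26.DMC
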