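import Pool.Agent.Helper26.DMC.Defs
import Pool.Agent.Helper26.DMC.SU2

/-! Block DMC-WI: from `sunit_grade`.
Let `Λ = {a ∈ ℤ^L : ∃ c ≠ 0, ∏_j u_j^{a_j} = c a.e.}` (a subgroup).  It is saturated: if `k a ∈ Λ`, `k ≠ 0`, then `(u^a)^k = c` a.e.; the
polynomial `X^k - c` has finitely many roots in `K`, so `u^a` takes finitely many values a.e., hence is a.e. constant
(ultrafilter; a lemma: if a.e. `f n ∈ T`, `T` finite, then a.e. `f n = c` for some `c ∈ T`).  If `Λ` is everything then all `u_j` are a.e.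
constant: left alternative.  Otherwise `ℤ^L/Λ` is a nonzero finitely generated torsion-free, hence free, `ℤ`-module, so there is a
nonzero linear functional on it, i.e. `a ∈ ℤ^L`, `a ≠ 0`, with `∑ a_j λ_j = 0` for all `λ ∈ Λ`.  Given `F` with `F(u) = 0` a.e., apply `sunit_grade`
with `s = F.support`, `y w n = ∏_j u_j(n)^{w_j}`, `c w = F.coeff w`, `f = wt a`: if `y w = c y w'` a.e. then `w - w' ∈ Λ` (as an integer
vector), so `wt a w = wt a w'`. -/

set_option autoImplicit false

namespace Pool.Agent.Helper26.DMC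

open NumberField MvPolynomial

variable {K : Type*} [Field K] [NumberField K]

/-- Finitely many values: almost everywhere constant. -/
theorem window_ae_const {α β : Type*} (U : Ultrafilter α) (f : α → β) {T : Set β} (hT : T.Finite)
    (h : ∀ᶠ n in (U : Filter α), f n ∈ T) : ∃ c ∈ T, ∀ᶠ n in (U : Filter α), f n = c := by
  by_contra hcon
  push Not at hcon
  have h2 : ∀ c ∈ T, ∀ᶠ n in (U : Filter α), f n ≠ c := hcon
  have h3 : ∀ᶠ n in (U : Filter α), ∀ c ∈ T, f n ≠ c := (Filter.eventually_all_finite hT).2 h2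
  obtain ⟨n, hn1, hn2⟩ := (h.and h3).exists
  exact hn2 _ hn1 rfl

theorem window_relation_lattice {E : Type*} [Field E] (U : Ultrafilter ℕ) {L : ℕ} (u : Fin L → ℕ → E)
    (hu : ∀ᶠ n in (U : Filter ℕ), ∀ j, u j n ≠ 0) :
    (∃ c : Fin L → E, ∀ᶠ n in (U : Filter ℕ), ∀ j, u j n = c j) ∨
    ∃ a : Fin L → ℤ, a ≠ 0 ∧ ∀ l : Fin L → ℤ, (∃ c : E, ∀ᶠ n in (U : Filter ℕ), ∏ j, u j n ^ l j = c) →
      ∑ j, l j * a j = 0 := by
  classical
  let Λ : Submodule ℤ (Fin L → ℤ) :=
    { carrier := {l | ∃ c : E, ∀ᶠ n in (U : Filter ℕ), ∏ j, u j n ^ l j = c}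
      add_mem' := by
        rintro l l' ⟨c, hc⟩ ⟨c', hc'⟩
        refine ⟨c * c', ?_⟩
        filter_upwards [hc, hc', hu] with n h1 h2 h3
        rw [← h1, ← h2, ← Finset.prod_mul_distrib]
        exact Finset.prod_congr rfl fun j _ => by rw [Pi.add_apply, zpow_add₀ (h3 j)]
      zero_mem' := ⟨1, by simp⟩
      smul_mem' := by
        rintro k l ⟨c, hc⟩
        refine ⟨c ^ k, ?_⟩
        filter_upwards [hc] with n h1
        rw [← h1, ← Finset.prod_zpow]
        exact Finset.prod_congr rfl fun j _ => by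
          rw [Pi.smul_apply, smul_eq_mul, mul_comm, zpow_mul] }
  have hΛ : ∀ l, l ∈ Λ ↔ ∃ c : E, ∀ᶠ n in (U : Filter ℕ), ∏ j, u j n ^ l j = c := fun l => Iff.rfl
  -- saturation
  have hsatN : ∀ (k : ℕ) (l : Fin L → ℤ), k ≠ 0 → (k : ℤ) • l ∈ Λ → l ∈ Λ := by
    rintro k l hk ⟨c, hc⟩
    have hfin : {x : E | x ^ k = c}.Finite := by
      have : {x : E | x ^ k = c} ⊆ ((Polynomial.X ^ k - Polynomial.C c : Polynomial E).roots.toFinset : Set E) := by
        intro x hx
        rw [Finset.mem_coe, Multiset.mem_toFinset,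
          Polynomial.mem_roots (Polynomial.X_pow_sub_C_ne_zero (Nat.pos_of_ne_zero hk) c)]
        have hx' : x ^ k = c := hx
        simp [hx']
      exact (Finset.finite_toSet _).subset this
    obtain ⟨d, -, hd⟩ := window_ae_const U (fun n => ∏ j, u j n ^ l j) hfin (by
      filter_upwards [hc] with n h1
      show (∏ j, u j n ^ l j) ^ k = c
      rw [← h1, ← Finset.prod_pow]
      exact Finset.prod_congr rfl fun j _ => by
        rw [Pi.smul_apply, smul_eq_mul, mul_comm, zpow_mul, zpow_natCast])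
    exact ⟨d, hd⟩
  have hsat : ∀ (k : ℤ) (l : Fin L → ℤ), k ≠ 0 → k • l ∈ Λ → l ∈ Λ := by
    intro k l hk h
    have h2 : (k.natAbs : ℤ) • l ∈ Λ := by
      rcases Int.natAbs_eq k with h3 | h3
      · rw [← h3]; exact h
      · have h4 : (k.natAbs : ℤ) = -k := by omega
        rw [h4, neg_smul]; exact Λ.neg_mem h
    exact hsatN _ l (by omega) h2
  by_cases htop : Λ = ⊤
  · left
    have h1 : ∀ j, ∃ c : E, ∀ᶠ n in (U : Filter ℕ), u j n = c := by
      intro j
      have : (Pi.single j 1 : Fin L → ℤ) ∈ Λ := by rw [htop]; trivial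
      obtain ⟨c, hc⟩ := this
      refine ⟨c, ?_⟩
      filter_upwards [hc] with n h
      rw [← h, Finset.prod_eq_single j]
      · simp
      · intro i _ hi
        simp [hi]
      · simp
    choose c hc using h1
    exact ⟨c, Filter.eventually_all.2 hc⟩
  · right
    have htf : Module.IsTorsionFree ℤ ((Fin L → ℤ) ⧸ Λ) := by
      constructor
      intro r hr x y hxy
      obtain ⟨x, rfl⟩ := Λ.mkQ_surjective x
      obtain ⟨y, rfl⟩ := Λ.mkQ_surjective y
      have hr0 : r ≠ 0 := hr.ne_zero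
      have h1 : r • (x - y) ∈ Λ := by
        rw [← Submodule.Quotient.mk_eq_zero, ← Submodule.mkQ_apply, map_smul, map_sub, smul_sub,
          sub_eq_zero]
        exact hxy
      have h2 := hsat r _ hr0 h1
      rw [← Submodule.Quotient.mk_eq_zero, ← Submodule.mkQ_apply, map_sub, sub_eq_zero] at h2
      exact h2
    have : Module.Free ℤ ((Fin L → ℤ) ⧸ Λ) := inferInstance
    obtain ⟨x, hx⟩ : ∃ x, x ∉ Λ := by
      by_contra h
      push Not at h
      exact htop (by rw [Submodule.eq_top_iff']; exact h)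
    have hx' : Λ.mkQ x ≠ 0 := by
      rwa [Ne, Submodule.mkQ_apply, Submodule.Quotient.mk_eq_zero]
    obtain ⟨φ, hφ⟩ : ∃ φ : Module.Dual ℤ ((Fin L → ℤ) ⧸ Λ), φ (Λ.mkQ x) ≠ 0 := by
      by_contra h
      push Not at h
      exact hx' ((Module.forall_dual_apply_eq_zero_iff ℤ _).1 h)
    have hlin : ∀ l : Fin L → ℤ, φ (Λ.mkQ l) = ∑ j, l j * φ (Λ.mkQ (Pi.single j 1)) := by
      intro l
      conv_lhs => rw [show l = ∑ j, l j • (Pi.single j 1 : Fin L → ℤ) by
        ext i
        simp [Finset.sum_apply, Pi.single_apply]]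
      rw [map_sum, map_sum]
      exact Finset.sum_congr rfl fun j _ => by rw [map_smul, map_smul, smul_eq_mul]
    refine ⟨fun j => φ (Λ.mkQ (Pi.single j 1)), ?_, ?_⟩
    · intro h0
      apply hφ
      rw [hlin]
      exact Finset.sum_eq_zero fun j _ => by rw [congrFun h0 j]; simp
    · intro l hl
      rw [← hlin]
      have : Λ.mkQ l = 0 := by
        rw [Submodule.mkQ_apply, Submodule.Quotient.mk_eq_zero]; exact hl
      rw [this, map_zero]

theorem window (U : Ultrafilter ℕ) (S : Finset (FinitePlace K)) {L : ℕ} (u : Fin L → ℕ → K)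
    (hu : ∀ j, SUnit U S (u j)) :
    (∃ c : Fin L → K, ∀ᶠ n in (U : Filter ℕ), ∀ j, u j n = c j) ∨
    ∃ a : Fin L → ℤ, a ≠ 0 ∧ ∀ F : MvPolynomial (Fin L) K,
      (∀ᶠ n in (U : Filter ℕ), eval (fun j => u j n) F = 0) →
        ∀ t, ∀ᶠ n in (U : Filter ℕ), eval (fun j => u j n) (gr a t F) = 0 := by
  classical
  have hu0 : ∀ᶠ n in (U : Filter ℕ), ∀ j, u j n ≠ 0 ∧ ∀ v : FinitePlace K, v ∉ S → v (u j n) = 1 :=
    Filter.eventually_all.2 hu
  rcases window_relation_lattice U u (hu0.mono fun n h j => (h j).1) with h | ⟨a, ha, hl⟩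
  · exact Or.inl h
  right
  refine ⟨a, ha, fun F hF t => ?_⟩
  have hy : ∀ w ∈ F.support, SUnit U S (fun n => ∏ j, u j n ^ w j) := by
    intro w _
    unfold SUnit
    filter_upwards [hu0] with n hn
    refine ⟨Finset.prod_ne_zero_iff.2 fun j _ => pow_ne_zero _ (hn j).1, fun v hv => ?_⟩
    rw [map_prod]
    exact Finset.prod_eq_one fun j _ => by rw [map_pow, (hn j).2 v hv, one_pow]
  have key := sunit_grade U S F.support (fun w n => ∏ j, u j n ^ w j) hy (fun w => F.coeff w)
    (by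
      filter_upwards [hF] with n hn
      rw [← hn, eval_eq']) (wt a) (by
      rintro w - w' - ⟨c, hc⟩
      have h1 := hl (fun j => (w j : ℤ) - (w' j : ℤ)) ⟨c, by
        filter_upwards [hc, hu0] with n hn hn0
        have h2 : ∏ j, u j n ^ ((w j : ℤ) - (w' j : ℤ)) = (∏ j, u j n ^ w j) / ∏ j, u j n ^ w' j := by
          rw [← Finset.prod_div_distrib]
          exact Finset.prod_congr rfl fun j _ => by
            rw [zpow_sub₀ (hn0 j).1, zpow_natCast, zpow_natCast]
        rw [h2, hn, mul_div_assoc, div_self, mul_one]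
        exact Finset.prod_ne_zero_iff.2 fun j _ => pow_ne_zero _ (hn0 j).1⟩
      have hw : ∀ w : Fin L →₀ ℕ, wt a w = ∑ j, (w j : ℤ) * a j := by
        intro w
        unfold wt
        rw [Finsupp.sum_fintype]
        intro i; simp
      rw [hw, hw, ← sub_eq_zero, ← Finset.sum_sub_distrib, ← h1]
      exact Finset.sum_congr rfl fun j _ => by ring) t
  filter_upwards [key] with n hn
  rw [← hn]
  unfold gr
  rw [map_sum]
  refine Finset.sum_congr rfl fun w _ => ?_
  rw [eval_monomial, Finsupp.prod_fintype]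
  intro i; simp

end Pool.Agent.Helper26.DMC
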