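import Pool.Agent.Helper26.DMC.KEY
import Pool.Agent.Helper26.DMC.WI
import Pool.Agent.Helper26.DMC.NO
import Pool.Agent.Helper26.DMC.UN

/-! Block DMC-MA (helper26): the transfer theorem. -/

set_option autoImplicit false

namespace Pool.Agent.Helper26.DMC

open MvPolynomial NumberField

variable {K : Type*} [Field K] [NumberField K] {N : ℕ}

omit [NumberField K] in
lemma bind_iter_injective {Φ : Fin N → MvPolynomial (Fin N) K}
    (hΦ : Function.Injective (bind₁ Φ : MvPolynomial (Fin N) K →ₐ[K] MvPolynomial (Fin N) K))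
    (i : ℕ) : Function.Injective (bind₁ (iter Φ i) : MvPolynomial (Fin N) K →ₐ[K] _) := by
  induction i with
  | zero =>
    intro F G hFG
    simpa [iter] using hFG
  | succ i ih =>
    intro F G hFG
    rw [bind_iter_succ, bind_iter_succ] at hFG
    exact ih (hΦ hFG)

theorem transfer {Φ : Fin N → MvPolynomial (Fin N) K} {h : MvPolynomial (Fin N) K} (hh : ∀ c, h ≠ C c)
    {m : ℕ} (hm : 0 < m) {β : Fin N → K} (hc : Contr Φ h m β)
    (hβ : ∀ p, 0 < p → (pmap Φ)^[p] β ≠ β) {α : Fin N → K} (hα : Dense Φ α)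
    (V : Set (MvPolynomial (Fin N) K))
    (hinf : {n | ∀ F ∈ V, eval ((pmap Φ)^[n] α) F = 0}.Infinite) :
    ∃ B : ℕ, ∀ k, ∃ j, j ≤ B ∧ ∀ F ∈ V, eval ((pmap Φ)^[k + j] β) F = 0 := by
  classical
  have hK : Infinite K := inferInstance
  have hN : Nonempty (Fin N) := by
    by_contra hcon
    have : IsEmpty (Fin N) := not_nonempty_iff.mp hcon
    exact hh _ (MvPolynomial.eq_C_of_isEmpty h)
  set x : ℕ → Fin N → K := fun n => (pmap Φ)^[n] α with hx
  have hxadd : ∀ i j, (pmap Φ)^[j] (x i) = x (i + j) := by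
    intro i j
    simp only [hx]
    rw [← Function.iterate_add_apply, add_comm]
  -- the sequence of polynomials
  set s : ℕ → MvPolynomial (Fin N) K := fun i => bind₁ (iter Φ i) h with hs
  have hinj := hα.injective
  have hsh : Shift K s := ⟨bind₁ Φ, hinj, fun i => (bind_iter_succ Φ i h).symm⟩
  have hevs : ∀ i n, eval (x n) (s i) = eval (x (n + i)) h := by
    intro i n
    simp only [hs]
    rw [eval_bind_iter, hxadd]
  have hb := hc.ne_zero hβ hm
  have hdvd : ∀ i k, s i ∣ s (i + m + k) - C (eval ((pmap Φ)^[k] β) h) := by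
    intro i k
    obtain ⟨G, hG⟩ := hc.dvd k h
    refine ⟨bind₁ (iter Φ i) G, ?_⟩
    simp only [hs]
    rw [add_assoc, bind_iter_add, ← map_mul, ← hG, map_sub, bind₁_C_right]
  have hnc : ∀ i c, s i ≠ C c := by
    intro i c hic
    apply hh c
    apply bind_iter_injective hinj i
    rw [bind₁_C_right]
    exact hic
  obtain ⟨L₀, hL₀⟩ := key s hsh m _ hb hdvd hnc
  obtain ⟨Md, hMd⟩ := determ Φ h
  set L := max L₀ (Md + 1) with hL
  obtain ⟨Q, hQ0, hQ⟩ := exists_detect (K := K) (fun j : Fin L => s j)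
  set P : MvPolynomial (Fin N) K := ∏ q ∈ Q, q with hP
  have hP0 : P ≠ 0 := by
    rw [hP, Finset.prod_ne_zero_iff]
    intro q hq h0
    exact hQ0 (h0 ▸ hq)
  obtain ⟨M, hM⟩ := noeth Φ P
  by_contra hcon
  push Not at hcon
  obtain ⟨k₀, hk₀⟩ := hcon (M + L)
  set B := M + L with hB
  have hunit : ∀ j, j ≤ B → ∃ S : Finset (FinitePlace K), ∀ i : ℕ,
      (∀ F ∈ V, eval (x (i + m + (k₀ + j))) F = 0) →
      eval (x i) h ≠ 0 ∧ ∀ v : FinitePlace K, v ∉ S → v (eval (x i) h) = 1 := fun j hj =>
    unit_before hc α V (k₀ + j) (hk₀ j hj)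
  choose! S' hS' using hunit
  set S : Finset (FinitePlace K) := (Finset.range (B + 1)).biUnion S' with hS
  -- the ultrafilter
  set Ret : Set ℕ := {n | ∀ F ∈ V, eval (x n) F = 0} with hRet
  have hne : (Filter.cofinite ⊓ Filter.principal Ret).NeBot :=
    Filter.cofinite_inf_principal_neBot_iff.mpr hinf
  let U : Ultrafilter ℕ := Ultrafilter.of (Filter.cofinite ⊓ Filter.principal Ret)
  have hU : (U : Filter ℕ) ≤ Filter.cofinite ⊓ Filter.principal Ret := Ultrafilter.of_le _
  have hU1 : ∀ᶠ n in (U : Filter ℕ), n ∈ Ret :=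
    hU (Filter.mem_inf_of_right (Filter.mem_principal_self Ret))
  have hU2 : (U : Filter ℕ) ≤ Filter.atTop := by
    rw [← Nat.cofinite_eq_atTop]
    exact hU.trans inf_le_left
  set base : ℕ → ℕ := fun n => n - (m + k₀ + B) with hbase
  have hlarge : ∀ c : ℕ, ∀ᶠ n in (U : Filter ℕ), c ≤ n := fun c => hU2 (Filter.eventually_ge_atTop c)
  have hSU : ∀ l, l ≤ B → SUnit U S (fun n => eval (x (base n + l)) h) := by
    intro l hl
    filter_upwards [hU1, hlarge (m + k₀ + B)] with n hn hn'
    have h1 : base n + l + m + (k₀ + (B - l)) = n := by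
      simp only [hbase]; omega
    obtain ⟨h2, h3⟩ := hS' (B - l) (by omega) (base n + l) (by rw [h1]; exact hn)
    refine ⟨h2, fun v hv => h3 v (fun hv' => hv ?_)⟩
    rw [hS, Finset.mem_biUnion]
    exact ⟨B - l, Finset.mem_range.mpr (by omega), hv'⟩
  -- main claim
  have hclaim : ∀ l, l ≤ M → ∀ᶠ n in (U : Filter ℕ), eval (x (base n + l)) P = 0 := by
    intro l hl
    have hu : ∀ j : Fin L, SUnit U S (fun n => eval (x (base n + l + j)) h) := by
      intro j
      have := hSU (l + j) (by have := j.2; omega)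
      simpa only [← add_assoc] using this
    rcases window U S (fun (j : Fin L) n => eval (x (base n + l + j)) h) hu with ⟨c, hcst⟩ | ⟨a, ha, hF⟩
    · exfalso
      obtain ⟨n₁, hn₁, hn₁'⟩ := (hcst.and (hlarge (m + k₀ + B))).exists
      obtain ⟨n₂, hn₂, hn₂'⟩ := (hcst.and (hlarge (n₁ + 1))).exists
      have hbb : base n₁ < base n₂ := by simp only [hbase]; omega
      have heq : ∀ t, eval (x (base n₁ + l + t)) h = eval (x (base n₂ + l + t)) h := by
        intro t
        have h1 := hMd (x (base n₁ + l)) (x (base n₂ + l)) (by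
          intro j hj
          rw [hxadd, hxadd]
          have h2 := hn₁ ⟨j, by omega⟩
          have h3 := hn₂ ⟨j, by omega⟩
          simp only at h2 h3
          rw [h2, h3]) t
        rwa [hxadd, hxadd] at h1
      obtain ⟨p, hp⟩ : ∃ p, base n₂ = base n₁ + (p + 1) := ⟨base n₂ - base n₁ - 1, by omega⟩
      set P' : MvPolynomial (Fin N) K :=
        ∏ t ∈ Finset.range (p + 1), (h - C (eval (x (base n₁ + l + t)) h)) with hP'
      have hP'0 : P' ≠ 0 := by
        rw [hP', Finset.prod_ne_zero_iff]
        intro t _ h0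
        exact hh _ (sub_eq_zero.mp h0)
      obtain ⟨n, hn, hnP⟩ := hα.tail hP'0 (base n₁ + l)
      apply hnP
      have hper : ∀ t, ∃ t' < p + 1, eval (x (base n₁ + l + t)) h = eval (x (base n₁ + l + t')) h := by
        intro t
        induction t using Nat.strong_induction_on with
        | _ t ih =>
          rcases lt_or_ge t (p + 1) with h1 | h1
          · exact ⟨t, h1, rfl⟩
          · obtain ⟨t', ht', he⟩ := ih (t - (p + 1)) (by omega)
            refine ⟨t', ht', ?_⟩
            have e1 : base n₁ + l + t = base n₂ + l + (t - (p + 1)) := by omega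
            rw [e1, ← heq (t - (p + 1)), he]
      obtain ⟨t, rfl⟩ := Nat.exists_eq_add_of_le hn
      obtain ⟨t', ht', he⟩ := hper t
      change eval (x (base n₁ + l + t)) P' = 0
      rw [hP', map_prod]
      apply Finset.prod_eq_zero (Finset.mem_range.mpr ht')
      rw [map_sub, eval_C, he, sub_self]
    · have hnot : ¬ HomRel K (fun j : Fin L => s j) a := fun hcon' =>
        ha (hL₀ L (le_max_left _ _) a hcon')
      obtain ⟨F, hFs, t, htQ⟩ := hQ a hnot
      have hev : ∀ (G : MvPolynomial (Fin L) K) (n : ℕ),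
          eval (fun j : Fin L => eval (x (base n + l + j)) h) G =
            eval (x (base n + l)) (aeval (fun j : Fin L => s j) G) := by
        intro G n
        have h1 : (eval (x (base n + l))) (aeval (fun j : Fin L => s j) G) =
            aeval (fun j : Fin L => aeval (x (base n + l)) (s j)) G := by
          rw [← coe_aeval_eq_eval, RingHom.coe_coe, comp_aeval_apply]
        rw [h1, ← coe_aeval_eq_eval, RingHom.coe_coe]
        congr 2
        funext j
        change _ = eval (x (base n + l)) (s j)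
        rw [hevs]
      have h1 := hF F (Filter.Eventually.of_forall fun n => by rw [hev, hFs, map_zero]) t
      filter_upwards [h1] with n hn
      rw [hev] at hn
      rw [hP, map_prod]
      exact Finset.prod_eq_zero htQ hn
  have hall : ∀ᶠ n in (U : Filter ℕ), ∀ l ∈ Finset.range (M + 1), eval (x (base n + l)) P = 0 := by
    rw [Filter.eventually_all_finset]
    intro l hl
    exact hclaim l (by rw [Finset.mem_range] at hl; omega)
  obtain ⟨n, hn⟩ := hall.exists
  have hvan := hM (x (base n)) (fun j hj => by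
    rw [hxadd]; exact hn j (Finset.mem_range.mpr (by omega)))
  obtain ⟨n', hn', hne'⟩ := hα.tail hP0 (base n)
  obtain ⟨t, rfl⟩ := Nat.exists_eq_add_of_le hn'
  apply hne'
  have := hvan t
  rwa [hxadd] at this

end Pool.Agent.Helper26.DMC
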