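import Pool.Agent.Helper21.V2.SL8

/-! The subspace theorem over number fields, ultrafilter form (`Pool.Agent.V2.subspace`, helper21's
project), under the name used in the DMC files. -/

set_option autoImplicit false

namespace Pool.Agent.Helper26.DMC

open NumberField
open Pool.Agent.V2
open Pool.Agent.Helper64.Vojta (Pl nv)

variable {K : Type*} [Field K] [NumberField K]

theorem subspace_stub {n : ℕ} (F : Frm K (Fin n)) (c : Pl K → Fin n → ℝ) (hc : ExpS F.S c) (hd : deg c = 0)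
    (U : Ultrafilter ℕ) (t : ℕ → ℝ) (ht : Filter.Tendsto t (U : Filter ℕ) Filter.atTop)
    (δ : ℝ) (hδ : 0 < δ) (y : ℕ → Fin n → K)
    (hy : ∀ᶠ j in (U : Filter ℕ), y j ≠ 0 ∧ tH F (sc (t j) c) (y j) ≤ -δ * t j) :
    ∃ W : Submodule K (Fin n → K), W ≠ ⊤ ∧ ∀ᶠ j in (U : Filter ℕ), y j ∈ W :=
  subspace F c hc hd U t ht δ hδ y hy

end Pool.Agent.Helper26.DMC
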